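import Mathlib

/-!
# Project MT (MP_5140a6_co, S08737), block STR: definitions

Paper proof: `/team-store/multi_proof.md` (helper39), section 4, with the modification
`/team-store/h73_sec6.md` (helper73), 4.1', 4.4', 4.6'.
-/

namespace Pool.Agent.MT

open Module Submodule

/-- The space `ℝ^d` with the sup norm. -/
abbrev Sp (d : ℕ) := Fin d → ℝ

variable {d : ℕ}

/-- Local bound with multiplicity: at most `C0` points in a unit ball. -/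
def LocB (N : Sp d → ℕ) (C0 : ℕ) : Prop :=
  ∀ (y : Sp d) (F : Finset (Sp d)), (∀ z ∈ F, ‖z - y‖ ≤ 1) → ∑ z ∈ F, N z ≤ C0

/-- Positive density. -/
def Dens (N : Sp d → ℕ) : Prop :=
  ∃ c > 0, ∃ K1 : ℝ, ∀ K ≥ K1, ∃ F : Finset (Sp d), (∀ z ∈ F, ‖z‖ ≤ K) ∧
    c * K ^ d ≤ ∑ z ∈ F, (N z : ℝ)

/-- The tent function. -/
noncomputable def tent (R : ℝ) (z y : Sp d) : ℝ := max 0 (1 - ‖y - z‖ / R)

open Classical in
/-- The weighted number of atoms in the coset `x + G`. -/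
noncomputable def fsum (N : Sp d → ℕ) (G : AddSubgroup (Sp d)) (x z : Sp d) (R : ℝ) : ℝ :=
  ∑ᶠ l : Sp d, if l - x ∈ G then (N l : ℝ) * tent R z l else 0

/-- The finite scale relation (H3). -/
def H3 (S : Finset (Sp d)) (N : Sp d → ℕ) (V : Submodule ℝ (Sp d)) (A : Sp d → ℝ) : Prop :=
  ∃ C : ℝ, ∀ q : ℕ, 1 ≤ q → Nat.Coprime q (Nat.factorial (2 ^ d)) →
    ∀ (x z : Sp d) (R : ℝ), (q : ℝ) ≤ R →
      R * |∑ v ∈ S, A v * fsum N V.toAddSubgroup (x - (q : ℝ) • v) z R| ≤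
        C * q * R ^ (finrank ℝ V)

/-- The differences `S - S`. -/
def dif (S : Finset (Sp d)) : Set (Sp d) := {v | ∃ a ∈ S, ∃ b ∈ S, v = a - b}

/-- Mixed spaces: a real subspace `X` and a rational subspace `Y` (containing `X`). -/
abbrev Mx (d : ℕ) := Submodule ℝ (Sp d) × Submodule ℚ (Sp d)

/-- A real subspace as a rational one. -/
noncomputable abbrev rq (X : Submodule ℝ (Sp d)) : Submodule ℚ (Sp d) := X.restrictScalars ℚ

/-- The real span of a rational subspace. -/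
noncomputable abbrev rs (Y : Submodule ℚ (Sp d)) : Submodule ℝ (Sp d) := span ℝ (Y : Set (Sp d))

/-- The finite family of real parts. -/
inductive XX (D : Set (Sp d)) : Submodule ℝ (Sp d) → Prop
  | bot : XX D ⊥
  | add (X : Submodule ℝ (Sp d)) (D2 : Set (Sp d)) (h2 : D2 ⊆ D) (hX : XX D X) :
      XX D (X ⊔ span ℝ D2)
  | cap (X : Submodule ℝ (Sp d)) (D2 D3 : Set (Sp d)) (h2 : D2 ⊆ D) (h3 : D3 ⊆ D)
      (hX : XX D X) : XX D (X ⊔ (span ℝ D3 ⊓ (X ⊔ span ℝ D2)))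

/-- The finite family of mixed spaces. -/
def FF (D : Set (Sp d)) : Set (Mx d) :=
  {p | XX D p.1 ∧ ∃ D2 ⊆ D, p.2 = rq p.1 ⊔ span ℚ D2}

/-- `dim_ℚ (Y / X)`. -/
noncomputable def dq (p : Mx d) : ℕ :=
  finrank ℚ (p.2.map (p.1.mkQ.restrictScalars ℚ))

/-- The rank of a mixed space. -/
noncomputable def rk (p : Mx d) : ℕ := finrank ℝ p.1 + dq p

/-- The subgroup attached to a mixed space. -/
def grp (D : Set (Sp d)) (p : Mx d) : AddSubgroup (Sp d) :=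
  p.1.toAddSubgroup ⊔ AddSubgroup.closure {v | v ∈ D ∧ v ∈ p.2}

open Classical in
/-- The number of cosets of `G` met by `A`. -/
noncomputable def nco (G : AddSubgroup (Sp d)) (A : Finset (Sp d)) : ℕ :=
  (A.image (fun x => (QuotientAddGroup.mk x : Sp d ⧸ G))).card

/-- `A` is a window at scale `K` for the family `O`. -/
structure Win (N : Sp d → ℕ) (D : Set (Sp d)) (O : Set (Mx d)) (ε C K : ℝ) (z : Sp d)
    (A : Finset (Sp d)) : Prop where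
  supp : ∀ x ∈ A, N x ≠ 0
  ball : ∀ x ∈ A, ‖x - z‖ ≤ K
  card : ε * K ^ d ≤ A.card
  cos : ∀ p ∈ O, (nco (grp D p) A : ℝ) * K ^ rk p ≤ C * K ^ d

/-- Realizable families. -/
def Rlz (N : Sp d → ℕ) (D : Set (Sp d)) (O : Set (Mx d)) : Prop :=
  ∃ ε > 0, ∃ C : ℝ, ∀ K0 : ℝ, ∃ K ≥ K0, ∃ z A, Win N D O ε C K z A

/-- The output of the structural part: the tower structure and windows. -/
structure Struc (S : Finset (Sp d)) (FD : Set (Submodule ℝ (Sp d) × (Sp d → ℝ)))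
    (VV : Set (Submodule ℝ (Sp d))) (EE : Submodule ℝ (Sp d))
    (Y : Submodule ℝ (Sp d) → Submodule ℚ (Sp d)) : Prop where
  fin : VV.Finite
  bot_mem : ⊥ ∈ VV
  top_mem : EE ∈ VV
  le_top : ∀ V ∈ VV, V ≤ EE
  le_Y : ∀ V ∈ VV, rq V ≤ Y V
  pl_mem : ∀ V ∈ VV, rs (Y V) ∈ VV
  mono : ∀ V ∈ VV, ∀ V' ∈ VV, V ≤ V' → Y V ≤ Y V'
  lt : ∀ V ∈ VV, V ≠ EE → V ≠ rs (Y V)
  /-- `Y V / V` is a finite dimensional rational form of `rs (Y V) / V`. -/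
  fd : ∀ V ∈ VV, Module.Finite ℚ ((Y V).map (V.mkQ.restrictScalars ℚ))
  form : ∀ V ∈ VV, finrank ℝ V + finrank ℚ ((Y V).map (V.mkQ.restrictScalars ℚ)) =
    finrank ℝ (rs (Y V))
  good : ∀ V ∈ VV, ∀ A, (V, A) ∈ FD → ∀ y : Sp d,
    open Classical in ∑ v ∈ S with v - y ∈ Y V, A v = 0
  cap : ∀ U ∈ VV, ∀ D3 ⊆ dif S, U ≤ span ℝ D3 →
    span ℝ D3 ⊓ rs (Y U) ≤ U ⊔ rs (rq (span ℝ D3) ⊓ Y U) → span ℝ D3 ⊓ rs (Y U) ∈ VV
  win : ∃ ε > 0, ∃ g0 > 0, ∀ K0 : ℝ, ∃ K ≥ K0, ∃ (z : Sp d) (B : Finset (Sp d)),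
    (∀ x ∈ B, ‖x - z‖ ≤ K) ∧ (∀ x ∈ B, ∀ x' ∈ B, x' - x ∈ EE) ∧
    ε * K ^ finrank ℝ EE ≤ B.card ∧
    ∀ V ∈ VV, ∀ x ∈ B, ∀ x' ∈ B, ∀ u : Sp d, ‖x' - x - u‖ < g0 →
      (u ∈ V → x' - x ∈ V) ∧ (u ∈ rs (Y V) → x' - x ∈ Y V)

end Pool.Agent.MT
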