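import Pool.Agent.H75.MT.Rank

/-!
# STR module Coord: integer coordinates on a group `grp D p`

Let `p = (X, Y) ∈ FF D`, `D` finite, `rk p = dim_ℝ rs Y`, `m = dq p`.  Choose `y_1 .. y_m ∈ Y` whose
images in `E / X` form a `ℚ`-basis of `Y / X`.  `rs Y = X + ∑ ℝ y_i` has dimension `dim X + m`, so
the `y_i` are linearly independent over `ℝ` modulo `X`.  Hence there are linear functionals
`ψ_i : E → ℝ` with `ψ_i (X) = 0` and `ψ_i (y_j) = δ_ij`.  Every `g ∈ Y` is `x + ∑ q_i y_i` with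
rational `q_i = ψ_i g`; let `n ≥ 1` be a common denominator of all `ψ_i g`, `g ∈ D ∩ Y`, and
`φ = n ψ`.  Then `φ` is integral on `D ∩ Y`, zero on `X`, so integral on
`grp D p = X + ⟨D ∩ Y⟩` (closure induction), and for `u = x + ∑ t_i y_i ∈ rs Y`, `φ u = n t`.
-/

namespace Pool.Agent.MT

open Module Submodule

variable {d : ℕ}

theorem grp_le {D : Set (Sp d)} {p : Mx d} (h : rq p.1 ≤ p.2) {g : Sp d} (hg : g ∈ grp D p) :
    g ∈ p.2 := by
  unfold grp at hg
  obtain ⟨x, hx, c, hc, rfl⟩ := AddSubgroup.mem_sup.1 hg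
  refine p.2.add_mem (h hx) ?_
  have h1 : AddSubgroup.closure {v | v ∈ D ∧ v ∈ p.2} ≤ p.2.toAddSubgroup := by
    rw [AddSubgroup.closure_le]
    exact fun v hv => hv.2
  exact h1 hc

theorem grp_mono {D : Set (Sp d)} {p p' : Mx d} (h : p ≤ p') : grp D p ≤ grp D p' := by
  unfold grp
  refine sup_le_sup ?_ (AddSubgroup.closure_mono ?_)
  · exact fun x hx => h.1 hx
  · exact fun v hv => ⟨hv.1, h.2 hv.2⟩

private theorem Coord_den {ι : Type*} [Fintype ι] (r : ι → ℚ) :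
    ∃ n : ℕ, 1 ≤ n ∧ ∀ i, ∃ z : ℤ, (n : ℝ) * (r i : ℝ) = z := by
  classical
  refine ⟨∏ i, (r i).den, Nat.one_le_iff_ne_zero.2 (Finset.prod_ne_zero_iff.2
    fun i _ => (r i).den_nz), fun i => ?_⟩
  refine ⟨(∏ j ∈ Finset.univ.erase i, ((r j).den : ℤ)) * (r i).num, ?_⟩
  have h1 : (∏ j, (r j).den) = (r i).den * ∏ j ∈ Finset.univ.erase i, (r j).den :=
    (Finset.mul_prod_erase Finset.univ (fun j => (r j).den) (Finset.mem_univ i)).symm
  have h2 : ((r i).den : ℝ) * (r i : ℝ) = ((r i).num : ℝ) := by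
    have : ((r i).den : ℚ) * r i = (r i).num := Rat.den_mul_eq_num (r i)
    exact_mod_cast this
  rw [h1]
  push_cast
  rw [← h2]
  ring

private theorem Coord_den' {E ι : Type*} [Fintype ι] {D : Set E} (hD : D.Finite) (P : E → Prop)
    (f : E → ι → ℝ) (hf : ∀ g, P g → ∀ i, ∃ q : ℚ, f g i = q) :
    ∃ n : ℕ, 1 ≤ n ∧ ∀ g ∈ D, P g → ∀ i, ∃ z : ℤ, (n : ℝ) * f g i = z := by
  classical
  induction D, hD using Set.Finite.induction_on with
  | empty => exact ⟨1, le_rfl, fun g hg => absurd hg (Set.notMem_empty g)⟩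
  | @insert a s ha hs ih =>
    obtain ⟨n, hn, hn'⟩ := ih
    by_cases hP : P a
    · choose r hr using hf a hP
      obtain ⟨n', hn1, hn2⟩ := Coord_den r
      refine ⟨n * n', Nat.one_le_iff_ne_zero.2 (Nat.mul_ne_zero (by omega) (by omega)), ?_⟩
      intro g hg hPg i
      rcases Set.mem_insert_iff.1 hg with rfl | hg
      · obtain ⟨z, hz⟩ := hn2 i
        refine ⟨n * z, ?_⟩
        rw [hr i]
        push_cast
        rw [mul_assoc, hz]
      · obtain ⟨z, hz⟩ := hn' g hg hPg i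
        refine ⟨n' * z, ?_⟩
        push_cast
        rw [← hz]
        ring
    · refine ⟨n, hn, fun g hg hPg i => ?_⟩
      rcases Set.mem_insert_iff.1 hg with rfl | hg
      · exact absurd hPg hP
      · exact hn' g hg hPg i

theorem coord {D : Set (Sp d)} (hD : D.Finite) {p : Mx d} (hp : p ∈ FF D)
    (h : rk p = finrank ℝ (rs p.2)) :
    ∃ φ : Sp d →ₗ[ℝ] (Fin (dq p) → ℝ),
      (∀ g ∈ grp D p, ∀ i, ∃ n : ℤ, φ g i = n) ∧ (∀ x ∈ p.1, φ x = 0) ∧
      (∀ u ∈ rs p.2, φ u = 0 → u ∈ p.1) := by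
  classical
  have hle : rq p.1 ≤ p.2 := FF_le hp
  have hf : FDq p := FF_fdq hD hp
  obtain ⟨X, hX⟩ : ∃ X, X = p.1 := ⟨_, rfl⟩
  obtain ⟨π, hπ⟩ : ∃ π : Sp d →ₗ[ℝ] (Sp d ⧸ p.1), π = p.1.mkQ := ⟨_, rfl⟩
  haveI : Module.Finite ℚ (p.2.map (p.1.mkQ.restrictScalars ℚ)) := hf
  obtain ⟨Y', hY'⟩ : ∃ Y', Y' = p.2.map (p.1.mkQ.restrictScalars ℚ) := ⟨_, rfl⟩
  rw [← hY'] at this
  have hdq : dq p = finrank ℚ Y' := by rw [hY']; rfl
  let b : Basis (Fin (dq p)) ℚ Y' := finBasisOfFinrankEq ℚ Y' hdq.symm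
  let w : Fin (dq p) → (Sp d ⧸ p.1) := fun i => (b i : Sp d ⧸ p.1)
  -- rational coordinates
  have hcoord : ∀ y (hy : y ∈ Y'), y = ∑ i, ((b.repr ⟨y, hy⟩ i : ℚ) : ℝ) • w i := by
    intro y hy
    have h1 := b.sum_repr ⟨y, hy⟩
    have h2 := congrArg (fun z : Y' => (z : Sp d ⧸ p.1)) h1
    simp only [AddSubmonoidClass.coe_finset_sum, Submodule.coe_smul] at h2
    conv_lhs => rw [← h2]
    refine Finset.sum_congr rfl (fun i _ => ?_)
    exact (Rat.cast_smul_eq_qsmul ℝ _ _).symm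
  have hY'mem : ∀ y, y ∈ Y' ↔ ∃ g ∈ p.2, π g = y := by
    intro y
    rw [hY', hπ, Submodule.mem_map]
    rfl
  have hwmem : ∀ i, w i ∈ Y' := fun i => (b i).2
  -- the real span
  have hspan : (rs p.2).map π = span ℝ (Set.range w) := by
    apply le_antisymm
    · rw [rs, Submodule.map_span, span_le]
      rintro _ ⟨g, hg, rfl⟩
      have hy : π g ∈ Y' := (hY'mem _).2 ⟨g, hg, rfl⟩
      rw [SetLike.mem_coe, hcoord _ hy]
      exact sum_mem fun i _ => smul_mem _ _ (subset_span ⟨i, rfl⟩)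
    · rw [span_le]
      rintro _ ⟨i, rfl⟩
      obtain ⟨g, hg, hg'⟩ := (hY'mem _).1 (hwmem i)
      exact ⟨g, subset_span hg, hg'⟩
  have hXle : p.1 ≤ rs p.2 := fun x hx => subset_span (hle hx)
  have hfin : finrank ℝ (span ℝ (Set.range w)) = dq p := by
    have h1 := LinearMap.finrank_range_add_finrank_ker (π.domRestrict (rs p.2))
    have h2 : LinearMap.range (π.domRestrict (rs p.2)) = (rs p.2).map π :=
      LinearMap.range_domRestrict _ _
    have h3 : LinearMap.ker (π.domRestrict (rs p.2)) = p.1.comap (rs p.2).subtype := by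
      ext z
      rw [LinearMap.mem_ker, LinearMap.domRestrict_apply, hπ, Submodule.mem_comap,
        Submodule.mkQ_apply, Submodule.Quotient.mk_eq_zero]
      rfl
    have h4 : finrank ℝ (p.1.comap (rs p.2).subtype) = finrank ℝ p.1 :=
      (Submodule.comapSubtypeEquivOfLe hXle).finrank_eq
    rw [h2, h3, h4, hspan, ← h] at h1
    unfold rk at h1
    omega
  have hli : LinearIndependent ℝ w := by
    rw [linearIndependent_iff_card_eq_finrank_span, Fintype.card_fin]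
    exact hfin.symm
  let B : Basis (Fin (dq p)) ℝ (span ℝ (Set.range w)) := Basis.span hli
  obtain ⟨ψ, hψ⟩ := LinearMap.exists_extend (B.equivFun : span ℝ (Set.range w) →ₗ[ℝ] (Fin (dq p) → ℝ))
  have hψB : ∀ z (hz : z ∈ span ℝ (Set.range w)), ψ z = B.equivFun ⟨z, hz⟩ := by
    intro z hz
    have := congrArg (fun l => l ⟨z, hz⟩) hψ
    exact this
  have hψw : ∀ i, ψ (w i) = Pi.single i 1 := by
    intro i
    rw [hψB _ (subset_span ⟨i, rfl⟩)]
    have h1 : B i = ⟨w i, subset_span ⟨i, rfl⟩⟩ := Basis.span_apply hli i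
    rw [← h1, Basis.equivFun_apply, Basis.repr_self]
    ext j
    rw [Finsupp.single_eq_pi_single]
  -- rationality
  have hrat : ∀ g, g ∈ p.2 → ∀ i, ∃ q : ℚ, ψ (π g) i = q := by
    intro g hg i
    have hy : π g ∈ Y' := (hY'mem _).2 ⟨g, hg, rfl⟩
    refine ⟨b.repr ⟨π g, hy⟩ i, ?_⟩
    conv_lhs => rw [hcoord _ hy]
    rw [map_sum, Finset.sum_apply, Finset.sum_eq_single i]
    · rw [map_smul, hψw, Pi.smul_apply, Pi.single_eq_same, smul_eq_mul, mul_one]
    · intro j _ hj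
      rw [map_smul, hψw, Pi.smul_apply, Pi.single_eq_of_ne hj.symm, smul_zero]
    · intro hi
      exact absurd (Finset.mem_univ i) hi
  obtain ⟨n, hn, hn'⟩ := Coord_den' hD (fun g => g ∈ p.2) (fun g => ψ (π g)) hrat
  refine ⟨(n : ℝ) • (ψ ∘ₗ π), ?_, ?_, ?_⟩
  · intro g hg i
    unfold grp at hg
    obtain ⟨x, hx, c, hc, rfl⟩ := AddSubgroup.mem_sup.1 hg
    have hx0 : π x = 0 := by
      rw [hπ, Submodule.mkQ_apply, Submodule.Quotient.mk_eq_zero]
      exact hx
    have hadd : ((n : ℝ) • (ψ ∘ₗ π)) (x + c) i = (n : ℝ) * ψ (π c) i := by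
      rw [LinearMap.smul_apply, LinearMap.comp_apply, map_add, hx0, zero_add, Pi.smul_apply,
        smul_eq_mul]
    rw [hadd]
    clear hadd hg
    induction hc using AddSubgroup.closure_induction with
    | mem v hv => exact hn' v hv.1 hv.2 i
    | zero => exact ⟨0, by simp⟩
    | add u v _ _ hu hv =>
      obtain ⟨a, ha⟩ := hu
      obtain ⟨a', ha'⟩ := hv
      refine ⟨a + a', ?_⟩
      rw [map_add, map_add, Pi.add_apply, mul_add, ha, ha']
      push_cast
      rfl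
    | neg u _ hu =>
      obtain ⟨a, ha⟩ := hu
      refine ⟨-a, ?_⟩
      rw [map_neg, map_neg, Pi.neg_apply, mul_neg, ha]
      push_cast
      rfl
  · intro x hx
    have hx0 : π x = 0 := by
      rw [hπ, Submodule.mkQ_apply, Submodule.Quotient.mk_eq_zero]
      exact hx
    rw [LinearMap.smul_apply, LinearMap.comp_apply, hx0, map_zero, smul_zero]
  · intro u hu h0
    have hn0 : (n : ℝ) ≠ 0 := by
      have : n ≠ 0 := by omega
      exact_mod_cast this
    have h1 : ψ (π u) = 0 := by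
      rw [LinearMap.smul_apply, LinearMap.comp_apply] at h0
      exact (smul_eq_zero.1 h0).resolve_left hn0
    have h2 : π u ∈ span ℝ (Set.range w) := by
      rw [← hspan]
      exact ⟨u, hu, rfl⟩
    rw [hψB _ h2, LinearEquiv.map_eq_zero_iff] at h1
    have h3 : π u = 0 := congrArg Subtype.val h1
    rw [hπ, Submodule.mkQ_apply, Submodule.Quotient.mk_eq_zero] at h3
    exact h3

end Pool.Agent.MT
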