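import Pool.Agent.H75.MT.Defs

/-!
# STR module Count: counting atoms in boxes and near subspaces

`LocB N C0`: at most `C0` atoms (with multiplicity) in a closed unit ball.

* `box_count`.  Let `b` be a basis of `ℝ^d`, `s = 1 / (1 + ∑ i, ‖b i‖)`.  Choose a point `y₀` of `F`
  (nothing to do if `F = ∅`), and map `y ∈ F` to the vector `n(y) = (⌊(b.repr (y - y₀)) i / s⌋)_i ∈ ℤ^d`.
  Two points with the same `n` differ by `≤ s` in every coordinate, so by `≤ ∑ s ‖b i‖ ≤ 1` in norm;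
  so the sum of `N` over a fibre of `n` is `≤ C0` (ball around a point of the fibre).  The image of `n`
  lies in `∏ [-L i / s - 1, L i / s]`, at most `∏ (2 L i / s + 3) ≤ (2 / s + 3)^d ∏ L i` values.
* `region2`, `region3`: take a basis `b` of `ℝ^d` which contains a basis of `U` (for `region3` a basis of
  `U` and the vector `v`); there is `c ≥ 1` with `|b.repr w i| ≤ c ‖w‖`.  For `y, y' ∈ F` the
  coordinates of `y - y'` at the basis vectors of `U` are `≤ c K`; the other coordinates of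
  `y - y'` are those of `y - y' - u` (`region2`: `≤ c K'`), resp. of `y - y' - u - t v` up to `t` in the
  coordinate of `v` (`region3`: `≤ c K'`, and `≤ c K' + Q ≤ (c + 1) Q` for `v`).  Apply `box_count`
  (`∏ L i = (c K)^{dim U} (c K')^{d - dim U}`, multiply by `K'^{dim U}`).
* `flat_count` is `region2` with `K' = 1` (`u = y - y'`).
-/

namespace Pool.Agent.MT

open Module Submodule

variable {d : ℕ}

theorem Count_fib {N : Sp d → ℕ} {C0 : ℕ} (hN : LocB N C0) {α : Type*} [DecidableEq α]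
    (F : Finset (Sp d)) (n : Sp d → α) (T : Finset α) (hT : ∀ y ∈ F, n y ∈ T)
    (hn : ∀ y ∈ F, ∀ y' ∈ F, n y = n y' → ‖y - y'‖ ≤ 1) :
    ∑ y ∈ F, (N y : ℝ) ≤ T.card * C0 := by
  rw [← Finset.sum_fiberwise_of_maps_to hT]
  have h1 : ∀ k ∈ T, ∑ y ∈ F with n y = k, (N y : ℝ) ≤ C0 := by
    intro k _
    rcases (F.filter fun y => n y = k).eq_empty_or_nonempty with h | ⟨y1, hy1⟩
    · rw [h, Finset.sum_empty]
      exact Nat.cast_nonneg _
    · rw [Finset.mem_filter] at hy1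
      have h2 := hN y1 (F.filter fun y => n y = k) (fun z hz => by
        rw [Finset.mem_filter] at hz
        exact hn z hz.1 y1 hy1.1 (hz.2.trans hy1.2.symm))
      exact_mod_cast h2
  refine (Finset.sum_le_sum h1).trans (le_of_eq ?_)
  rw [Finset.sum_const, nsmul_eq_mul]

theorem Count_card (L : ℝ) {s : ℝ} (hs : 0 < s) (hL : 0 ≤ L) :
    ((Finset.Icc ⌊-(L / s)⌋ ⌊L / s⌋).card : ℝ) ≤ 2 * (L / s) + 2 := by
  rw [Int.card_Icc]
  have h0 : 0 ≤ L / s := by positivity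
  have h1 : ((⌊L / s⌋ : ℤ) : ℝ) ≤ L / s := Int.floor_le _
  have h2 : -(L / s) - 1 < ((⌊-(L / s)⌋ : ℤ) : ℝ) := Int.sub_one_lt_floor _
  have h3 : 0 ≤ ⌊L / s⌋ + 1 - ⌊-(L / s)⌋ := by
    have : ⌊-(L / s)⌋ ≤ ⌊L / s⌋ := Int.floor_le_floor (by linarith)
    omega
  have h4 : (((⌊L / s⌋ + 1 - ⌊-(L / s)⌋).toNat : ℕ) : ℝ) =
      ((⌊L / s⌋ + 1 - ⌊-(L / s)⌋ : ℤ) : ℝ) := by
    have := Int.toNat_of_nonneg h3
    exact_mod_cast this
  rw [h4]
  push_cast
  linarith

theorem box_count {N : Sp d → ℕ} {C0 : ℕ} (hN : LocB N C0) (b : Basis (Fin d) ℝ (Sp d)) :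
    ∃ C : ℝ, 0 < C ∧ ∀ L : Fin d → ℝ, (∀ i, 1 ≤ L i) → ∀ F : Finset (Sp d),
      (∀ y ∈ F, ∀ y' ∈ F, ∀ i, |b.repr (y - y') i| ≤ L i) →
      ∑ y ∈ F, (N y : ℝ) ≤ C * ∏ i, L i := by
  classical
  have hB : 0 < 1 + ∑ i, ‖b i‖ := by positivity
  set s : ℝ := (1 + ∑ i, ‖b i‖)⁻¹ with hs
  have hs0 : 0 < s := inv_pos.2 hB
  have hsB : s * ∑ i, ‖b i‖ ≤ 1 := by
    rw [hs, inv_mul_le_iff₀ hB, mul_one]
    linarith
  have hC : (0 : ℝ) < (2 / s + 2) ^ d * C0 + 1 := by positivity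
  refine ⟨(2 / s + 2) ^ d * C0 + 1, hC, fun L hL F hF => ?_⟩
  have hL0 : ∀ i, 0 ≤ L i := fun i => zero_le_one.trans (hL i)
  rcases F.eq_empty_or_nonempty with rfl | ⟨y0, hy0⟩
  · rw [Finset.sum_empty]
    exact mul_nonneg hC.le (Finset.prod_nonneg fun i _ => hL0 i)
  set n : Sp d → Fin d → ℤ := fun y i => ⌊b.repr (y - y0) i / s⌋ with hn
  have h1 := Count_fib hN F n (Fintype.piFinset fun i => Finset.Icc ⌊-(L i / s)⌋ ⌊L i / s⌋)
    (fun y hy => by
      rw [Fintype.mem_piFinset]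
      intro i
      have h2 := abs_le.1 (hF y hy y0 hy0 i)
      rw [Finset.mem_Icc]
      constructor
      · refine Int.floor_le_floor ?_
        rw [← neg_div]
        exact div_le_div_of_nonneg_right h2.1 hs0.le
      · exact Int.floor_le_floor (div_le_div_of_nonneg_right h2.2 hs0.le))
    (fun y _ y' _ he => by
      have h3 : ∀ i, |b.repr (y - y') i| ≤ s := by
        intro i
        have h4 := Int.abs_sub_lt_one_of_floor_eq_floor (congrFun he i)
        rw [← sub_div, ← Finsupp.sub_apply, ← map_sub, sub_sub_sub_cancel_right, abs_div,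
          abs_of_pos hs0, div_lt_one hs0] at h4
        exact h4.le
      calc ‖y - y'‖ = ‖∑ i, b.repr (y - y') i • b i‖ := by rw [b.sum_repr]
        _ ≤ ∑ i, ‖b.repr (y - y') i • b i‖ := norm_sum_le _ _
        _ ≤ ∑ i, s * ‖b i‖ := by
            refine Finset.sum_le_sum fun i _ => ?_
            rw [norm_smul, Real.norm_eq_abs]
            exact mul_le_mul_of_nonneg_right (h3 i) (norm_nonneg _)
        _ ≤ 1 := by rw [← Finset.mul_sum]; exact hsB)
  refine h1.trans ?_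
  rw [Fintype.card_piFinset]
  push_cast
  have h5 : ∏ i, ((Finset.Icc ⌊-(L i / s)⌋ ⌊L i / s⌋).card : ℝ) ≤ (2 / s + 2) ^ d * ∏ i, L i := by
    have h6 : (2 / s + 2) ^ d * ∏ i, L i = ∏ i, ((2 / s + 2) * L i) := by
      rw [Finset.prod_mul_distrib, Finset.prod_const, Finset.card_univ, Fintype.card_fin]
    rw [h6]
    refine Finset.prod_le_prod (fun i _ => Nat.cast_nonneg _) fun i _ => ?_
    refine (Count_card (L i) hs0 (hL0 i)).trans ?_
    have : (2 / s + 2) * L i = 2 * (L i / s) + 2 * L i := by ring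
    rw [this]
    linarith [hL i]
  have hP : 0 ≤ ∏ i, L i := Finset.prod_nonneg fun i _ => hL0 i
  calc (∏ i, ((Finset.Icc ⌊-(L i / s)⌋ ⌊L i / s⌋).card : ℝ)) * C0
      ≤ ((2 / s + 2) ^ d * ∏ i, L i) * C0 := mul_le_mul_of_nonneg_right h5 (Nat.cast_nonneg _)
    _ ≤ ((2 / s + 2) ^ d * C0 + 1) * ∏ i, L i := by nlinarith

theorem Count_box' {N : Sp d → ℕ} {C0 : ℕ} (hN : LocB N C0) {ι : Type} [Fintype ι]
    (b : Basis ι ℝ (Sp d)) :
    ∃ C : ℝ, 0 < C ∧ ∀ L : ι → ℝ, (∀ i, 1 ≤ L i) → ∀ F : Finset (Sp d),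
      (∀ y ∈ F, ∀ y' ∈ F, ∀ i, |b.repr (y - y') i| ≤ L i) →
      ∑ y ∈ F, (N y : ℝ) ≤ C * ∏ i, L i := by
  have hcard : Fintype.card ι = d := by
    rw [← finrank_eq_card_basis b, finrank_fin_fun]
  let e : ι ≃ Fin d := Fintype.equivFinOfCardEq hcard
  obtain ⟨C, hC, h⟩ := box_count hN (b.reindex e)
  refine ⟨C, hC, fun L hL F hF => ?_⟩
  have h1 := h (fun i => L (e.symm i)) (fun i => hL _) F (fun y hy y' hy' i => by
    rw [Basis.repr_reindex_apply]
    exact hF y hy y' hy' _)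
  rwa [e.symm.prod_comp L] at h1

theorem Count_coord {ι : Type} [Fintype ι] (b : Basis ι ℝ (Sp d)) :
    ∃ c : ℝ, 1 ≤ c ∧ ∀ w i, |b.repr w i| ≤ c * ‖w‖ := by
  have hne : ∀ i, 0 ≤ ‖(b.coord i).toContinuousLinearMap‖ := fun i => norm_nonneg _
  refine ⟨1 + ∑ i, ‖(b.coord i).toContinuousLinearMap‖, ?_, fun w i => ?_⟩
  · have := Finset.sum_nonneg fun i (_ : i ∈ (Finset.univ : Finset ι)) => hne i
    linarith
  · have h1 := (b.coord i).toContinuousLinearMap.le_opNorm w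
    rw [Real.norm_eq_abs] at h1
    refine le_trans h1 (mul_le_mul_of_nonneg_right ?_ (norm_nonneg _))
    have := Finset.single_le_sum (f := fun i => ‖(b.coord i).toContinuousLinearMap‖)
      (fun i _ => hne i) (Finset.mem_univ i)
    linarith

theorem region2 {N : Sp d → ℕ} {C0 : ℕ} (hN : LocB N C0) (U : Submodule ℝ (Sp d)) :
    ∃ C : ℝ, 0 < C ∧ ∀ K K' : ℝ, 1 ≤ K' → K' ≤ K → ∀ F : Finset (Sp d),
      (∀ y ∈ F, ∀ y' ∈ F, ‖y - y'‖ ≤ K ∧ ∃ u ∈ U, ‖y - y' - u‖ ≤ K') →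
      (∑ y ∈ F, (N y : ℝ)) * K' ^ finrank ℝ U ≤ C * K ^ finrank ℝ U * K' ^ d := by
  obtain ⟨W, hW⟩ := Submodule.exists_isCompl U
  let b : Basis (Fin (finrank ℝ U) ⊕ Fin (finrank ℝ W)) ℝ (Sp d) :=
    ((finBasis ℝ U).prod (finBasis ℝ W)).map (U.prodEquivOfIsCompl W hW)
  have hb : ∀ u ∈ U, ∀ j, b.repr u (Sum.inr j) = 0 := by
    intro u hu j
    have h1 : b.repr u = ((finBasis ℝ U).prod (finBasis ℝ W)).repr
        ((U.prodEquivOfIsCompl W hW).symm u) := rfl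
    have h2 : (U.prodEquivOfIsCompl W hW).symm u = (⟨u, hu⟩, 0) := by
      exact Submodule.prodEquivOfIsCompl_symm_apply_left U W hW (⟨u, hu⟩ : U)
    rw [h1, h2]
    simp [Basis.prod_repr_inr]
  obtain ⟨C, hC, h⟩ := Count_box' hN b
  obtain ⟨c, hc1, hc⟩ := Count_coord b
  have hc0 : 0 < c := by linarith
  have hdim : finrank ℝ U + finrank ℝ W = d := by
    rw [Submodule.finrank_add_eq_of_isCompl hW, finrank_fin_fun]
  refine ⟨C * c ^ d, by positivity, fun K K' hK' hKK' F hF => ?_⟩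
  have hK0 : 0 < K' := by linarith
  have h1 := h (Sum.elim (fun _ => c * K) fun _ => c * K')
    (fun i => by
      rcases i with i | i
      · show 1 ≤ c * K
        nlinarith
      · show 1 ≤ c * K'
        nlinarith) F
    (fun y hy y' hy' i => by
      obtain ⟨h2, u, hu, h3⟩ := hF y hy y' hy'
      rcases i with i | i
      · exact (hc _ _).trans (mul_le_mul_of_nonneg_left h2 hc0.le)
      · have h4 : b.repr (y - y') (Sum.inr i) = b.repr (y - y' - u) (Sum.inr i) := by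
          rw [map_sub b.repr (y - y') u, Finsupp.sub_apply, hb u hu, sub_zero]
        rw [h4]
        exact (hc _ _).trans (mul_le_mul_of_nonneg_left h3 hc0.le))
  rw [Fintype.prod_sum_type] at h1
  simp only [Sum.elim_inl, Sum.elim_inr, Finset.prod_const, Finset.card_univ,
    Fintype.card_fin] at h1
  calc (∑ y ∈ F, (N y : ℝ)) * K' ^ finrank ℝ U
      ≤ (C * ((c * K) ^ finrank ℝ U * (c * K') ^ finrank ℝ W)) * K' ^ finrank ℝ U :=
        mul_le_mul_of_nonneg_right h1 (by positivity)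
    _ = C * (c ^ (finrank ℝ U + finrank ℝ W)) * K ^ finrank ℝ U *
        K' ^ (finrank ℝ U + finrank ℝ W) := by
        rw [mul_pow, mul_pow, pow_add, pow_add]
        ring
    _ = C * c ^ d * K ^ finrank ℝ U * K' ^ d := by rw [hdim]

theorem region3 {N : Sp d → ℕ} {C0 : ℕ} (hN : LocB N C0) (U : Submodule ℝ (Sp d))
    (v : Sp d) (hv : v ∉ U) :
    ∃ C : ℝ, 0 < C ∧ ∀ K Q K' : ℝ, 1 ≤ K' → K' ≤ Q → Q ≤ K → ∀ F : Finset (Sp d),
      (∀ y ∈ F, ∀ y' ∈ F, ‖y - y'‖ ≤ K ∧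
        ∃ u ∈ U, ∃ t : ℝ, |t| ≤ Q ∧ ‖y - y' - u - t • v‖ ≤ K') →
      (∑ y ∈ F, (N y : ℝ)) * K' ^ (finrank ℝ U + 1) ≤
        C * K ^ finrank ℝ U * Q * K' ^ d := by
  obtain ⟨C, hC, h⟩ := region2 hN U
  set m := finrank ℝ U with hm
  set a : ℝ := ‖v‖ + 2 with ha
  have ha1 : 1 ≤ a := by
    have := norm_nonneg v
    linarith
  have ha0 : 0 < a := by linarith
  refine ⟨4 * (C * a ^ d), by positivity, fun K Q K' hK' hQ hQK F hF => ?_⟩
  have hK0 : 0 < K' := by linarith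
  have hQ0 : 0 < Q := by linarith
  have hKp : 0 < K := by linarith
  rcases F.eq_empty_or_nonempty with rfl | ⟨y0, hy0⟩
  · rw [Finset.sum_empty, zero_mul]
    positivity
  have h1 : ∀ y : Sp d, ∃ t : ℝ, y ∈ F → |t| ≤ Q ∧ ∃ u ∈ U, ‖y - y0 - u - t • v‖ ≤ K' := by
    intro y
    by_cases hy : y ∈ F
    · obtain ⟨-, u, hu, t, ht, h2⟩ := hF y hy y0 hy0
      exact ⟨t, fun _ => ⟨ht, u, hu, h2⟩⟩
    · exact ⟨0, fun h => absurd h hy⟩
  choose t ht using h1
  set n : Sp d → ℤ := fun y => ⌊t y / K'⌋ with hn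
  set T := Finset.Icc ⌊-(Q / K')⌋ ⌊Q / K'⌋ with hT
  have hmaps : ∀ y ∈ F, n y ∈ T := by
    intro y hy
    have h2 := abs_le.1 (ht y hy).1
    rw [hT, Finset.mem_Icc]
    constructor
    · refine Int.floor_le_floor ?_
      rw [← neg_div]
      exact div_le_div_of_nonneg_right h2.1 hK0.le
    · exact Int.floor_le_floor (div_le_div_of_nonneg_right h2.2 hK0.le)
  have hfib : ∀ k ∈ T, (∑ y ∈ F with n y = k, (N y : ℝ)) * K' ^ m ≤
      C * a ^ d * K ^ m * K' ^ d := by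
    intro k _
    have h3 := h (a * K) (a * K') (by nlinarith) (by nlinarith) (F.filter fun y => n y = k)
      (fun y hy y' hy' => by
        rw [Finset.mem_filter] at hy hy'
        refine ⟨(hF y hy.1 y' hy'.1).1.trans (by nlinarith), ?_⟩
        obtain ⟨-, u, hu, e1⟩ := ht y hy.1
        obtain ⟨-, u', hu', e2⟩ := ht y' hy'.1
        have h4 : |t y - t y'| ≤ K' := by
          have h5 := Int.abs_sub_lt_one_of_floor_eq_floor (hy.2.trans hy'.2.symm)
          rw [← sub_div, abs_div, abs_of_pos hK0, div_lt_one hK0] at h5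
          exact h5.le
        refine ⟨u - u', U.sub_mem hu hu', ?_⟩
        have e3 : y - y' - (u - u') = (y - y0 - u - t y • v) - (y' - y0 - u' - t y' • v) +
            (t y - t y') • v := by
          rw [sub_smul]
          abel
        rw [e3]
        calc ‖(y - y0 - u - t y • v) - (y' - y0 - u' - t y' • v) + (t y - t y') • v‖
            ≤ ‖(y - y0 - u - t y • v) - (y' - y0 - u' - t y' • v)‖ + ‖(t y - t y') • v‖ :=
              norm_add_le _ _
          _ ≤ (K' + K') + K' * ‖v‖ := by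
              refine add_le_add ((norm_sub_le _ _).trans (add_le_add e1 e2)) ?_
              rw [norm_smul, Real.norm_eq_abs]
              exact mul_le_mul_of_nonneg_right h4 (norm_nonneg _)
          _ = a * K' := by rw [ha]; ring)
    rw [mul_pow, mul_pow, mul_pow] at h3
    have h6 : a ^ m * ((∑ y ∈ F with n y = k, (N y : ℝ)) * K' ^ m) ≤
        a ^ m * (C * a ^ d * K ^ m * K' ^ d) := by
      calc a ^ m * ((∑ y ∈ F with n y = k, (N y : ℝ)) * K' ^ m)
          = (∑ y ∈ F with n y = k, (N y : ℝ)) * (a ^ m * K' ^ m) := by ring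
        _ ≤ C * (a ^ m * K ^ m) * (a ^ d * K' ^ d) := h3
        _ = _ := by ring
    exact le_of_mul_le_mul_left h6 (by positivity)
  have hcard : (T.card : ℝ) ≤ 4 * (Q / K') := by
    have h7 := Count_card Q hK0 hQ0.le
    have h8 : 1 ≤ Q / K' := by rwa [le_div_iff₀ hK0, one_mul]
    linarith
  have hsum : (∑ y ∈ F, (N y : ℝ)) * K' ^ m ≤ T.card * (C * a ^ d * K ^ m * K' ^ d) := by
    rw [← Finset.sum_fiberwise_of_maps_to hmaps, Finset.sum_mul]
    refine (Finset.sum_le_sum hfib).trans (le_of_eq ?_)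
    rw [Finset.sum_const, nsmul_eq_mul]
  calc (∑ y ∈ F, (N y : ℝ)) * K' ^ (m + 1)
      = ((∑ y ∈ F, (N y : ℝ)) * K' ^ m) * K' := by rw [pow_succ]; ring
    _ ≤ (T.card * (C * a ^ d * K ^ m * K' ^ d)) * K' := mul_le_mul_of_nonneg_right hsum hK0.le
    _ ≤ (4 * (Q / K') * (C * a ^ d * K ^ m * K' ^ d)) * K' := by
        refine mul_le_mul_of_nonneg_right (mul_le_mul_of_nonneg_right hcard ?_) hK0.le
        positivity
    _ = 4 * (C * a ^ d) * K ^ m * Q * K' ^ d := by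
        field_simp

theorem flat_count {N : Sp d → ℕ} {C0 : ℕ} (hN : LocB N C0) (U : Submodule ℝ (Sp d)) :
    ∃ C : ℝ, 0 < C ∧ ∀ K : ℝ, 1 ≤ K → ∀ F : Finset (Sp d),
      (∀ y ∈ F, ∀ y' ∈ F, ‖y - y'‖ ≤ K ∧ y - y' ∈ U) →
      ∑ y ∈ F, (N y : ℝ) ≤ C * K ^ finrank ℝ U := by
  obtain ⟨C, hC, h⟩ := region2 hN U
  refine ⟨C, hC, fun K hK F hF => ?_⟩
  have h1 := h K 1 le_rfl hK F (fun y hy y' hy' => by
    obtain ⟨h2, h3⟩ := hF y hy y' hy'
    refine ⟨h2, y - y', h3, ?_⟩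
    rw [sub_self, norm_zero]
    exact zero_le_one)
  rwa [one_pow, one_pow, mul_one, mul_one] at h1

end Pool.Agent.MT
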