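import Pool.Agent.H75.MT.Defs
import Pool.Agent.H73.MT.Reach

/-!
# STR module FFin: the families `XX` and `FF` are finite
-/

namespace Pool.Agent.MT

open Module Submodule Pool.Agent.H73.MT

variable {d : ℕ}

/-- The unary operations of the family `XX`. -/
noncomputable def FFin_op (D : Set (Sp d)) (i : Option (𝒫 D) × (𝒫 D))
    (X : Submodule ℝ (Sp d)) : Submodule ℝ (Sp d) :=
  match i.1 with
  | none => X ⊔ span ℝ i.2.1
  | some D3 => X ⊔ (span ℝ D3.1 ⊓ (X ⊔ span ℝ i.2.1))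

theorem FFin_reach {D : Set (Sp d)} {X : Submodule ℝ (Sp d)} (h : XX D X) :
    Reach (FFin_op D) ⊥ X := by
  induction h with
  | bot => exact Reach.base
  | add X D2 h2 hX ih => exact Reach.step (op := FFin_op D) (none, ⟨D2, h2⟩) X ih
  | cap X D2 D3 h2 h3 hX ih =>
    exact Reach.step (op := FFin_op D) (some ⟨D3, h3⟩, ⟨D2, h2⟩) X ih

theorem XX_finite {D : Set (Sp d)} (hD : D.Finite) : {X | XX D X}.Finite := by
  haveI : Finite (𝒫 D) := hD.finite_subsets.to_subtype
  refine (reach_finite (fun X : Submodule ℝ (Sp d) => finrank ℝ X) ?_ d ?_ (FFin_op D) ?_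
    ⊥).subset (fun X hX => FFin_reach hX)
  · intro X X' h
    exact Submodule.finrank_lt_finrank_of_lt h
  · intro X
    have := Submodule.finrank_le X
    simpa using this
  · rintro ⟨i, j⟩ X
    cases i with
    | none => exact le_sup_left
    | some D3 => exact le_sup_left

theorem FF_finite {D : Set (Sp d)} (hD : D.Finite) : (FF D).Finite := by
  refine (((XX_finite hD).prod hD.finite_subsets).image
    (fun q : Submodule ℝ (Sp d) × Set (Sp d) => ((q.1, rq q.1 ⊔ span ℚ q.2) : Mx d))).subset ?_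
  rintro ⟨X, Y⟩ ⟨hX, D2, h2, hY⟩
  exact ⟨(X, D2), ⟨hX, h2⟩, by simp only at hY ⊢; rw [hY]⟩

/-- There is a maximal realizable family. -/
theorem exists_max {N : Sp d → ℕ} {D : Set (Sp d)} (hD : D.Finite) (h0 : Rlz N D ∅) :
    ∃ O ⊆ FF D, Rlz N D O ∧ ∀ p ∈ FF D, Rlz N D (insert p O) → p ∈ O := by
  have hfin : {O : Set (Mx d) | O ⊆ FF D ∧ Rlz N D O}.Finite :=
    (FF_finite hD).finite_subsets.subset (fun O hO => hO.1)
  obtain ⟨O, hO⟩ := hfin.exists_maximal ⟨∅, Set.empty_subset _, h0⟩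
  refine ⟨O, hO.prop.1, hO.prop.2, ?_⟩
  intro p hp hR
  have h1 : insert p O ∈ {O : Set (Mx d) | O ⊆ FF D ∧ Rlz N D O} :=
    ⟨Set.insert_subset hp hO.prop.1, hR⟩
  exact hO.le_of_ge h1 (Set.subset_insert p O) (Set.mem_insert p O)

theorem FF_real {D : Set (Sp d)} {X : Submodule ℝ (Sp d)} (hX : XX D X) : (X, rq X) ∈ FF D :=
  ⟨hX, ∅, Set.empty_subset _, by simp⟩

theorem dif_finite (S : Finset (Sp d)) : (dif S).Finite := by
  classical
  refine ((S ×ˢ S).image (fun q => q.1 - q.2)).finite_toSet.subset ?_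
  rintro v ⟨a, ha, b, hb, rfl⟩
  simp only [Finset.coe_image, Set.mem_image, Finset.mem_coe, Finset.mem_product, Prod.exists]
  exact ⟨a, b, ⟨ha, hb⟩, rfl⟩

end Pool.Agent.MT
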