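import Pool.Agent.H75.MT.Nco
import Pool.Agent.H75.MT.Count
import Pool.Agent.H75.MT.Coord

/-!
# STR module Fsum: the weighted counting function and the relation for mixed groups

`fsum N G x z R = ∑ {N l * tent R z l : l ∈ x + G}`; the support is finite: `tent R z l ≠ 0` implies
`‖l - z‖ < R` and there are finitely many atoms in a ball (`LocB`).  (All uses have `0 < R`.)
-/

namespace Pool.Agent.MT

open Module Submodule

variable {d : ℕ}

theorem Fsum_tent_nonneg (R : ℝ) (z y : Sp d) : 0 ≤ tent R z y := le_max_left _ _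

theorem Fsum_tent_le_one {R : ℝ} (hR : 0 < R) (z y : Sp d) : tent R z y ≤ 1 := by
  unfold tent
  apply max_le zero_le_one
  have : 0 ≤ ‖y - z‖ / R := by positivity
  linarith

theorem Fsum_tent_ne {R : ℝ} (hR : 0 < R) {z y : Sp d} (h : tent R z y ≠ 0) : ‖y - z‖ ≤ R := by
  by_contra hlt
  push Not at hlt
  apply h
  unfold tent
  apply max_eq_left
  have : 1 ≤ ‖y - z‖ / R := by
    rw [le_div_iff₀ hR]
    linarith
  linarith

/-- Atoms in a ball are finite in number. -/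
theorem Fsum_finite {N : Sp d → ℕ} {C0 : ℕ} (hN : LocB N C0) (z : Sp d) (R : ℝ) :
    {l : Sp d | N l ≠ 0 ∧ ‖l - z‖ ≤ R}.Finite := by
  classical
  have hunit : ∀ y : Sp d, {l : Sp d | N l ≠ 0 ∧ ‖l - y‖ ≤ 1}.Finite := by
    intro y
    by_contra hinf
    obtain ⟨t, ht, hcard⟩ := Set.Infinite.exists_subset_card_eq hinf (C0 + 1)
    have h1 := hN y t (fun w hw => (ht hw).2)
    have h2 : t.card ≤ ∑ w ∈ t, N w := by
      rw [Finset.card_eq_sum_ones]
      exact Finset.sum_le_sum (fun w hw => Nat.one_le_iff_ne_zero.2 (ht hw).1)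
    omega
  obtain ⟨t, _, htf, hcov⟩ := (isCompact_closedBall z R).finite_cover_balls (e := 1) one_pos
  refine (htf.biUnion (fun y _ => hunit y)).subset ?_
  rintro l ⟨h1, h2⟩
  have hl : l ∈ Metric.closedBall z R := by
    rw [Metric.mem_closedBall, dist_eq_norm]
    exact h2
  obtain ⟨y, hy, hly⟩ := Set.mem_iUnion₂.1 (hcov hl)
  refine Set.mem_iUnion₂.2 ⟨y, hy, h1, ?_⟩
  rw [Metric.mem_ball, dist_eq_norm] at hly
  exact hly.le

theorem fsum_nonneg {N : Sp d → ℕ} {G : AddSubgroup (Sp d)} (x z : Sp d) (R : ℝ) :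
    0 ≤ fsum N G x z R := by
  unfold fsum
  apply finsum_nonneg
  intro l
  split_ifs
  · exact mul_nonneg (Nat.cast_nonneg _) (Fsum_tent_nonneg R z l)
  · exact le_rfl

theorem fsum_congr {N : Sp d → ℕ} {G : AddSubgroup (Sp d)} {x x' : Sp d} (h : x' - x ∈ G)
    (z : Sp d) (R : ℝ) : fsum N G x z R = fsum N G x' z R := by
  unfold fsum
  apply finsum_congr
  intro l
  have hiff : l - x ∈ G ↔ l - x' ∈ G := by
    constructor
    · intro hl
      have := G.sub_mem hl h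
      rwa [sub_sub_sub_cancel_right] at this
    · intro hl
      have := G.add_mem hl h
      rwa [sub_add_sub_cancel] at this
  by_cases hl : l - x ∈ G
  · rw [if_pos hl, if_pos (hiff.1 hl)]
  · rw [if_neg hl, if_neg (fun h' => hl (hiff.2 h'))]

/-- The counting function as a finite sum. -/
theorem Fsum_eq {N : Sp d → ℕ} {C0 : ℕ} (hN : LocB N C0) (G : AddSubgroup (Sp d))
    (x z : Sp d) {R : ℝ} (hR : 0 < R) : ∃ F : Finset (Sp d),
    (∀ y, y ∈ F ↔ N y ≠ 0 ∧ ‖y - z‖ ≤ R ∧ y - x ∈ G) ∧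
    fsum N G x z R = ∑ y ∈ F, (N y : ℝ) * tent R z y := by
  classical
  have hfin : {l : Sp d | N l ≠ 0 ∧ ‖l - z‖ ≤ R ∧ l - x ∈ G}.Finite :=
    (Fsum_finite hN z R).subset (fun l hl => ⟨hl.1, hl.2.1⟩)
  refine ⟨hfin.toFinset, fun y => by rw [Set.Finite.mem_toFinset, Set.mem_ofPred_eq], ?_⟩
  unfold fsum
  rw [finsum_eq_sum_of_support_subset (s := hfin.toFinset)]
  · apply Finset.sum_congr rfl
    intro l hl
    rw [Set.Finite.mem_toFinset] at hl
    rw [if_pos hl.2.2]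
  · intro l hl
    rw [Function.mem_support] at hl
    rw [Set.Finite.coe_toFinset]
    by_cases hG : l - x ∈ G
    · rw [if_pos hG] at hl
      have h1 : N l ≠ 0 := by
        intro h0
        rw [h0] at hl
        simp at hl
      have h2 : tent R z l ≠ 0 := right_ne_zero_of_mul hl
      exact ⟨h1, Fsum_tent_ne hR h2, hG⟩
    · rw [if_neg hG] at hl
      exact absurd rfl hl

/-- Many atoms in the ball: `fsum` is large. -/
theorem card_le_fsum {N : Sp d → ℕ} {C0 : ℕ} (hN : LocB N C0) {G : AddSubgroup (Sp d)}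
    {x z : Sp d} {K : ℝ} (hK : 1 ≤ K) (F : Finset (Sp d))
    (hF : ∀ y ∈ F, N y ≠ 0 ∧ ‖y - z‖ ≤ K ∧ y - x ∈ G) :
    (F.card : ℝ) / 2 ≤ fsum N G x z (2 * K) := by
  classical
  have hR : (0 : ℝ) < 2 * K := by linarith
  obtain ⟨F', hF', heq⟩ := Fsum_eq hN G x z hR
  rw [heq]
  have hsub : F ⊆ F' := by
    intro y hy
    obtain ⟨h1, h2, h3⟩ := hF y hy
    exact (hF' y).2 ⟨h1, by linarith, h3⟩
  refine le_trans ?_ (Finset.sum_le_sum_of_subset_of_nonneg hsub
    (fun y _ _ => mul_nonneg (Nat.cast_nonneg _) (Fsum_tent_nonneg _ z y)))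
  have h1 : (F.card : ℝ) / 2 = ∑ y ∈ F, (1 / 2 : ℝ) := by
    rw [Finset.sum_const, nsmul_eq_mul]
    ring
  rw [h1]
  apply Finset.sum_le_sum
  intro y hy
  obtain ⟨h1, h2, _⟩ := hF y hy
  have hN1 : (1 : ℝ) ≤ N y := by exact_mod_cast Nat.one_le_iff_ne_zero.2 h1
  have ht : (1 / 2 : ℝ) ≤ tent (2 * K) z y := by
    unfold tent
    refine le_trans ?_ (le_max_right _ _)
    have : ‖y - z‖ / (2 * K) ≤ 1 / 2 := by
      rw [div_le_div_iff₀ hR (by norm_num)]
      linarith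
    linarith
  calc (1 / 2 : ℝ) ≤ tent (2 * K) z y := ht
    _ = 1 * tent (2 * K) z y := (one_mul _).symm
    _ ≤ N y * tent (2 * K) z y := mul_le_mul_of_nonneg_right hN1 (Fsum_tent_nonneg _ z y)

/-- `fsum` large: many atoms in the ball. -/
theorem fsum_le_card {N : Sp d → ℕ} {C0 : ℕ} (hN : LocB N C0) {G : AddSubgroup (Sp d)}
    {x z : Sp d} {R : ℝ} (hR : 1 ≤ R) : ∃ F : Finset (Sp d),
    (∀ y ∈ F, N y ≠ 0 ∧ ‖y - z‖ ≤ R ∧ y - x ∈ G) ∧
    fsum N G x z R ≤ ∑ y ∈ F, (N y : ℝ) := by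
  have hR0 : (0 : ℝ) < R := by linarith
  obtain ⟨F', hF', heq⟩ := Fsum_eq hN G x z hR0
  refine ⟨F', fun y hy => (hF' y).1 hy, ?_⟩
  rw [heq]
  apply Finset.sum_le_sum
  intro y _
  calc (N y : ℝ) * tent R z y ≤ N y * 1 :=
        mul_le_mul_of_nonneg_left (Fsum_tent_le_one hR0 z y) (Nat.cast_nonneg _)
    _ = N y := mul_one _

end Pool.Agent.MT
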