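import Pool.Agent.H75.MT.Fsum

/-!
# STR module H3G: the relation (H3) for mixed groups

`G = grp D p`, `D = dif S`.  Let `s = dim p.1`, `V = p.1`, `φ` from `coord` (`m = dq p`,
  `rk p = s + m`).  `G` is the disjoint union of the cosets `y + V`, `y` in a set `T` of
  representatives, and `fsum N G x z R = ∑_{y ∈ T} fsum N V (x + y) z R` (finitely many nonzero terms:
  the atoms in `x + G` in the ball).  So with `a y = ∑_{v ∈ S} A v * fsum N V (x + y - q v) z R`:
  `∑_{v ∈ S} A v * fsum N G (x - q v) z R = ∑_{y ∈ T} a y`, `R |a y| ≤ C q R^s` by (H3).  If `a y ≠ 0` then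
  for some `v ∈ S` some atom `l ∈ x + y - q v + V` has `‖l - z‖ < R`; then
  `φ (y) = φ (l - x + q v)`, all these lie in a ball of radius `‖φ‖ (R + q max ‖v‖) ≤ C' R`
  around `φ (z - x)`; and `y ↦ φ y ∈ ℤ^m` is injective on `T`
  (`y - y' ∈ G ⊆ rs Y`, `φ (y - y') = 0` implies `y - y' ∈ V`); so there are `≤ C'' R^m` such `y`
  (`R ≥ q ≥ 1`).  Total: `R |∑ a y| ≤ C'' C q R^{s + m}`.
-/

namespace Pool.Agent.MT

open Module Submodule

variable {d : ℕ}

/-- Finitely many atoms in a ball. -/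
theorem H3G_fin {N : Sp d → ℕ} {C0 : ℕ} (hN : LocB N C0) (z : Sp d) (R : ℝ) :
    {l | N l ≠ 0 ∧ ‖l - z‖ ≤ R}.Finite := by
  classical
  obtain ⟨C, hC, h⟩ := flat_count hN ⊤
  by_contra hinf
  have hinf : {l | N l ≠ 0 ∧ ‖l - z‖ ≤ R}.Infinite := hinf
  set K : ℝ := max 1 (2 * R) with hK
  obtain ⟨F, hF, hcard⟩ := hinf.exists_subset_card_eq
    (⌊C * K ^ finrank ℝ (⊤ : Submodule ℝ (Sp d))⌋₊ + 1)
  have h1 := h K (le_max_left _ _) F (fun y hy y' hy' => ⟨by
    have h2 := (hF hy).2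
    have h3 := (hF hy').2
    have h4 : y - y' = (y - z) - (y' - z) := by abel
    rw [h4]
    refine (norm_sub_le _ _).trans (le_trans ?_ (le_max_right _ _))
    linarith, trivial⟩)
  have h2 : (F.card : ℝ) ≤ ∑ y ∈ F, (N y : ℝ) := by
    rw [Finset.card_eq_sum_ones]
    push_cast
    refine Finset.sum_le_sum fun y hy => ?_
    have : 1 ≤ N y := Nat.one_le_iff_ne_zero.mpr (hF hy).1
    exact_mod_cast this
  have h3 := Nat.lt_floor_add_one (C * K ^ finrank ℝ (⊤ : Submodule ℝ (Sp d)))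
  rw [hcard] at h2
  push_cast at h2
  linarith

open Classical in
/-- The counting function as a finite sum. -/
theorem H3G_fsum {N : Sp d → ℕ} {G : AddSubgroup (Sp d)} {x z : Sp d} {R : ℝ} (hR : 0 < R)
    (F0 : Finset (Sp d)) (hF0 : ∀ l, l ∈ F0 ↔ N l ≠ 0 ∧ ‖l - z‖ ≤ R) :
    fsum N G x z R = ∑ l ∈ F0, if l - x ∈ G then (N l : ℝ) * tent R z l else 0 := by
  unfold fsum
  refine finsum_eq_sum_of_support_subset _ ?_
  intro l hl
  rw [Function.mem_support] at hl
  have h1 : (N l : ℝ) * tent R z l ≠ 0 := by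
    intro h
    rw [h] at hl
    simp at hl
  rw [Finset.mem_coe, hF0]
  refine ⟨fun h => h1 (by rw [h]; simp), ?_⟩
  by_contra hcon
  push Not at hcon
  apply h1
  have h2 : tent R z l = 0 := by
    unfold tent
    rw [max_eq_left]
    have : 1 ≤ ‖l - z‖ / R := by
      rw [le_div_iff₀ hR]; linarith
    linarith
  rw [h2, mul_zero]

/-- Integer points in a box. -/
theorem H3G_count {m : ℕ} (P : Finset (Fin m → ℝ)) (a : Fin m → ℝ) (r : ℝ) (hr : 0 ≤ r)
    (hint : ∀ n ∈ P, ∀ i, ∃ k : ℤ, n i = k) (hb : ∀ n ∈ P, ∀ i, |n i - a i| ≤ r) :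
    (P.card : ℝ) ≤ (2 * r + 1) ^ m := by
  classical
  have h1 : P.card ≤ (Fintype.piFinset fun i => Finset.Icc ⌈a i - r⌉ ⌊a i + r⌋).card := by
    refine Finset.card_le_card_of_injOn (fun n i => ⌊n i⌋) ?_ ?_
    · intro n hn
      simp only [Finset.mem_coe, Fintype.mem_piFinset, Finset.mem_Icc]
      intro i
      obtain ⟨k, hk⟩ := hint n hn i
      have h2 := abs_le.mp (hb n hn i)
      rw [hk, Int.floor_intCast]
      constructor
      · rw [Int.ceil_le, ← hk]; linarith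
      · rw [Int.le_floor, ← hk]; linarith
    · intro n hn n' hn' h
      funext i
      obtain ⟨k, hk⟩ := hint n hn i
      obtain ⟨k', hk'⟩ := hint n' hn' i
      have h2 := congrFun h i
      simp only [hk, hk', Int.floor_intCast] at h2
      rw [hk, hk', h2]
  have h2 : ((Fintype.piFinset fun i => Finset.Icc ⌈a i - r⌉ ⌊a i + r⌋).card : ℝ)
      ≤ (2 * r + 1) ^ m := by
    rw [Fintype.card_piFinset]
    push_cast
    refine (Finset.prod_le_prod (fun i _ => Nat.cast_nonneg _)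
      (g := fun _ => 2 * r + 1) fun i _ => ?_).trans ?_
    · rw [Int.card_Icc]
      rcases le_or_gt (⌊a i + r⌋ + 1 - ⌈a i - r⌉) 0 with h3 | h3
      · rw [Int.toNat_of_nonpos h3]
        push_cast; linarith
      · have h4 : ((⌊a i + r⌋ + 1 - ⌈a i - r⌉).toNat : ℝ)
            = ((⌊a i + r⌋ + 1 - ⌈a i - r⌉ : ℤ) : ℝ) := by
          have := Int.toNat_of_nonneg h3.le
          exact_mod_cast this
        rw [h4]
        push_cast
        have h5 := Int.floor_le (a i + r)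
        have h6 := Int.le_ceil (a i - r)
        linarith
    · rw [Finset.prod_const, Finset.card_univ, Fintype.card_fin]
  exact le_trans (by exact_mod_cast h1) h2

/-- A linear map to coordinates is bounded. -/
theorem H3G_bound {m : ℕ} (φ : Sp d →ₗ[ℝ] (Fin m → ℝ)) :
    ∃ C : ℝ, 0 < C ∧ ∀ x i, |φ x i| ≤ C * ‖x‖ := by
  refine ⟨‖LinearMap.toContinuousLinearMap φ‖ + 1, by positivity, fun x i => ?_⟩
  have h := (LinearMap.toContinuousLinearMap φ).le_opNorm x
  rw [LinearMap.coe_toContinuousLinearMap'] at h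
  have h2 := norm_le_pi_norm (φ x) i
  rw [Real.norm_eq_abs] at h2
  nlinarith [norm_nonneg x]

theorem H3G {N : Sp d → ℕ} {C0 : ℕ} (hN : LocB N C0) {S : Finset (Sp d)} {p : Mx d}
    (hp : p ∈ FF (dif S)) (hrk : rk p = finrank ℝ (rs p.2)) {A : Sp d → ℝ}
    (hA : H3 S N p.1 A) :
    ∃ C : ℝ, ∀ q : ℕ, 1 ≤ q → Nat.Coprime q (Nat.factorial (2 ^ d)) →
      ∀ (x z : Sp d) (R : ℝ), (q : ℝ) ≤ R →
        R * |∑ v ∈ S, A v * fsum N (grp (dif S) p) (x - (q : ℝ) • v) z R| ≤
          C * q * R ^ rk p := by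
  classical
  have hD : (dif S).Finite := by
    have h1 : dif S = (fun t : Sp d × Sp d => t.1 - t.2) '' ((S : Set (Sp d)) ×ˢ (S : Set (Sp d))) := by
      ext v
      simp only [dif, Set.mem_ofPred_eq, Set.mem_image, Set.mem_prod, Finset.mem_coe, Prod.exists]
      constructor
      · rintro ⟨a, ha, b, hb, rfl⟩
        exact ⟨a, b, ⟨ha, hb⟩, rfl⟩
      · rintro ⟨a, b, ⟨ha, hb⟩, rfl⟩
        exact ⟨a, ha, b, hb, rfl⟩
    rw [h1]
    exact (S.finite_toSet.prod S.finite_toSet).image _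
  obtain ⟨φ, hφ1, hφ2, hφ3⟩ := coord hD hp hrk
  obtain ⟨C, hC⟩ := hA
  obtain ⟨Cf, hCf0, hCf⟩ := H3G_bound φ
  set M : ℝ := ∑ v ∈ S, ‖v‖ with hM
  have hM0 : 0 ≤ M := Finset.sum_nonneg fun v _ => norm_nonneg v
  have hMv : ∀ v ∈ S, ‖v‖ ≤ M := fun v hv =>
    Finset.single_le_sum (f := fun v => ‖v‖) (fun v _ => norm_nonneg v) hv
  set C1 : ℝ := 2 * (Cf * (1 + M)) + 1 with hC1
  have hC10 : 0 < C1 := by positivity
  refine ⟨C1 ^ dq p * |C|, ?_⟩
  intro q hq1 hq2 x z R hqR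
  have hq1' : (1 : ℝ) ≤ q := by exact_mod_cast hq1
  have hR1 : 1 ≤ R := hq1'.trans hqR
  have hR0 : 0 < R := by linarith
  set F0 : Finset (Sp d) := (H3G_fin hN z R).toFinset with hF0d
  have hF0 : ∀ l, l ∈ F0 ↔ N l ≠ 0 ∧ ‖l - z‖ ≤ R := fun l => by
    rw [hF0d, Set.Finite.mem_toFinset]; rfl
  set w : Sp d → ℝ := fun l => (N l : ℝ) * tent R z l with hw
  have hVG : p.1.toAddSubgroup ≤ grp (dif S) p := le_sup_left
  -- the pairs
  have hpair : ∀ (H : AddSubgroup (Sp d)) (y : Sp d),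
      ∑ v ∈ S, A v * fsum N H (x + y - (q : ℝ) • v) z R
        = ∑ t ∈ (S ×ˢ F0).filter (fun t => t.2 - (x - (q : ℝ) • t.1) - y ∈ H), A t.1 * w t.2 := by
    intro H y
    rw [Finset.sum_filter, Finset.sum_product]
    refine Finset.sum_congr rfl fun v _ => ?_
    rw [H3G_fsum hR0 F0 hF0, Finset.mul_sum]
    refine Finset.sum_congr rfl fun l _ => ?_
    have h1 : l - (x + y - (q : ℝ) • v) = l - (x - (q : ℝ) • v) - y := by abel
    simp only [h1, hw]
    split_ifs
    · rfl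
    · rw [mul_zero]
  set G := grp (dif S) p with hG
  set P := (S ×ˢ F0).filter (fun t => t.2 - (x - (q : ℝ) • t.1) ∈ G) with hP
  have hsum : ∑ v ∈ S, A v * fsum N G (x - (q : ℝ) • v) z R = ∑ t ∈ P, A t.1 * w t.2 := by
    have h1 := hpair G 0
    simp only [add_zero, sub_zero] at h1
    rw [h1]
  set g : Sp d × Sp d → Fin (dq p) → ℝ := fun t => φ (t.2 - (x - (q : ℝ) • t.1)) with hg
  set Q := P.image g with hQ
  have hfib : ∑ t ∈ P, A t.1 * w t.2 = ∑ n ∈ Q, ∑ t ∈ P with g t = n, A t.1 * w t.2 :=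
    (Finset.sum_fiberwise_of_maps_to (fun t ht => Finset.mem_image_of_mem g ht) _).symm
  -- one fibre
  have hone : ∀ n ∈ Q, R * |∑ t ∈ P with g t = n, A t.1 * w t.2| ≤
      |C| * q * R ^ finrank ℝ p.1 := by
    intro n hn
    obtain ⟨t0, ht0, rfl⟩ := Finset.mem_image.mp hn
    have hg0 : t0.2 - (x - (q : ℝ) • t0.1) ∈ G := (Finset.mem_filter.mp ht0).2
    set g0 := t0.2 - (x - (q : ℝ) • t0.1) with hg0d
    have h1 : (P.filter fun t => g t = g t0)
        = (S ×ˢ F0).filter (fun t => t.2 - (x - (q : ℝ) • t.1) - g0 ∈ p.1.toAddSubgroup) := by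
      rw [hP, Finset.filter_filter]
      refine Finset.filter_congr fun t _ => ?_
      constructor
      · rintro ⟨h2, h3⟩
        have h4 : t.2 - (x - (q : ℝ) • t.1) - g0 ∈ G := G.sub_mem h2 hg0
        have h5 : φ (t.2 - (x - (q : ℝ) • t.1) - g0) = 0 := by
          rw [map_sub, sub_eq_zero]
          exact h3
        have h6 : t.2 - (x - (q : ℝ) • t.1) - g0 ∈ rs p.2 :=
          subset_span (grp_le (FF_le hp) h4)
        exact hφ3 _ h6 h5
      · intro h2
        have h3 : t.2 - (x - (q : ℝ) • t.1) = (t.2 - (x - (q : ℝ) • t.1) - g0) + g0 := by abel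
        refine ⟨?_, ?_⟩
        · rw [h3]
          exact G.add_mem (hVG h2) hg0
        · have h4 := hφ2 _ h2
          rw [map_sub, sub_eq_zero] at h4
          exact h4
    rw [h1, ← hpair]
    refine (hC q hq1 hq2 (x + g0) z R hqR).trans ?_
    refine mul_le_mul_of_nonneg_right ?_ (by positivity)
    exact mul_le_mul_of_nonneg_right (le_abs_self C) (by positivity)
  -- the number of fibres
  have hcard : (Q.card : ℝ) ≤ (C1 * R) ^ dq p := by
    have h1 := H3G_count Q (φ (z - x)) (Cf * (1 + M) * R) (by positivity) ?_ ?_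
    · refine h1.trans ?_
      refine pow_le_pow_left₀ (by positivity) ?_ _
      rw [hC1]
      nlinarith
    · intro n hn i
      obtain ⟨t, ht, rfl⟩ := Finset.mem_image.mp hn
      exact hφ1 _ (Finset.mem_filter.mp ht).2 i
    · intro n hn i
      obtain ⟨t, ht, rfl⟩ := Finset.mem_image.mp hn
      have ht' := (Finset.mem_filter.mp ht).1
      rw [Finset.mem_product] at ht'
      have h2 : g t i - φ (z - x) i = φ (t.2 - z + (q : ℝ) • t.1) i := by
        have h3 : t.2 - z + (q : ℝ) • t.1 = (t.2 - (x - (q : ℝ) • t.1)) - (z - x) := by abel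
        rw [h3, map_sub φ (t.2 - (x - (q : ℝ) • t.1)) (z - x), Pi.sub_apply]
      rw [h2]
      refine (hCf _ i).trans ?_
      have h3 : ‖t.2 - z + (q : ℝ) • t.1‖ ≤ R + R * M := by
        refine (norm_add_le _ _).trans (add_le_add ((hF0 _).mp ht'.2).2 ?_)
        rw [norm_smul, Real.norm_eq_abs, abs_of_nonneg (by positivity : (0 : ℝ) ≤ q)]
        exact mul_le_mul hqR (hMv _ ht'.1) (norm_nonneg _) hR0.le
      calc Cf * ‖t.2 - z + (q : ℝ) • t.1‖ ≤ Cf * (R + R * M) :=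
            mul_le_mul_of_nonneg_left h3 hCf0.le
        _ = Cf * (1 + M) * R := by ring
  rw [hsum, hfib]
  calc R * |∑ n ∈ Q, ∑ t ∈ P with g t = n, A t.1 * w t.2|
      ≤ R * ∑ n ∈ Q, |∑ t ∈ P with g t = n, A t.1 * w t.2| :=
        mul_le_mul_of_nonneg_left (Finset.abs_sum_le_sum_abs _ _) hR0.le
    _ = ∑ n ∈ Q, R * |∑ t ∈ P with g t = n, A t.1 * w t.2| := by rw [Finset.mul_sum]
    _ ≤ ∑ _n ∈ Q, |C| * q * R ^ finrank ℝ p.1 := Finset.sum_le_sum hone
    _ = Q.card * (|C| * q * R ^ finrank ℝ p.1) := by rw [Finset.sum_const, nsmul_eq_mul]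
    _ ≤ (C1 * R) ^ dq p * (|C| * q * R ^ finrank ℝ p.1) :=
        mul_le_mul_of_nonneg_right hcard (by positivity)
    _ = C1 ^ dq p * |C| * q * R ^ rk p := by
        unfold rk
        rw [mul_pow, pow_add]
        ring

end Pool.Agent.MT
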