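import Pool.Agent.H75.MT.P1

/-!
# STR module Label: labels (4.7)

* `select`: for every value of `f` choose a value of `g` which is most popular on this fibre of `f`
  (`≤ M` values, so it covers `≥ 1/M` of the fibre); `A'` = the points of `A` with the chosen value.
* `label`: `G = grp D p`, `U = rs p.2`, `r = rk p = dim U`.  By `poor_le` with `t = b K^r`
  (`b` small) `A1 = {x ∈ A : |cls G A x| ≥ b K^r}` has `|A1| ≥ (ε/2) K^d`.  In one `U`-coset `A` has
  `≤ C1 K^r` points (`flat_count`), so this coset contains `≤ M = C1 / b` cosets of `G` met by `A1`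
  (`G ≤ U`, `grp_le`).  Apply `select` to `A1` with `f, g` the classes modulo `U`, `G`: `A' ⊆ A1`,
  `|A'| ≥ |A1| / M`.  The other properties of a window are inherited by subsets (`nco_mono`).
* `label_all`: induction on the finite set `T ⊆ O`.
-/

namespace Pool.Agent.MT

open Module Submodule

variable {d : ℕ}

theorem select {α β γ : Type*} (A : Finset α) (f : α → β) (g : α → γ) (M : ℕ)
    (h : open Classical in ∀ x ∈ A, ((A.filter (fun y => f y = f x)).image g).card ≤ M) :
    ∃ A' ⊆ A, A.card ≤ M * A'.card ∧ ∀ x ∈ A', ∀ x' ∈ A', f x = f x' → g x = g x' := by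
  classical
  rcases A.eq_empty_or_nonempty with hA | ⟨x₀, hx₀⟩
  · subst hA
    exact ⟨∅, Finset.Subset.refl _, by simp, by simp⟩
  have key : ∀ b : β, ∃ c : γ, (A.filter (fun y => f y = b)).card ≤
      M * (A.filter (fun y => f y = b ∧ g y = c)).card := by
    intro b
    rcases (A.filter (fun y => f y = b)).eq_empty_or_nonempty with hb | ⟨x, hx⟩
    · exact ⟨g x₀, by rw [hb]; simp⟩
    · obtain ⟨hxA, hxb⟩ := Finset.mem_filter.1 hx
      have hne : ((A.filter (fun y => f y = b)).image g).Nonempty :=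
        ⟨g x, Finset.mem_image_of_mem g hx⟩
      obtain ⟨c, -, hc⟩ := Finset.exists_max_image ((A.filter (fun y => f y = b)).image g)
        (fun c => ((A.filter (fun y => f y = b)).filter (fun y => g y = c)).card) hne
      refine ⟨c, ?_⟩
      have h1 := Finset.card_eq_sum_card_image g (A.filter (fun y => f y = b))
      have h2 : (A.filter (fun y => f y = b)).card ≤
          ((A.filter (fun y => f y = b)).image g).card *
            ((A.filter (fun y => f y = b)).filter (fun y => g y = c)).card := by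
        rw [h1, ← smul_eq_mul]
        exact Finset.sum_le_card_nsmul _ _ _ hc
      have h3 : ((A.filter (fun y => f y = b)).image g).card ≤ M := by
        have := h x hxA
        rw [hxb] at this
        exact this
      rw [Finset.filter_filter] at h2
      exact h2.trans (Nat.mul_le_mul_right _ h3)
  choose c hc using key
  refine ⟨A.filter (fun y => g y = c (f y)), Finset.filter_subset _ _, ?_, ?_⟩
  · have h1 := Finset.card_eq_sum_card_image f A
    have h2 : (A.filter (fun y => g y = c (f y))).card =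
        ∑ b ∈ A.image f, ((A.filter (fun y => g y = c (f y))).filter (fun y => f y = b)).card :=
      Finset.card_eq_sum_card_fiberwise (fun y hy =>
        Finset.mem_image_of_mem f (Finset.mem_filter.1 hy).1)
    rw [h1, h2, Finset.mul_sum]
    refine Finset.sum_le_sum fun b _ => (hc b).trans (le_of_eq ?_)
    congr 2
    rw [Finset.filter_filter]
    refine Finset.filter_congr fun y _ => ?_
    constructor
    · rintro ⟨h3, h4⟩
      exact ⟨by rw [h4, h3], h3⟩
    · rintro ⟨h3, h4⟩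
      exact ⟨h4, by rw [h3, h4]⟩
  · intro x hx x' hx' hf
    rw [(Finset.mem_filter.1 hx).2, (Finset.mem_filter.1 hx').2, hf]

theorem label {N : Sp d → ℕ} {C0 : ℕ} (hN : LocB N C0) {D : Set (Sp d)} {O : Set (Mx d)}
    {p : Mx d} (hp : p ∈ O) (h : rq p.1 ≤ p.2) (hrk : rk p = finrank ℝ (rs p.2)) {ε C : ℝ}
    (hε : 0 < ε) :
    ∃ ε' : ℝ, 0 < ε' ∧ ∀ K : ℝ, 1 ≤ K → ∀ z A, Win N D O ε C K z A → ∃ A' ⊆ A,
      Win N D O ε' C K z A' ∧ ∀ x ∈ A', ∀ x' ∈ A', x' - x ∈ rs p.2 → x' - x ∈ grp D p := by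
  classical
  obtain ⟨C1, hC1, hflat⟩ := flat_count hN (rs p.2)
  set G := grp D p with hG
  set U := rs p.2 with hU
  have hGU : ∀ g ∈ G, g ∈ U := fun g hg => Submodule.subset_span (grp_le h hg)
  obtain ⟨C', hC'⟩ : ∃ C', C' = max C 1 := ⟨_, rfl⟩
  have hC'0 : 0 < C' := by rw [hC']; exact lt_of_lt_of_le one_pos (le_max_right _ _)
  have hCC' : C ≤ C' := by rw [hC']; exact le_max_left _ _
  obtain ⟨b, hb⟩ : ∃ b, b = ε / (2 * C') := ⟨_, rfl⟩
  have hb0 : 0 < b := by rw [hb]; positivity
  obtain ⟨M, hM⟩ : ∃ M : ℕ, M = ⌈C1 * 2 ^ finrank ℝ U / b⌉₊ := ⟨_, rfl⟩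
  have hM0 : 0 < M := by
    rw [hM, Nat.ceil_pos]; positivity
  have hM0' : (0 : ℝ) < M := by exact_mod_cast hM0
  have hMle : C1 * 2 ^ finrank ℝ U / b ≤ M := by rw [hM]; exact Nat.le_ceil _
  refine ⟨ε / (2 * M), by positivity, ?_⟩
  intro K hK z A hA
  have hK0 : 0 < K := by linarith
  have hKr : 0 < K ^ rk p := by positivity
  -- the rich points
  obtain ⟨A1, hA1⟩ : ∃ A1, A1 = A.filter (fun x => ¬ ((cls G A x).card : ℝ) < b * K ^ rk p) :=
    ⟨_, rfl⟩
  have hA1A : A1 ⊆ A := by rw [hA1]; exact Finset.filter_subset _ _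
  have hA1rich : ∀ x ∈ A1, b * K ^ rk p ≤ ((cls G A x).card : ℝ) := by
    intro x hx
    rw [hA1] at hx
    exact not_lt.1 (Finset.mem_filter.1 hx).2
  have hA1card : ε / 2 * K ^ d ≤ A1.card := by
    have h1 := poor_le (G := G) (A := A) (b * K ^ rk p) (by positivity)
    have h2 : (A.card : ℝ) = (A.filter (fun x => ((cls G A x).card : ℝ) < b * K ^ rk p)).card
        + A1.card := by
      rw [hA1, ← Nat.cast_add, Finset.card_filter_add_card_filter_not]
    have h3 : (nco G A : ℝ) * (b * K ^ rk p) ≤ ε / 2 * K ^ d := by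
      calc (nco G A : ℝ) * (b * K ^ rk p) = b * (nco G A * K ^ rk p) := by ring
        _ ≤ b * (C' * K ^ d) := by
            refine mul_le_mul_of_nonneg_left ?_ hb0.le
            exact (hA.cos p hp).trans (mul_le_mul_of_nonneg_right hCC' (by positivity))
        _ = ε / 2 * K ^ d := by rw [hb]; field_simp
    have h4 := hA.card
    linarith
  -- classes modulo U
  have hUcount : ∀ x : Sp d, ((A.filter (fun y => y - x ∈ U)).card : ℝ) ≤
      C1 * 2 ^ finrank ℝ U * K ^ finrank ℝ U := by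
    intro x
    have h1 := hflat (2 * K) (by linarith) (A.filter (fun y => y - x ∈ U)) (by
      intro y hy y' hy'
      rw [Finset.mem_filter] at hy hy'
      constructor
      · have h2 := hA.ball y hy.1
        have h3 := hA.ball y' hy'.1
        have h4 : y - y' = (y - z) - (y' - z) := by abel
        rw [h4]
        exact (norm_sub_le _ _).trans (by linarith)
      · have h4 : y - y' = (y - x) - (y' - x) := by abel
        rw [h4]
        exact U.sub_mem hy.2 hy'.2)
    have h2 : ((A.filter (fun y => y - x ∈ U)).card : ℝ) ≤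
        ∑ y ∈ A.filter (fun y => y - x ∈ U), (N y : ℝ) := by
      rw [Finset.card_eq_sum_ones, Nat.cast_sum]
      refine Finset.sum_le_sum fun y hy => ?_
      have h3 := hA.supp y (Finset.mem_filter.1 hy).1
      exact_mod_cast Nat.one_le_iff_ne_zero.2 h3
    refine h2.trans (h1.trans (le_of_eq ?_))
    rw [mul_pow]; ring
  have hnco : ∀ x ∈ A1, nco G (A1.filter (fun y => y - x ∈ U)) ≤ M := by
    intro x hx
    have hsub : A1.filter (fun y => y - x ∈ U) ⊆ A.filter (fun y => y - x ∈ U) :=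
      Finset.filter_subset_filter _ hA1A
    have h1 := nco_mul_le (G := G) hsub (b * K ^ rk p) (by
      intro y hy
      rw [Finset.mem_filter] at hy
      refine (hA1rich y hy.1).trans ?_
      refine Nat.cast_le.2 (Finset.card_le_card ?_)
      intro y' hy'
      rw [mem_cls] at hy' ⊢
      refine ⟨Finset.mem_filter.2 ⟨hy'.1, ?_⟩, hy'.2⟩
      have : y' - x = (y' - y) + (y - x) := by abel
      rw [this]
      exact U.add_mem (hGU _ hy'.2) hy.2)
    have h2 := h1.trans (hUcount x)
    rw [hrk] at h2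
    have h3 : (nco G (A1.filter (fun y => y - x ∈ U)) : ℝ) ≤ C1 * 2 ^ finrank ℝ U / b := by
      rw [le_div_iff₀ hb0]
      have h4 : 0 < K ^ finrank ℝ U := by positivity
      have h5 : (nco G (A1.filter (fun y => y - x ∈ U)) : ℝ) * b * K ^ finrank ℝ U ≤
          C1 * 2 ^ finrank ℝ U * K ^ finrank ℝ U := by
        rw [mul_assoc]; exact h2
      exact le_of_mul_le_mul_right h5 h4
    exact_mod_cast h3.trans hMle
  -- select
  obtain ⟨A', hA'A1, hA'card, hA'lab⟩ := select A1
    (fun x => (QuotientAddGroup.mk x : Sp d ⧸ U.toAddSubgroup))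
    (fun x => (QuotientAddGroup.mk x : Sp d ⧸ G)) M (by
      intro x hx
      have h1 := hnco x hx
      unfold nco at h1
      refine le_trans (Finset.card_le_card ?_) h1
      intro c hc
      simp only [Finset.mem_image, Finset.mem_filter] at hc ⊢
      obtain ⟨y, hy, rfl⟩ := hc
      refine ⟨y, ⟨hy.1, ?_⟩, rfl⟩
      have h2 := mk_eq.1 hy.2.symm
      exact h2)
  refine ⟨A', hA'A1.trans hA1A, ⟨?_, ?_, ?_, ?_⟩, ?_⟩
  · exact fun x hx => hA.supp x (hA1A (hA'A1 hx))
  · exact fun x hx => hA.ball x (hA1A (hA'A1 hx))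
  · have h1 : (A1.card : ℝ) ≤ M * A'.card := by exact_mod_cast hA'card
    have h2 : ε / 2 * K ^ d ≤ M * A'.card := hA1card.trans h1
    have h3 : ε / (2 * M) * K ^ d = (ε / 2 * K ^ d) / M := by field_simp
    rw [h3, div_le_iff₀ hM0', mul_comm (A'.card : ℝ)]
    exact h2
  · intro q hq
    refine le_trans ?_ (hA.cos q hq)
    exact mul_le_mul_of_nonneg_right (Nat.cast_le.2 (nco_mono (hA'A1.trans hA1A))) (by positivity)
  · intro x hx x' hx' hxx
    have h1 : (QuotientAddGroup.mk x : Sp d ⧸ U.toAddSubgroup) = QuotientAddGroup.mk x' := by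
      rw [mk_eq]; exact hxx
    have h2 := hA'lab x hx x' hx' h1
    rw [mk_eq] at h2
    exact h2

theorem label_all {N : Sp d → ℕ} {C0 : ℕ} (hN : LocB N C0) {D : Set (Sp d)} {O : Set (Mx d)}
    {T : Set (Mx d)} (hT : T.Finite) (hTO : T ⊆ O) (h : ∀ p ∈ T, rq p.1 ≤ p.2)
    (hrk : ∀ p ∈ T, rk p = finrank ℝ (rs p.2)) {ε C : ℝ} (hε : 0 < ε) :
    ∃ ε' : ℝ, 0 < ε' ∧ ∀ K : ℝ, 1 ≤ K → ∀ z A, Win N D O ε C K z A → ∃ A' ⊆ A,
      Win N D O ε' C K z A' ∧
      ∀ p ∈ T, ∀ x ∈ A', ∀ x' ∈ A', x' - x ∈ rs p.2 → x' - x ∈ grp D p := by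
  induction T, hT using Set.Finite.induction_on with
  | empty =>
    refine ⟨ε, hε, fun K _ z A hA => ⟨A, Finset.Subset.refl _, hA, ?_⟩⟩
    intro p hp
    exact absurd hp (Set.notMem_empty p)
  | @insert p T _ _ ih =>
    obtain ⟨ε1, hε1, H1⟩ := ih (fun q hq => hTO (Set.mem_insert_of_mem _ hq))
      (fun q hq => h q (Set.mem_insert_of_mem _ hq))
      (fun q hq => hrk q (Set.mem_insert_of_mem _ hq))
    obtain ⟨ε2, hε2, H2⟩ := label hN (D := D) (O := O) (hTO (Set.mem_insert p T))
      (h p (Set.mem_insert p T)) (hrk p (Set.mem_insert p T)) (ε := ε1) (C := C) hε1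
    refine ⟨ε2, hε2, fun K hK z A hA => ?_⟩
    obtain ⟨A1, hA1, hW1, hL1⟩ := H1 K hK z A hA
    obtain ⟨A2, hA2, hW2, hL2⟩ := H2 K hK z A1 hW1
    refine ⟨A2, hA2.trans hA1, hW2, ?_⟩
    intro q hq x hx x' hx' hxx
    rcases Set.mem_insert_iff.1 hq with rfl | hq
    · exact hL2 x hx x' hx' hxx
    · exact hL1 q hq x (hA2 hx) x' (hA2 hx') hxx


end Pool.Agent.MT
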