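import Pool.Agent.H75.MT.Defs

/-!
# STR module Nco: number of cosets met by a finite set
-/

namespace Pool.Agent.MT

variable {d : ℕ}

open Classical in
/-- The points of `A` in the coset of `x` modulo `G`. -/
noncomputable def cls (G : AddSubgroup (Sp d)) (A : Finset (Sp d)) (x : Sp d) :
    Finset (Sp d) := A.filter (fun y => y - x ∈ G)

theorem mem_cls {G : AddSubgroup (Sp d)} {A : Finset (Sp d)} {x y : Sp d} :
    y ∈ cls G A x ↔ y ∈ A ∧ y - x ∈ G := by
  classical
  simp [cls]

theorem mk_eq {G : AddSubgroup (Sp d)} {x y : Sp d} :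
    (QuotientAddGroup.mk x : Sp d ⧸ G) = QuotientAddGroup.mk y ↔ y - x ∈ G := by
  rw [QuotientAddGroup.eq, neg_add_eq_sub]

theorem nco_mono {G : AddSubgroup (Sp d)} {A A' : Finset (Sp d)} (h : A' ⊆ A) :
    nco G A' ≤ nco G A := by
  classical
  exact Finset.card_le_card (Finset.image_subset_image h)

theorem nco_le_card {G : AddSubgroup (Sp d)} {A : Finset (Sp d)} : nco G A ≤ A.card := by
  classical
  exact Finset.card_image_le

theorem nco_anti {G G' : AddSubgroup (Sp d)} (h : G ≤ G') (A : Finset (Sp d)) :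
    nco G' A ≤ nco G A := by
  classical
  have : A.image (fun x => (QuotientAddGroup.mk x : Sp d ⧸ G')) =
      (A.image (fun x => (QuotientAddGroup.mk x : Sp d ⧸ G))).image
        (QuotientAddGroup.map G G' (AddMonoidHom.id _) h) := by
    rw [Finset.image_image]; rfl
  unfold nco
  rw [this]
  exact Finset.card_image_le

/-- Many points of `A` in every coset met by `A'`: few cosets. -/
theorem nco_mul_le {G : AddSubgroup (Sp d)} {A A' : Finset (Sp d)} (h : A' ⊆ A) (t : ℝ)
    (ht : ∀ x ∈ A', t ≤ (cls G A x).card) : (nco G A' : ℝ) * t ≤ A.card := by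
  classical
  set f : Sp d → Sp d ⧸ G := fun x => QuotientAddGroup.mk x with hf
  have h1 : (A.card : ℝ) = ∑ c ∈ A.image f, ((A.filter (fun y => f y = c)).card : ℝ) := by
    rw [← Nat.cast_sum]
    congr 1
    exact Finset.card_eq_sum_card_image f A
  have h2 : (nco G A' : ℝ) * t = ∑ c ∈ A'.image f, t := by
    rw [Finset.sum_const, nsmul_eq_mul]; rfl
  rw [h1, h2]
  refine le_trans (Finset.sum_le_sum (f := fun _ => t)
    (g := fun c => ((A.filter (fun y => f y = c)).card : ℝ)) ?_) ?_
  · intro c hc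
    obtain ⟨x, hx, rfl⟩ := Finset.mem_image.1 hc
    refine (ht x hx).trans (le_of_eq ?_)
    congr 2
    ext y
    rw [mem_cls, Finset.mem_filter]
    refine and_congr_right fun _ => ?_
    rw [hf]
    simp only
    rw [mk_eq, ← neg_mem_iff, neg_sub]
  · exact Finset.sum_le_sum_of_subset_of_nonneg (Finset.image_subset_image h)
      (fun _ _ _ => Nat.cast_nonneg _)

/-- Few points of `A` in every coset: many cosets. -/
theorem card_le_nco_mul {G : AddSubgroup (Sp d)} {A : Finset (Sp d)} (M : ℝ)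
    (hM : ∀ x ∈ A, ((cls G A x).card : ℝ) ≤ M) : (A.card : ℝ) ≤ nco G A * M := by
  classical
  set f : Sp d → Sp d ⧸ G := fun x => QuotientAddGroup.mk x with hf
  have h1 : (A.card : ℝ) = ∑ c ∈ A.image f, ((A.filter (fun y => f y = c)).card : ℝ) := by
    rw [← Nat.cast_sum]
    congr 1
    exact Finset.card_eq_sum_card_image f A
  have h2 : (nco G A : ℝ) * M = ∑ c ∈ A.image f, M := by
    rw [Finset.sum_const, nsmul_eq_mul]; rfl
  rw [h1, h2]
  refine Finset.sum_le_sum ?_
  intro c hc
  obtain ⟨x, hx, rfl⟩ := Finset.mem_image.1 hc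
  refine le_trans (le_of_eq ?_) (hM x hx)
  congr 2
  ext y
  rw [mem_cls, Finset.mem_filter]
  refine and_congr_right fun _ => ?_
  rw [hf]
  simp only
  rw [mk_eq, ← neg_mem_iff, neg_sub]

/-- The points in poor cosets are few. -/
theorem poor_le {G : AddSubgroup (Sp d)} {A : Finset (Sp d)} (t : ℝ) (ht : 0 ≤ t) :
    open Classical in
    ((A.filter (fun x => ((cls G A x).card : ℝ) < t)).card : ℝ) ≤ nco G A * t := by
  classical
  set B := A.filter (fun x => ((cls G A x).card : ℝ) < t) with hB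
  have hBA : B ⊆ A := Finset.filter_subset _ _
  refine (card_le_nco_mul (G := G) (A := B) t ?_).trans
    (mul_le_mul_of_nonneg_right (Nat.cast_le.2 (nco_mono hBA)) ht)
  intro x hx
  have h1 : ((cls G A x).card : ℝ) < t := (Finset.mem_filter.1 hx).2
  refine le_trans (Nat.cast_le.2 (Finset.card_le_card ?_)) h1.le
  intro y hy
  rw [mem_cls] at hy ⊢
  exact ⟨hBA hy.1, hy.2⟩

/-- Rich points of a window for a finite family. -/
theorem win_rich {N : Sp d → ℕ} {D : Set (Sp d)} {O : Set (Mx d)} (hO : O.Finite) {ε C : ℝ}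
    (hε : 0 < ε) :
    ∃ b : ℝ, 0 < b ∧ ∀ K : ℝ, 1 ≤ K → ∀ z A, Win N D O ε C K z A → ∃ A1 ⊆ A,
      (ε / 2) * K ^ d ≤ A1.card ∧ ∀ x ∈ A1, ∀ p ∈ O,
        b * K ^ rk p ≤ (cls (grp D p) A x).card := by
  classical
  set n : ℕ := hO.toFinset.card with hn
  set C' : ℝ := max C 1 with hC'
  have hC'0 : 0 < C' := lt_of_lt_of_le one_pos (le_max_right _ _)
  refine ⟨ε / 2 / (C' * (n + 1)), by positivity, ?_⟩
  intro K hK z A hA
  set b : ℝ := ε / 2 / (C' * (n + 1)) with hb
  have hb0 : 0 < b := by positivity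
  have hK0 : 0 < K := by linarith
  set P : Mx d → Finset (Sp d) := fun p =>
    A.filter (fun x => ((cls (grp D p) A x).card : ℝ) < b * K ^ rk p) with hP
  refine ⟨A \ hO.toFinset.biUnion P, Finset.sdiff_subset, ?_, ?_⟩
  · have h1 : ((hO.toFinset.biUnion P).card : ℝ) ≤ ε / 2 * K ^ d := by
      have h2 : ((hO.toFinset.biUnion P).card : ℝ) ≤ ∑ p ∈ hO.toFinset, ((P p).card : ℝ) := by
        rw [← Nat.cast_sum]
        exact Nat.cast_le.2 Finset.card_biUnion_le
      refine h2.trans ?_
      have h3 : ∀ p ∈ hO.toFinset, ((P p).card : ℝ) ≤ b * (C' * K ^ d) := by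
        intro p hp
        have hp' : p ∈ O := hO.mem_toFinset.1 hp
        have h4 := poor_le (G := grp D p) (A := A) (b * K ^ rk p) (by positivity)
        refine h4.trans ?_
        have h5 := hA.cos p hp'
        calc (nco (grp D p) A : ℝ) * (b * K ^ rk p) = b * (nco (grp D p) A * K ^ rk p) := by ring
          _ ≤ b * (C * K ^ d) := by
              exact mul_le_mul_of_nonneg_left h5 hb0.le
          _ ≤ b * (C' * K ^ d) := by
              refine mul_le_mul_of_nonneg_left ?_ hb0.le
              exact mul_le_mul_of_nonneg_right (le_max_left _ _) (by positivity)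
      refine (Finset.sum_le_sum h3).trans ?_
      rw [Finset.sum_const, nsmul_eq_mul, ← hn]
      have h6 : (n : ℝ) * (b * (C' * K ^ d)) = (n / (n + 1)) * (ε / 2 * K ^ d) := by
        rw [hb]; field_simp
      rw [h6]
      have h7 : (n : ℝ) / (n + 1) ≤ 1 := by
        rw [div_le_one (by positivity)]; linarith
      have h8 : 0 ≤ ε / 2 * K ^ d := by positivity
      nlinarith
    have h9 : (A.card : ℝ) ≤ (A \ hO.toFinset.biUnion P).card + (hO.toFinset.biUnion P).card := by
      have := Finset.card_le_card_sdiff_add_card (s := A) (t := hO.toFinset.biUnion P)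
      exact_mod_cast this
    have h10 := hA.card
    linarith
  · intro x hx p hp
    rw [Finset.mem_sdiff, Finset.mem_biUnion] at hx
    by_contra hcon
    push Not at hcon
    exact hx.2 ⟨p, hO.mem_toFinset.2 hp, Finset.mem_filter.2 ⟨hx.1, hcon⟩⟩

end Pool.Agent.MT
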