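import Pool.Agent.H75.MT.Nco
import Pool.Agent.H75.MT.Count
import Pool.Agent.H75.MT.Coord

/-!
# STR module P1: ranks in realizable families, sums, the zero space

* `rlz_rk`.  A coset of `grp D p` is contained in a coset of `U = rs Y`, so it has `≤ C' K^{dim U}`
  points of `A` (`flat_count`; the points of `A` are atoms (`N x ≥ 1`) with mutual distances `≤ 2 K`).
  `ε K^d ≤ |A| ≤ nco * C' K^{dim U}` (`card_le_nco_mul`), multiply by `K^{rk p}`:
  `ε K^d K^{rk p} ≤ C C' K^d K^{dim U}` for arbitrarily large `K`, so `rk p ≤ dim U`.  The other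
  inequality is `rs_le_rk`.
* `P1`.  `G, G'` the groups, `r, r'` the ranks, `r0 = dim_ℝ rs (Y ∩ Y')`.  For a window `A` (`K ≥ 1`):
  `A1 = {x ∈ A : |cls G A x| ≥ b K^r}`, `|A \ A1| ≤ C b K^d ≤ (ε/4) K^d` (`poor_le`, `b` small);
  `A2 = {x ∈ A1 : |cls G' A1 x| ≥ b K^{r'}}`, `|A2| ≥ (ε/2) K^d`.  Let `x ∈ A2`: there are
  `≥ b K^{r'}` points `y ∈ cls G' A1 x`, each has `≥ b K^r` points `x' ∈ cls G A y`, all
  `x' ∈ cls (G ⊔ G') A x`.  For a given `x'` the possible `y` satisfy pairwise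
  `y - y' ∈ G ∩ G' ⊆ Y ∩ Y'`, so there are `≤ C1 K^{r0}` of them (`flat_count` for `rs (Y ∩ Y')`).  So
  `|cls (G ⊔ G') A x| * C1 K^{r0} ≥ b² K^{r + r'}`; as `r + r' ≥ rk (p ⊔ p') + r0` (`rk_sup_le`),
  `|cls (G ⊔ G') A x| ≥ (b²/C1) K^{rk (p ⊔ p')}`; `nco_mul_le` and `|A| ≤ C2 K^d`
  (`flat_count` for `⊤`) give the bound for `G ⊔ G' ≤ grp D (p ⊔ p')` (`grp_mono`, `nco_anti`).
  The window for the new family is `A2` (`nco_mono`), with `ε/2`.
* `P0`: `nco ≤ |A| ≤ C2 K^d`, `rk (⊥, ⊥) = 0`.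
* `rlz_empty`: from `Dens`: `∑ N ≤ C0 * #atoms` (`LocB` with `F = {z}`).
-/

namespace Pool.Agent.MT

open Module Submodule

variable {d : ℕ}

private theorem P1_card_le {N : Sp d → ℕ} {A : Finset (Sp d)} (h : ∀ x ∈ A, N x ≠ 0) :
    (A.card : ℝ) ≤ ∑ y ∈ A, (N y : ℝ) := by
  have h1 : ∑ _y ∈ A, (1 : ℝ) ≤ ∑ y ∈ A, (N y : ℝ) := by
    refine Finset.sum_le_sum fun y hy => ?_
    have := Nat.one_le_iff_ne_zero.2 (h y hy)
    exact_mod_cast this
  rw [Finset.sum_const, nsmul_eq_mul, mul_one] at h1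
  exact h1

private theorem P1_flat {N : Sp d → ℕ} {C0 : ℕ} (hN : LocB N C0) (U : Submodule ℝ (Sp d)) :
    ∃ C : ℝ, 0 < C ∧ ∀ K : ℝ, 1 ≤ K → ∀ (z : Sp d) (F : Finset (Sp d)), (∀ x ∈ F, N x ≠ 0) →
      (∀ x ∈ F, ‖x - z‖ ≤ K) → (∀ y ∈ F, ∀ y' ∈ F, y - y' ∈ U) →
      (F.card : ℝ) ≤ C * K ^ finrank ℝ U := by
  obtain ⟨C, hC, h⟩ := flat_count hN U
  refine ⟨C * 2 ^ finrank ℝ U, by positivity, ?_⟩
  intro K hK z F h1 h2 h3
  refine (P1_card_le h1).trans ?_
  refine (h (2 * K) (by linarith) F fun y hy y' hy' => ⟨?_, h3 y hy y' hy'⟩).trans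
    (le_of_eq ?_)
  · have h4 : y - y' = (y - z) - (y' - z) := by abel
    rw [h4]
    refine (norm_sub_le _ _).trans ?_
    have := h2 y hy
    have := h2 y' hy'
    linarith
  · rw [mul_pow, mul_assoc]

private theorem P1_le_rs {Y : Submodule ℚ (Sp d)} {x : Sp d} (h : x ∈ Y) : x ∈ rs Y :=
  subset_span h

private theorem P1_cls_sub {G : AddSubgroup (Sp d)} {A : Finset (Sp d)} {x y y' : Sp d}
    (hy : y ∈ cls G A x) (hy' : y' ∈ cls G A x) : y - y' ∈ G := by
  have h1 := (mem_cls.1 hy).2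
  have h2 := (mem_cls.1 hy').2
  have h3 : y - y' = (y - x) - (y' - x) := by abel
  rw [h3]
  exact G.sub_mem h1 h2

theorem rlz_rk {N : Sp d → ℕ} {C0 : ℕ} (hN : LocB N C0) {D : Set (Sp d)} {O : Set (Mx d)}
    (hO : Rlz N D O) {p : Mx d} (hp : p ∈ O) (h : rq p.1 ≤ p.2) (hf : FDq p) :
    rk p = finrank ℝ (rs p.2) := by
  refine le_antisymm ?_ (rs_le_rk p h hf)
  by_contra hcon
  push Not at hcon
  obtain ⟨ε, hε, C, hW⟩ := hO
  obtain ⟨C', hC', hflat⟩ := P1_flat hN (rs p.2)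
  obtain ⟨K, hK, z, A, hA⟩ := hW (max 1 (C * C' / ε + 1))
  have hK1 : 1 ≤ K := (le_max_left _ _).trans hK
  have hK2 : C * C' / ε + 1 ≤ K := (le_max_right _ _).trans hK
  have hK0 : 0 < K := by linarith
  set u := finrank ℝ (rs p.2) with hu
  have h1 : (A.card : ℝ) ≤ nco (grp D p) A * (C' * K ^ u) := by
    refine card_le_nco_mul _ fun x _ => ?_
    refine hflat K hK1 z _ (fun y hy => hA.supp y (mem_cls.1 hy).1)
      (fun y hy => hA.ball y (mem_cls.1 hy).1) fun y hy y' hy' => ?_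
    exact P1_le_rs (grp_le h (P1_cls_sub hy hy'))
  have h2 := hA.cos p hp
  have h3 := hA.card
  have h4 : ε * K ^ d * K ^ rk p ≤ C' * K ^ u * (C * K ^ d) := by
    calc ε * K ^ d * K ^ rk p ≤ (A.card : ℝ) * K ^ rk p :=
          mul_le_mul_of_nonneg_right h3 (by positivity)
      _ ≤ nco (grp D p) A * (C' * K ^ u) * K ^ rk p :=
          mul_le_mul_of_nonneg_right h1 (by positivity)
      _ = C' * K ^ u * (nco (grp D p) A * K ^ rk p) := by ring
      _ ≤ C' * K ^ u * (C * K ^ d) := mul_le_mul_of_nonneg_left h2 (by positivity)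
  have h5 : K ^ (u + 1) ≤ K ^ rk p := pow_le_pow_right₀ hK1 hcon
  have h6 : ε * K ^ d * K ^ (u + 1) ≤ C' * K ^ u * (C * K ^ d) :=
    (mul_le_mul_of_nonneg_left h5 (by positivity)).trans h4
  have h7 : (K ^ d * K ^ u) * (ε * K) ≤ (K ^ d * K ^ u) * (C * C') := by
    calc (K ^ d * K ^ u) * (ε * K) = ε * K ^ d * K ^ (u + 1) := by ring
      _ ≤ C' * K ^ u * (C * K ^ d) := h6
      _ = (K ^ d * K ^ u) * (C * C') := by ring
  have h8 : ε * K ≤ C * C' := le_of_mul_le_mul_left h7 (by positivity)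
  have h9 : C * C' / ε * ε = C * C' := div_mul_cancel₀ _ hε.ne'
  nlinarith

theorem P1 {N : Sp d → ℕ} {C0 : ℕ} (hN : LocB N C0) {D : Set (Sp d)} {O : Set (Mx d)}
    (hO : Rlz N D O) {p p' : Mx d} (hp : p ∈ O) (hp' : p' ∈ O) (h : rq p.1 ≤ p.2)
    (h' : rq p'.1 ≤ p'.2) (hf : FDq p) (hf' : FDq p') :
    Rlz N D (insert (p ⊔ p') O) := by
  classical
  obtain ⟨ε, hε, C, hW⟩ := hO
  obtain ⟨C1, hC1, hflat1⟩ := P1_flat hN (rs (p.2 ⊓ p'.2))
  obtain ⟨C2, hC2, hflat2⟩ := P1_flat hN (⊤ : Submodule ℝ (Sp d))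
  have hd : finrank ℝ (⊤ : Submodule ℝ (Sp d)) = d := by
    rw [finrank_top]
    exact Module.finrank_fin_fun ℝ
  rw [hd] at hflat2
  set Cm : ℝ := max C 1 with hCm
  have hCm0 : 0 < Cm := lt_of_lt_of_le one_pos (le_max_right _ _)
  set b : ℝ := ε / 4 / Cm with hb
  have hb0 : 0 < b := by positivity
  have hbC : b * Cm = ε / 4 := by
    rw [hb]
    exact div_mul_cancel₀ _ hCm0.ne'
  refine ⟨ε / 2, by positivity, max C (C2 * C1 / b ^ 2), ?_⟩
  intro K0
  obtain ⟨K, hK, z, A, hA⟩ := hW (max K0 1)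
  have hK1 : 1 ≤ K := (le_max_right _ _).trans hK
  have hK0 : 0 < K := by linarith
  set G := grp D p with hG
  set G' := grp D p' with hG'
  set r := rk p with hr
  set r' := rk p' with hr'
  set r0 := finrank ℝ (rs (p.2 ⊓ p'.2)) with hr0
  set A1 := A.filter (fun x => ¬ ((cls G A x).card : ℝ) < b * K ^ r) with hA1
  have hA1A : A1 ⊆ A := Finset.filter_subset _ _
  have hc1 : (A.card : ℝ) ≤ A1.card + ε / 4 * K ^ d := by
    have h1 := Finset.card_filter_add_card_filter_not (s := A)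
      (fun x => ((cls G A x).card : ℝ) < b * K ^ r)
    have h2 := poor_le (G := G) (A := A) (b * K ^ r) (by positivity)
    have h3 := hA.cos p hp
    have h4 : (nco G A : ℝ) * (b * K ^ r) ≤ ε / 4 * K ^ d := by
      calc (nco G A : ℝ) * (b * K ^ r) = b * (nco G A * K ^ r) := by ring
        _ ≤ b * (C * K ^ d) := mul_le_mul_of_nonneg_left h3 hb0.le
        _ ≤ b * (Cm * K ^ d) := mul_le_mul_of_nonneg_left
            (mul_le_mul_of_nonneg_right (le_max_left _ _) (by positivity)) hb0.le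
        _ = ε / 4 * K ^ d := by rw [← mul_assoc, hbC]
    have h5 : (A.card : ℝ) = ((A.filter (fun x => ((cls G A x).card : ℝ) < b * K ^ r)).card : ℝ) +
        A1.card := by exact_mod_cast h1.symm
    linarith
  set A2 := A1.filter (fun x => ¬ ((cls G' A1 x).card : ℝ) < b * K ^ r') with hA2
  have hA2A1 : A2 ⊆ A1 := Finset.filter_subset _ _
  have hA2A : A2 ⊆ A := hA2A1.trans hA1A
  have hc2 : (A1.card : ℝ) ≤ A2.card + ε / 4 * K ^ d := by
    have h1 := Finset.card_filter_add_card_filter_not (s := A1)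
      (fun x => ((cls G' A1 x).card : ℝ) < b * K ^ r')
    have h2 := poor_le (G := G') (A := A1) (b * K ^ r') (by positivity)
    have h3 := hA.cos p' hp'
    have h3' : (nco G' A1 : ℝ) * K ^ r' ≤ C * K ^ d :=
      (mul_le_mul_of_nonneg_right (Nat.cast_le.2 (nco_mono hA1A)) (by positivity)).trans h3
    have h4 : (nco G' A1 : ℝ) * (b * K ^ r') ≤ ε / 4 * K ^ d := by
      calc (nco G' A1 : ℝ) * (b * K ^ r') = b * (nco G' A1 * K ^ r') := by ring
        _ ≤ b * (C * K ^ d) := mul_le_mul_of_nonneg_left h3' hb0.le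
        _ ≤ b * (Cm * K ^ d) := mul_le_mul_of_nonneg_left
            (mul_le_mul_of_nonneg_right (le_max_left _ _) (by positivity)) hb0.le
        _ = ε / 4 * K ^ d := by rw [← mul_assoc, hbC]
    have h5 : (A1.card : ℝ) =
        ((A1.filter (fun x => ((cls G' A1 x).card : ℝ) < b * K ^ r')).card : ℝ) +
        A2.card := by exact_mod_cast h1.symm
    linarith
  have hcard := hA.card
  -- the classes of the sum are rich
  have hrich : ∀ x ∈ A2, b ^ 2 / C1 * K ^ rk (p ⊔ p') ≤ ((cls (G ⊔ G') A x).card : ℝ) := by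
    intro x hx
    have hx1 : b * K ^ r' ≤ ((cls G' A1 x).card : ℝ) := not_lt.1 (Finset.mem_filter.1 hx).2
    have h1 : ∀ y ∈ cls G' A1 x, b * K ^ r ≤ ((cls G A y).card : ℝ) := fun y hy =>
      not_lt.1 (Finset.mem_filter.1 (mem_cls.1 hy).1).2
    have h2 : ∑ y ∈ cls G' A1 x, ((cls G A y).card : ℝ) =
        ∑ x' ∈ cls (G ⊔ G') A x, (((cls G' A1 x).filter (fun y => x' - y ∈ G)).card : ℝ) := by
      have h3 : ∀ y ∈ cls G' A1 x, ((cls G A y).card : ℝ) =
          ∑ x' ∈ cls (G ⊔ G') A x, if x' - y ∈ G then (1 : ℝ) else 0 := by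
        intro y hy
        rw [← Finset.sum_filter, Finset.sum_const, nsmul_eq_mul, mul_one]
        congr 2
        ext x'
        rw [mem_cls, Finset.mem_filter, mem_cls]
        constructor
        · rintro ⟨h4, h5⟩
          refine ⟨⟨h4, ?_⟩, h5⟩
          have h6 : x' - x = (x' - y) + (y - x) := by abel
          rw [h6]
          exact AddSubgroup.add_mem _ ((le_sup_left : G ≤ G ⊔ G') h5)
            ((le_sup_right : G' ≤ G ⊔ G') (mem_cls.1 hy).2)
        · rintro ⟨⟨h4, -⟩, h5⟩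
          exact ⟨h4, h5⟩
      rw [Finset.sum_congr rfl h3, Finset.sum_comm]
      refine Finset.sum_congr rfl fun x' _ => ?_
      rw [← Finset.sum_filter, Finset.sum_const, nsmul_eq_mul, mul_one]
    have h3 : ∀ x' ∈ cls (G ⊔ G') A x,
        (((cls G' A1 x).filter (fun y => x' - y ∈ G)).card : ℝ) ≤ C1 * K ^ r0 := by
      intro x' _
      refine hflat1 K hK1 z _ ?_ ?_ ?_
      · intro y hy
        exact hA.supp y (hA1A (mem_cls.1 (Finset.mem_filter.1 hy).1).1)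
      · intro y hy
        exact hA.ball y (hA1A (mem_cls.1 (Finset.mem_filter.1 hy).1).1)
      · intro y hy y' hy'
        rw [Finset.mem_filter] at hy hy'
        have h4 : y - y' ∈ G' := P1_cls_sub hy.1 hy'.1
        have h5 : y - y' ∈ G := by
          have h6 : y - y' = (x' - y') - (x' - y) := by abel
          rw [h6]
          exact G.sub_mem hy'.2 hy.2
        exact P1_le_rs ⟨grp_le h h5, grp_le h' h4⟩
    have h4 : (b * K ^ r') * (b * K ^ r) ≤ ((cls (G ⊔ G') A x).card : ℝ) * (C1 * K ^ r0) := by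
      calc (b * K ^ r') * (b * K ^ r) ≤ ((cls G' A1 x).card : ℝ) * (b * K ^ r) :=
            mul_le_mul_of_nonneg_right hx1 (by positivity)
        _ = ∑ y ∈ cls G' A1 x, (b * K ^ r) := by rw [Finset.sum_const, nsmul_eq_mul]
        _ ≤ ∑ y ∈ cls G' A1 x, ((cls G A y).card : ℝ) := Finset.sum_le_sum h1
        _ = _ := h2
        _ ≤ ∑ x' ∈ cls (G ⊔ G') A x, (C1 * K ^ r0) := Finset.sum_le_sum h3
        _ = _ := by rw [Finset.sum_const, nsmul_eq_mul]
    have h5 : K ^ rk (p ⊔ p') * K ^ r0 ≤ K ^ r * K ^ r' := by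
      rw [← pow_add, ← pow_add]
      exact pow_le_pow_right₀ hK1 (rk_sup_le p p' h h' hf hf')
    have h6 : (b ^ 2 / C1 * K ^ rk (p ⊔ p')) * (C1 * K ^ r0) ≤
        ((cls (G ⊔ G') A x).card : ℝ) * (C1 * K ^ r0) := by
      refine le_trans ?_ h4
      have e1 : (b ^ 2 / C1 * K ^ rk (p ⊔ p')) * (C1 * K ^ r0) =
          b ^ 2 * (K ^ rk (p ⊔ p') * K ^ r0) := by
        field_simp
      rw [e1]
      calc b ^ 2 * (K ^ rk (p ⊔ p') * K ^ r0) ≤ b ^ 2 * (K ^ r * K ^ r') :=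
            mul_le_mul_of_nonneg_left h5 (by positivity)
        _ = _ := by ring
    exact le_of_mul_le_mul_right h6 (by positivity)
  refine ⟨K, (le_max_left _ _).trans hK, z, A2, ?_, ?_, ?_, ?_⟩
  · exact fun x hx => hA.supp x (hA2A hx)
  · exact fun x hx => hA.ball x (hA2A hx)
  · linarith
  · intro q hq
    have hCC : C * K ^ d ≤ max C (C2 * C1 / b ^ 2) * K ^ d :=
      mul_le_mul_of_nonneg_right (le_max_left _ _) (by positivity)
    rcases Set.mem_insert_iff.1 hq with rfl | hq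
    · have h1 : nco (grp D (p ⊔ p')) A2 ≤ nco (G ⊔ G') A2 :=
        nco_anti (sup_le (grp_mono le_sup_left) (grp_mono le_sup_right)) A2
      have h2 := nco_mul_le (G := G ⊔ G') hA2A _ hrich
      have h3 : (A.card : ℝ) ≤ C2 * K ^ d :=
        hflat2 K hK1 z A hA.supp hA.ball fun _ _ _ _ => mem_top
      have h4 : (nco (G ⊔ G') A2 : ℝ) * K ^ rk (p ⊔ p') ≤ C2 * C1 / b ^ 2 * K ^ d := by
        have h5 : (nco (G ⊔ G') A2 : ℝ) * K ^ rk (p ⊔ p') =
            (C1 / b ^ 2) * (nco (G ⊔ G') A2 * (b ^ 2 / C1 * K ^ rk (p ⊔ p'))) := by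
          field_simp
        rw [h5]
        calc (C1 / b ^ 2) * (nco (G ⊔ G') A2 * (b ^ 2 / C1 * K ^ rk (p ⊔ p')))
            ≤ (C1 / b ^ 2) * (C2 * K ^ d) :=
              mul_le_mul_of_nonneg_left (h2.trans h3) (by positivity)
          _ = _ := by ring
      calc (nco (grp D (p ⊔ p')) A2 : ℝ) * K ^ rk (p ⊔ p')
          ≤ (nco (G ⊔ G') A2 : ℝ) * K ^ rk (p ⊔ p') :=
            mul_le_mul_of_nonneg_right (Nat.cast_le.2 h1) (by positivity)
        _ ≤ C2 * C1 / b ^ 2 * K ^ d := h4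
        _ ≤ max C (C2 * C1 / b ^ 2) * K ^ d :=
            mul_le_mul_of_nonneg_right (le_max_right _ _) (by positivity)
    · have h1 := hA.cos q hq
      exact ((mul_le_mul_of_nonneg_right (Nat.cast_le.2 (nco_mono hA2A))
        (by positivity)).trans h1).trans hCC

theorem P0 {N : Sp d → ℕ} {C0 : ℕ} (hN : LocB N C0) {D : Set (Sp d)} {O : Set (Mx d)}
    (hO : Rlz N D O) : Rlz N D (insert (⊥, rq ⊥) O) := by
  obtain ⟨ε, hε, C, hW⟩ := hO
  obtain ⟨C2, hC2, hflat2⟩ := P1_flat hN (⊤ : Submodule ℝ (Sp d))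
  have hd : finrank ℝ (⊤ : Submodule ℝ (Sp d)) = d := by
    rw [finrank_top]
    exact Module.finrank_fin_fun ℝ
  rw [hd] at hflat2
  refine ⟨ε, hε, max C C2, fun K0 => ?_⟩
  obtain ⟨K, hK, z, A, hA⟩ := hW (max K0 1)
  have hK1 : 1 ≤ K := (le_max_right _ _).trans hK
  have hK0 : 0 < K := by linarith
  refine ⟨K, (le_max_left _ _).trans hK, z, A, hA.supp, hA.ball, hA.card, ?_⟩
  intro q hq
  rcases Set.mem_insert_iff.1 hq with rfl | hq
  · rw [rk_real, finrank_bot, pow_zero, mul_one]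
    have h1 : (A.card : ℝ) ≤ C2 * K ^ d :=
      hflat2 K hK1 z A hA.supp hA.ball fun _ _ _ _ => mem_top
    calc (nco (grp D (⊥, rq ⊥)) A : ℝ) ≤ A.card := Nat.cast_le.2 nco_le_card
      _ ≤ C2 * K ^ d := h1
      _ ≤ max C C2 * K ^ d := mul_le_mul_of_nonneg_right (le_max_right _ _) (by positivity)
  · exact (hA.cos q hq).trans (mul_le_mul_of_nonneg_right (le_max_left _ _) (by positivity))

theorem rlz_empty {N : Sp d → ℕ} {C0 : ℕ} (hN : LocB N C0) (hD : Dens N) (D : Set (Sp d)) :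
    Rlz N D ∅ := by
  classical
  obtain ⟨c, hc, K1, h⟩ := hD
  refine ⟨c / (C0 + 1), by positivity, 0, fun K0 => ?_⟩
  obtain ⟨F, hF1, hF2⟩ := h (max K0 K1) (le_max_right _ _)
  refine ⟨max K0 K1, le_max_left _ _, 0, F.filter (fun x => N x ≠ 0), ?_, ?_, ?_, ?_⟩
  · exact fun x hx => (Finset.mem_filter.1 hx).2
  · intro x hx
    rw [sub_zero]
    exact hF1 x (Finset.mem_filter.1 hx).1
  · have h1 : ∑ z ∈ F, (N z : ℝ) = ∑ z ∈ F.filter (fun x => N x ≠ 0), (N z : ℝ) := by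
      rw [Finset.sum_filter]
      refine Finset.sum_congr rfl fun z _ => ?_
      by_cases hz : N z = 0
      · rw [if_neg (fun h => h hz), hz, Nat.cast_zero]
      · rw [if_pos hz]
    have h2 : ∀ z, (N z : ℝ) ≤ C0 := by
      intro z
      have h3 := hN z {z} (by
        intro w hw
        rw [Finset.mem_singleton] at hw
        rw [hw, sub_self, norm_zero]
        exact zero_le_one)
      rw [Finset.sum_singleton] at h3
      exact_mod_cast h3
    have h3 : ∑ z ∈ F.filter (fun x => N x ≠ 0), (N z : ℝ) ≤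
        ((F.filter (fun x => N x ≠ 0)).card : ℝ) * C0 := by
      rw [← nsmul_eq_mul, ← Finset.sum_const]
      exact Finset.sum_le_sum fun z _ => h2 z
    have h4 : (0 : ℝ) < (C0 : ℝ) + 1 := by positivity
    rw [div_mul_eq_mul_div, div_le_iff₀ h4]
    have h5 : (0 : ℝ) ≤ ((F.filter (fun x => N x ≠ 0)).card : ℝ) := by positivity
    rw [h1] at hF2
    linarith
  · intro q hq
    exact absurd hq (Set.notMem_empty q)

end Pool.Agent.MT
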