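import Pool.Agent.H75.MT.P1

/-!
# STR module P2: rational real subspaces of the span

`p = (X, Y) ∈ O`, `X'` a `Y`-rational real subspace between `X` and `rs Y`.  Then `(X', X')` can be
added to `O` (same windows).
Proof.  Let `p' = (X', Y + X')`: `p' ∈ FF D` (same `D2`; `X' ∈ XX`), `rk p' = rk p`,
`rs p'.2 = rs p.2` (`rk_rational`; `rk p = dim rs Y` by `rlz_rk`), so `coord` gives
`φ : E → ℝ^{m'}`, `m' = dq p' = rk p - dim X'`, integral on `grp D p' ≥ grp D p` with
`φ u = 0 → u ∈ X'` for `u ∈ rs Y`.  Let `A` be a window, `K ≥ 1`, `G = grp D p`.  In one `G`-coset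
of `A`, `cls G A x`, the value `φ (y - x) ∈ ℤ^{m'}`, `‖φ (y - x)‖ ≤ 2 ‖φ‖ K`, determines the
`X'`-coset of `y` (`y - y' ∈ G ⊆ rs Y`, `φ (y - y') = 0`), so `cls G A x` meets
`≤ (4 ‖φ‖ K + 1)^{m'} ≤ C' K^{m'}` cosets of `X'`; hence
`nco X' A ≤ C' K^{m'} nco G A` and
`nco X' A * K^{dim X'} ≤ C' nco G A * K^{rk p} ≤ C' C K^d`.  (`grp D (X', rq X') ≥ X'`, so
`nco_anti`; `rk (X', rq X') = dim X'` by `rk_real`.)
-/

namespace Pool.Agent.MT

open Module Submodule

variable {d : ℕ}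

/-- A set of representatives of the cosets of `G` met by `A`. -/
theorem P2_reps (G : AddSubgroup (Sp d)) (A : Finset (Sp d)) :
    ∃ B ⊆ A, B.card = nco G A ∧ ∀ x ∈ B, ∀ y ∈ B, y - x ∈ G → x = y := by
  classical
  obtain ⟨B, hBA, h1, h2⟩ := Finset.exists_subset_injOn_image_eq_of_surjOn
    (f := fun x => (QuotientAddGroup.mk x : Sp d ⧸ G)) (A : Set (Sp d))
    (A.image (fun x => (QuotientAddGroup.mk x : Sp d ⧸ G))) (by
      rw [Finset.coe_image]
      exact Set.surjOn_image _ _)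
  refine ⟨B, fun x hx => hBA hx, ?_, ?_⟩
  · rw [nco, ← h2, Finset.card_image_of_injOn h1]
  · intro x hx y hy hxy
    exact h1 hx hy (mk_eq.2 hxy)

/-- Integer coordinates: few `X'`-cosets in every `G`-coset. -/
theorem P2_nco {m : ℕ} {G : AddSubgroup (Sp d)} {X' : Submodule ℝ (Sp d)}
    (φ : Sp d →ₗ[ℝ] (Fin m → ℝ)) (hφ : ∀ g ∈ G, ∀ i, ∃ n : ℤ, φ g i = n)
    (hφ0 : ∀ g ∈ G, φ g = 0 → g ∈ X') :
    ∃ C : ℝ, 0 < C ∧ ∀ K : ℝ, 1 ≤ K → ∀ (z : Sp d) (A : Finset (Sp d)),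
      (∀ x ∈ A, ‖x - z‖ ≤ K) →
      (nco X'.toAddSubgroup A : ℝ) ≤ nco G A * (C * K ^ m) := by
  classical
  set M : ℝ := ‖LinearMap.toContinuousLinearMap φ‖ with hM
  have hM0 : 0 ≤ M := norm_nonneg _
  have hMφ : ∀ v, ‖φ v‖ ≤ M * ‖v‖ := fun v => (LinearMap.toContinuousLinearMap φ).le_opNorm v
  refine ⟨(4 * M + 1) ^ m, by positivity, ?_⟩
  intro K hK z A hA
  have hK0 : 0 < K := by linarith
  obtain ⟨B, hBA, hB1, hB2⟩ := P2_reps X'.toAddSubgroup A
  rw [← hB1]
  have h1 : (B.card : ℝ) ≤ nco G B * ((4 * M + 1) ^ m * K ^ m) := by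
    apply card_le_nco_mul
    intro x hx
    -- the integer vector of `y`
    set L : ℤ := ⌊2 * M * K⌋ with hL
    have hL0 : 0 ≤ L := Int.floor_nonneg.2 (by positivity)
    have h2 : (cls G B x).card ≤
        (Fintype.piFinset (fun _ : Fin m => Finset.Icc (-L) L)).card := by
      apply Finset.card_le_card_of_injOn (fun y => fun i => ⌊φ (y - x) i⌋)
      · intro y hy
        have hy' := mem_cls.1 (Finset.mem_coe.1 hy)
        rw [Finset.mem_coe, Fintype.mem_piFinset]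
        intro i
        obtain ⟨n, hn⟩ := hφ _ hy'.2 i
        simp only [hn, Int.floor_intCast]
        have h3 : |φ (y - x) i| ≤ 2 * M * K := by
          calc |φ (y - x) i| = ‖φ (y - x) i‖ := (Real.norm_eq_abs _).symm
            _ ≤ ‖φ (y - x)‖ := norm_le_pi_norm _ i
            _ ≤ M * ‖y - x‖ := hMφ _
            _ ≤ M * (2 * K) := by
                refine mul_le_mul_of_nonneg_left ?_ hM0
                have h4 := hA y (hBA hy'.1)
                have h5 := hA x (hBA hx)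
                calc ‖y - x‖ = ‖(y - z) - (x - z)‖ := by rw [sub_sub_sub_cancel_right]
                  _ ≤ ‖y - z‖ + ‖x - z‖ := norm_sub_le _ _
                  _ ≤ 2 * K := by linarith
            _ = 2 * M * K := by ring
        rw [hn, abs_le] at h3
        rw [Finset.mem_Icc]
        constructor
        · rw [_root_.neg_le, hL, Int.le_floor, Int.cast_neg]
          linarith [h3.1]
        · rw [hL, Int.le_floor]
          exact h3.2
      · intro y hy y' hy' hyy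
        have h3 := mem_cls.1 (Finset.mem_coe.1 hy)
        have h4 := mem_cls.1 (Finset.mem_coe.1 hy')
        apply hB2 y h3.1 y' h4.1
        have hG : y' - y ∈ G := by
          have := G.sub_mem h4.2 h3.2
          rwa [sub_sub_sub_cancel_right] at this
        refine hφ0 _ hG ?_
        funext i
        have h5 : ⌊φ (y - x) i⌋ = ⌊φ (y' - x) i⌋ := congrFun hyy i
        obtain ⟨n, hn⟩ := hφ _ h3.2 i
        obtain ⟨n', hn'⟩ := hφ _ h4.2 i
        rw [hn, hn', Int.floor_intCast, Int.floor_intCast] at h5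
        have h6 : y' - y = (y' - x) - (y - x) := by rw [sub_sub_sub_cancel_right]
        rw [h6, map_sub, Pi.sub_apply, hn, hn', h5, sub_self, Pi.zero_apply]
    have h3 : ((Fintype.piFinset (fun _ : Fin m => Finset.Icc (-L) L)).card : ℝ) =
        (2 * (L : ℝ) + 1) ^ m := by
      rw [Fintype.card_piFinset_const, Int.card_Icc]
      have h4 : ((L + 1 - -L).toNat : ℝ) = 2 * (L : ℝ) + 1 := by
        have h5 : ((L + 1 - -L).toNat : ℤ) = 2 * L + 1 := by
          rw [Int.toNat_of_nonneg (by linarith)]; ring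
        exact_mod_cast h5
      rw [Nat.cast_pow, h4]
    have h4 : ((cls G B x).card : ℝ) ≤ (2 * (L : ℝ) + 1) ^ m := by
      rw [← h3]; exact Nat.cast_le.2 h2
    refine h4.trans ?_
    rw [← mul_pow]
    have hL1 : (L : ℝ) ≤ 2 * M * K := Int.floor_le _
    have hL2 : (0 : ℝ) ≤ L := Int.cast_nonneg hL0
    exact pow_le_pow_left₀ (by linarith) (by nlinarith) m
  refine h1.trans ?_
  exact mul_le_mul_of_nonneg_right (Nat.cast_le.2 (nco_mono hBA)) (by positivity)

theorem P2 {N : Sp d → ℕ} {C0 : ℕ} (hN : LocB N C0) {D : Set (Sp d)} (hD : D.Finite)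
    {O : Set (Mx d)} (hO : Rlz N D O) {p : Mx d} (hp : p ∈ O) (hpF : p ∈ FF D)
    (X' : Submodule ℝ (Sp d)) (h1 : p.1 ≤ X') (h2 : X' ≤ rs p.2)
    (h3 : X' ≤ p.1 ⊔ rs (rq X' ⊓ p.2)) (hX' : XX D X') :
    Rlz N D (insert (X', rq X') O) := by
  classical
  have hle := FF_le hpF
  have hfd := FF_fdq hD hpF
  have hrk : rk p = finrank ℝ (rs p.2) := rlz_rk hN hO hp hle hfd
  obtain ⟨hr1, hr2⟩ := rk_rational p hle hfd hrk X' h1 h2 h3
  set p' : Mx d := (X', p.2 ⊔ rq X') with hp'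
  have hXX : rq p.1 ≤ rq X' := fun x hx => h1 hx
  have hpF' : p' ∈ FF D := by
    obtain ⟨_, D2, hD2, h4⟩ := hpF
    refine ⟨hX', D2, hD2, ?_⟩
    show p.2 ⊔ rq X' = rq X' ⊔ span ℚ D2
    rw [h4, sup_right_comm, sup_eq_right.2 hXX]
  have hrk' : rk p' = finrank ℝ (rs p'.2) := by
    rw [hr1, hrk]
    show _ = finrank ℝ (rs (p.2 ⊔ rq X'))
    rw [hr2]
  obtain ⟨φ, hφ1, _, hφ3⟩ := coord hD hpF' hrk'
  have hpp : p ≤ p' := ⟨h1, le_sup_left⟩
  have hG := grp_mono (D := D) hpp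
  obtain ⟨C', hC', hn⟩ := P2_nco (G := grp D p) (X' := X') φ (fun g hg => hφ1 g (hG hg))
    (fun g hg h => hφ3 g (subset_span (grp_le (FF_le hpF') (hG hg))) h)
  obtain ⟨ε, hε, C, hw⟩ := hO
  refine ⟨ε, hε, max C (C' * C), fun K0 => ?_⟩
  obtain ⟨K, hK, z, A, hA⟩ := hw (max K0 1)
  have hK1 : 1 ≤ K := (le_max_right _ _).trans hK
  have hK0 : 0 < K := by linarith
  refine ⟨K, (le_max_left _ _).trans hK, z, A, ⟨hA.supp, hA.ball, hA.card, ?_⟩⟩
  intro q hq
  rcases hq with rfl | hq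
  · have h4 : (nco (grp D (X', rq X')) A : ℝ) ≤ nco X'.toAddSubgroup A :=
      Nat.cast_le.2 (nco_anti le_sup_left A)
    have h5 := hn K hK1 z A hA.ball
    have h6 := hA.cos p hp
    have h7 : rk p = finrank ℝ X' + dq p' := by rw [← hr1]; rfl
    rw [rk_real]
    calc (nco (grp D (X', rq X')) A : ℝ) * K ^ finrank ℝ X'
        ≤ (nco (grp D p) A * (C' * K ^ dq p')) * K ^ finrank ℝ X' :=
          mul_le_mul_of_nonneg_right (h4.trans h5) (by positivity)
      _ = C' * (nco (grp D p) A * K ^ rk p) := by rw [h7, pow_add]; ring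
      _ ≤ C' * (C * K ^ d) := mul_le_mul_of_nonneg_left h6 hC'.le
      _ = (C' * C) * K ^ d := by ring
      _ ≤ max C (C' * C) * K ^ d :=
          mul_le_mul_of_nonneg_right (le_max_right _ _) (by positivity)
  · exact (hA.cos q hq).trans
      (mul_le_mul_of_nonneg_right (le_max_left _ _) (by positivity))

end Pool.Agent.MT
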