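import Pool.Agent.H75.MT.P5a
import Pool.Agent.H75.MT.P1

/-!
# STR module P5: a bad mixed space can be enlarged

`D = dif S`, `p = (V, Y) ∈ O`, `G = grp D p`, `r = rk p = dim U`, `U = rs Y` (`rlz_rk`), `FF D` finite
(hypothesis `hfin`), so `O` is finite.  The class of `y` is nonempty: choose `v0 ∈ S`, `v0 - y ∈ Y`;
the class is `{v ∈ S : v - v0 ∈ Y}`.

Fix `ε, C` for `O` (`C ≥ 1`), `b` from `win_rich`, `b', c` from `P5a` for `b / 2`.  Let `K' ≥ 1` be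
given (large), `Q0 : ℕ` with `K'^{d+1} ≤ Q0 ≤ 2 K'^{d+1}`, and choose `K` so large that `Q0 ≤ c K`,
`K ≥ K'`, `K ≥ Q0`, with a window `(K, z, A)` for `O`.
* Step 1: `A1 ⊆ A` from `win_rich`, `|A1| ≥ (ε/2) K^d`.
* Step 2: `avg_ball`: `z'` with `A1' = {x ∈ A1 : ‖x - z'‖ ≤ K'}`, `|A1'| ≥ ε' K'^d`,
  `ε' = ε / (2 * 4^d)`.
* Step 3: for `x ∈ A1'`: `F x ≥ (b/2) K^r` (`card_le_fsum` with the points of `cls G A x`).  By `P5a` for
  all `q ∈ Q = {q ∈ [1, Q0] : coprime to (2^d)!}` there is `v ∈ S`, `v0 - v ∉ Y`, with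
  `F (x + q (v0 - v)) ≥ b' K^r`.  `popular` (with the finite set `{v ∈ S : v0 - v ∉ Y}`; it is
  nonempty because `A1'` and `Q` are nonempty) gives `v` and `A2 ⊆ A1'` with
  `|A2| ≥ |A1'| / |S| ≥ ε'' K'^d`, and every `x ∈ A2` has at least `|Q| / |S| ≥ c1 Q0` good `q`
  (`coprime_count`, `c1 = 1 / (|S| (2^d)!)`).  Put `w = v0 - v ∈ D`, `w ∉ Y`, `p' = (V, Y + ℚ w)`,
  `G' = G + ℤ w ≤ grp D p'`.
* Step 4: `n = nco G' A2` satisfies `n K'^{r+1} ≤ C' K'^d`.  Choose representatives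
  `x_1 .. x_n ∈ A2` of the cosets of `G'`.  For `i` and a good `q` for `x_i` take the finite set of atoms
  `F_{i,q} ⊆ (x_i + q w + G) ∩ ball (z, 2 K)` with `∑ N ≥ b' K^r` (`fsum_le_card`).  They are pairwise
  disjoint: different `i`: different `G'`-cosets; same `i`, `q ≠ q'`:
  `(q - q') w ∈ G ⊆ Y` would give `w ∈ Y`.  Let `F` be the union: `∑_F N ≥ n c1 Q0 b' K^r`, and for
  `y, y' ∈ F`: `‖y - y'‖ ≤ 4 K`, `y - y' = (x_i - x_j) + (q - q') w + u`, `u ∈ U`,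
  `‖x_i - x_j‖ ≤ 2 K'`.  If `w ∉ U`: `region3` (with `4 K`, `Q0`, `2 K'`; `2 K' ≤ Q0 ≤ 4 K`):
  `n c1 Q0 b' K^r (2 K')^{r+1} ≤ C1 (4 K)^r Q0 (2 K')^d`, so `n K'^{r+1} ≤ C' K'^d`.  If `w ∈ U`:
  `region2` (with `4 K`, `2 K'`): `n c1 Q0 b' K^r (2 K')^r ≤ C1 (4 K)^r (2 K')^d`, and `n ≥ 1`
  (`A2 ≠ ∅`), so `Q0 ≤ C'' K'^d`, impossible for `K'` large as `Q0 ≥ K'^{d+1}`.
* Step 5: for `p_i ∈ O`, `G_i = grp D p_i`, `r_i = rk p_i = dim U_i`: the union `F` of the disjoint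
  sets `cls G_i A x`, `x` in a set of representatives of the `nco G_i A2` cosets met by `A2`, has
  `|F| ≥ nco G_i A2 * b K^{r_i}`, all its points are atoms, `‖y - y'‖ ≤ 2 K`,
  `y - y' ∈ (x - x') + U_i`, `‖x - x'‖ ≤ 2 K'`; `region2`:
  `nco G_i A2 * b K^{r_i} (2 K')^{r_i} ≤ C1 (2 K)^{r_i} (2 K')^d`, so `nco G_i A2 * K'^{r_i} ≤ C' K'^d`.
  (if `2 K' ≤ 2 K` fine.)
* So `(K', z', A2)` is a window for `O + {p'}` (`rk p' ≤ r + 1` by `rk_adjoin_le`, `nco_anti`),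
  with constants `ε'', C'` that do not depend on `K'`.  `w` depends on `K'`, but there are finitely many
  `w ∈ D`: if for every `w ∈ D \ Y` there were a bound `K0 w` such that there is no window at
  scales `≥ K0 w` with these constants, take `K'` larger than all of them: contradiction.
-/

namespace Pool.Agent.MT

open Module Submodule

variable {d : ℕ}

theorem P5_reps (G : AddSubgroup (Sp d)) (A : Finset (Sp d)) :
    ∃ T ⊆ A, T.card = nco G A ∧ ∀ x ∈ T, ∀ x' ∈ T, x' - x ∈ G → x = x' := by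
  classical
  set f : Sp d → Sp d ⧸ G := fun x => QuotientAddGroup.mk x with hf
  obtain ⟨T, hTA, hTi, himg⟩ := Finset.exists_subset_injOn_image_eq_of_surjOn (f := f)
    (A : Set (Sp d)) (A.image f) (by
      intro c hc
      rw [Finset.mem_coe, Finset.mem_image] at hc
      obtain ⟨x, hx, rfl⟩ := hc
      exact ⟨x, hx, rfl⟩)
  refine ⟨T, fun x hx => hTA hx, ?_, ?_⟩
  · unfold nco
    rw [← himg, Finset.card_image_of_injOn hTi]
  · intro x hx x' hx' h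
    exact hTi hx hx' (mk_eq.2 h)

/-- Step 5. -/
theorem P5_step5 {N : Sp d → ℕ} (U : Submodule ℝ (Sp d)) {C1 : ℝ}
    (hC1 : ∀ K K' : ℝ, 1 ≤ K' → K' ≤ K → ∀ F : Finset (Sp d),
      (∀ y ∈ F, ∀ y' ∈ F, ‖y - y'‖ ≤ K ∧ ∃ u ∈ U, ‖y - y' - u‖ ≤ K') →
      (∑ y ∈ F, (N y : ℝ)) * K' ^ finrank ℝ U ≤ C1 * K ^ finrank ℝ U * K' ^ d)
    {G : AddSubgroup (Sp d)} (hG : ∀ g ∈ G, g ∈ U) {A A2 : Finset (Sp d)} {K K' b : ℝ}
    (hK' : 1 ≤ K') (hK : K' ≤ K) {z z' : Sp d} (hAN : ∀ x ∈ A, N x ≠ 0)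
    (hAz : ∀ x ∈ A, ‖x - z‖ ≤ K) (h2z : ∀ x ∈ A2, ‖x - z'‖ ≤ K') (hb : 0 < b)
    (hcls : ∀ x ∈ A2, b * K ^ finrank ℝ U ≤ (cls G A x).card) :
    (nco G A2 : ℝ) * K' ^ finrank ℝ U ≤ C1 * 2 ^ d / b * K' ^ d := by
  classical
  obtain ⟨T, hTA, hTc, hTi⟩ := P5_reps G A2
  set F := T.biUnion (fun x => cls G A x) with hF
  have hdisj : (T : Set (Sp d)).PairwiseDisjoint (fun x => cls G A x) := by
    intro x hx x' hx' hne
    rw [Function.onFun, Finset.disjoint_left]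
    intro l hl hl'
    rw [mem_cls] at hl hl'
    apply hne
    apply hTi x hx x' hx'
    have : x' - x = (l - x) - (l - x') := by abel
    rw [this]
    exact sub_mem hl.2 hl'.2
  have hcard : (nco G A2 : ℝ) * (b * K ^ finrank ℝ U) ≤ ∑ y ∈ F, (N y : ℝ) := by
    have h1 : (F.card : ℝ) ≤ ∑ y ∈ F, (N y : ℝ) := by
      rw [Finset.cast_card]
      refine Finset.sum_le_sum fun y hy => ?_
      obtain ⟨x, _, hx⟩ := Finset.mem_biUnion.1 hy
      have := hAN y (mem_cls.1 hx).1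
      exact_mod_cast Nat.one_le_iff_ne_zero.2 this
    refine le_trans ?_ h1
    rw [hF, Finset.card_biUnion hdisj, Nat.cast_sum, ← hTc, ← nsmul_eq_mul]
    refine Finset.card_nsmul_le_sum _ _ _ ?_
    intro x hx
    exact hcls x (hTA hx)
  have hreg := hC1 (2 * K) (2 * K') (by linarith) (by linarith) F (by
    intro y hy y' hy'
    obtain ⟨x, hxT, hx⟩ := Finset.mem_biUnion.1 hy
    obtain ⟨x', hxT', hx'⟩ := Finset.mem_biUnion.1 hy'
    rw [mem_cls] at hx hx'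
    constructor
    · have : y - y' = (y - z) - (y' - z) := by abel
      rw [this]
      refine (norm_sub_le _ _).trans ?_
      have h1 := hAz y hx.1
      have h2 := hAz y' hx'.1
      linarith
    · refine ⟨(y - x) - (y' - x'), hG _ (sub_mem hx.2 hx'.2), ?_⟩
      have : y - y' - (y - x - (y' - x')) = (x - z') - (x' - z') := by abel
      rw [this]
      refine (norm_sub_le _ _).trans ?_
      have h1 := h2z x (hTA hxT)
      have h2 := h2z x' (hTA hxT')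
      linarith)
  set r := finrank ℝ U with hr
  have hK0 : 0 < K := by linarith
  have hK'0 : 0 < K' := by linarith
  have h3 : (nco G A2 : ℝ) * (b * K ^ r) * (2 * K') ^ r ≤ C1 * (2 * K) ^ r * (2 * K') ^ d :=
    (mul_le_mul_of_nonneg_right hcard (by positivity)).trans hreg
  have h4 : (K ^ r * 2 ^ r) * ((nco G A2 : ℝ) * K' ^ r * b) ≤
      (K ^ r * 2 ^ r) * (C1 * 2 ^ d * K' ^ d) := by
    calc (K ^ r * 2 ^ r) * ((nco G A2 : ℝ) * K' ^ r * b)
        = (nco G A2 : ℝ) * (b * K ^ r) * (2 * K') ^ r := by rw [mul_pow]; ring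
      _ ≤ C1 * (2 * K) ^ r * (2 * K') ^ d := h3
      _ = _ := by rw [mul_pow, mul_pow]; ring
  have h5 := le_of_mul_le_mul_left h4 (by positivity)
  rw [div_mul_eq_mul_div, le_div_iff₀ hb]
  exact h5

/-- Step 4: the counting set. -/
theorem P5_step4 {N : Sp d → ℕ} {C0 : ℕ} (hN : LocB N C0) {G G1 : AddSubgroup (Sp d)}
    (hGG : G ≤ G1) {w : Sp d} (hw : w ∈ G1) (hwG : ∀ q q' : ℕ, q ≠ q' → ((q : ℝ) - q') • w ∉ G)
    {A2 : Finset (Sp d)} {z z' : Sp d} {K K' : ℝ} (hK : 1 ≤ K)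
    (h2z : ∀ x ∈ A2, ‖x - z'‖ ≤ K') {Q0 : ℕ} {β γ : ℝ} (hβ : 0 ≤ β)
    (hq : ∀ x ∈ A2, ∃ Qx : Finset ℕ, Qx ⊆ Finset.Icc 1 Q0 ∧ γ ≤ Qx.card ∧
      ∀ q ∈ Qx, β ≤ fsum N G (x + (q : ℝ) • w) z (2 * K)) :
    ∃ F : Finset (Sp d), (nco G1 A2 : ℝ) * γ * β ≤ ∑ y ∈ F, (N y : ℝ) ∧
      ∀ y ∈ F, ∀ y' ∈ F, ‖y - y'‖ ≤ 4 * K ∧ ∃ g ∈ G, ∃ t : ℝ, |t| ≤ Q0 ∧
        ‖y - y' - g - t • w‖ ≤ 2 * K' := by
  classical
  obtain ⟨T, hTA, hTc, hTi⟩ := P5_reps G1 A2
  choose! Qx hQ1 hQ2 hQ3 using hq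
  have hex : ∀ (x : Sp d) (q : ℕ), ∃ F : Finset (Sp d),
      (∀ y ∈ F, N y ≠ 0 ∧ ‖y - z‖ ≤ 2 * K ∧ y - (x + (q : ℝ) • w) ∈ G) ∧
      fsum N G (x + (q : ℝ) • w) z (2 * K) ≤ ∑ y ∈ F, (N y : ℝ) := fun x q =>
    fsum_le_card hN (by linarith)
  choose Fx hF1 hF2 using hex
  set P : Finset (Σ _ : Sp d, ℕ) := T.sigma (fun x => Qx x) with hP
  set F := P.biUnion (fun s => Fx s.1 s.2) with hF
  have hdisj : (P : Set (Σ _ : Sp d, ℕ)).PairwiseDisjoint (fun s => Fx s.1 s.2) := by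
    rintro ⟨x, q⟩ hs ⟨x', q'⟩ hs' hne
    rw [Function.onFun, Finset.disjoint_left]
    intro l hl hl'
    have h1 := (hF1 x q l hl).2.2
    have h2 := (hF1 x' q' l hl').2.2
    rw [Finset.mem_coe, hP, Finset.mem_sigma] at hs hs'
    have h3 : x' - x + ((q' : ℝ) - q) • w ∈ G := by
      have : x' - x + ((q' : ℝ) - q) • w =
          (l - (x + (q : ℝ) • w)) - (l - (x' + (q' : ℝ) • w)) := by
        rw [sub_smul]; abel
      rw [this]
      exact sub_mem h1 h2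
    have h4 : ((q' : ℝ) - q) • w ∈ G1 := by
      have : ((q' : ℝ) - q) • w = (((q' : ℤ) - (q : ℤ) : ℤ)) • w := by
        rw [← Int.cast_smul_eq_zsmul ℝ]
        push_cast
        rfl
      rw [this]
      exact zsmul_mem hw _
    have h5 : x' - x ∈ G1 := by
      have := sub_mem (hGG h3) h4
      simpa using this
    have hxx : x = x' := hTi x hs.1 x' hs'.1 h5
    subst hxx
    by_cases hqq : q' = q
    · subst hqq
      exact hne rfl
    · apply hwG q' q hqq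
      simpa using h3
  refine ⟨F, ?_, ?_⟩
  · rw [hF, Finset.sum_biUnion hdisj, hP, Finset.sum_sigma]
    have h1 : ∀ x ∈ T, γ * β ≤ ∑ q ∈ Qx x, ∑ y ∈ Fx x q, (N y : ℝ) := by
      intro x hx
      calc γ * β ≤ (Qx x).card * β := mul_le_mul_of_nonneg_right (hQ2 x (hTA hx)) hβ
        _ = ∑ q ∈ Qx x, β := by rw [Finset.sum_const, nsmul_eq_mul]
        _ ≤ _ := Finset.sum_le_sum fun q hq => (hQ3 x (hTA hx) q hq).trans (hF2 x q)
    calc (nco G1 A2 : ℝ) * γ * β = ∑ x ∈ T, γ * β := by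
          rw [Finset.sum_const, nsmul_eq_mul, hTc]; ring
      _ ≤ _ := Finset.sum_le_sum h1
  · intro y hy y' hy'
    obtain ⟨⟨x, q⟩, hs, hyx⟩ := Finset.mem_biUnion.1 hy
    obtain ⟨⟨x', q'⟩, hs', hyx'⟩ := Finset.mem_biUnion.1 hy'
    rw [hP, Finset.mem_sigma] at hs hs'
    obtain ⟨-, h1, h2⟩ := hF1 x q y hyx
    obtain ⟨-, h1', h2'⟩ := hF1 x' q' y' hyx'
    constructor
    · have : y - y' = (y - z) - (y' - z) := by abel
      rw [this]
      refine (norm_sub_le _ _).trans ?_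
      linarith
    · refine ⟨_, sub_mem h2 h2', (q : ℝ) - q', ?_, ?_⟩
      · have hq1 := Finset.mem_Icc.1 (hQ1 x (hTA hs.1) hs.2)
        have hq2 := Finset.mem_Icc.1 (hQ1 x' (hTA hs'.1) hs'.2)
        have a1 : (1 : ℝ) ≤ q := by exact_mod_cast hq1.1
        have a2 : (q : ℝ) ≤ Q0 := by exact_mod_cast hq1.2
        have a3 : (1 : ℝ) ≤ q' := by exact_mod_cast hq2.1
        have a4 : (q' : ℝ) ≤ Q0 := by exact_mod_cast hq2.2
        rw [abs_le]
        constructor <;> linarith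
      · have : y - y' - (y - (x + (q : ℝ) • w) - (y' - (x' + (q' : ℝ) • w))) -
            ((q : ℝ) - q') • w = (x - z') - (x' - z') := by
          rw [sub_smul]; abel
        rw [this]
        refine (norm_sub_le _ _).trans ?_
        have b1 := h2z x (hTA hs.1)
        have b2 := h2z x' (hTA hs'.1)
        linarith

theorem P5_dif_finite (S : Finset (Sp d)) : (dif S).Finite := by
  classical
  refine ((S ×ˢ S).image (fun t => t.1 - t.2)).finite_toSet.subset ?_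
  rintro v ⟨a, ha, b, hb, rfl⟩
  rw [Finset.mem_coe, Finset.mem_image]
  exact ⟨(a, b), Finset.mem_product.2 ⟨ha, hb⟩, rfl⟩

theorem P5_scale {N : Sp d → ℕ} {C0 : ℕ} (hN : LocB N C0) {S : Finset (Sp d)} {O : Set (Mx d)}
    (hOF : O ⊆ FF (dif S)) (hfin : O.Finite) (hO : Rlz N (dif S) O) {p : Mx d} (hp : p ∈ O)
    {A : Sp d → ℝ} (hA : H3 S N p.1 A) {y : Sp d}
    (hy : open Classical in ∑ v ∈ S with v - y ∈ p.2, A v ≠ 0) :
    ∃ ε2 > 0, ∃ C2 K1 : ℝ, ∀ K' ≥ K1, ∃ w ∈ dif S, w ∉ p.2 ∧ ∃ z' A2,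
      Win N (dif S) (insert (p.1, p.2 ⊔ span ℚ {w}) O) ε2 C2 K' z' A2 := by
  classical
  have hD : (dif S).Finite := P5_dif_finite S
  have hpF : p ∈ FF (dif S) := hOF hp
  have hple := FF_le hpF
  have hpf := FF_fdq hD hpF
  have hrks : ∀ p' ∈ O, rk p' = finrank ℝ (rs p'.2) := fun p' hp' =>
    rlz_rk hN hO hp' (FF_le (hOF hp')) (FF_fdq hD (hOF hp'))
  have hrk := hrks p hp
  obtain ⟨ε, hε, C, hwin⟩ := hO
  obtain ⟨v0, hv0, -⟩ := Finset.exists_ne_zero_of_sum_ne_zero hy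
  rw [Finset.mem_filter] at hv0
  have h0 : ∑ v ∈ S with v - v0 ∈ p.2, A v ≠ 0 := by
    have : (S.filter fun v => v - v0 ∈ p.2) = S.filter fun v => v - y ∈ p.2 := by
      apply Finset.filter_congr
      intro v _
      have e : v - y = (v - v0) + (v0 - y) := by abel
      rw [e, Submodule.add_mem_iff_left _ hv0.2]
    rw [this]
    convert hy
  obtain ⟨b, hb, hrich⟩ := win_rich (N := N) (D := dif S) hfin (C := C) hε
  obtain ⟨b', hb', c, hc, hP5a⟩ := P5a hN hpF hrk hA hv0.1 (by convert h0) (half_pos hb)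
  set M : ℕ := Nat.factorial (2 ^ d) with hM
  have hM0 : 0 < M := Nat.factorial_pos _
  have hSne : S.Nonempty := ⟨v0, hv0.1⟩
  have hS0 : 0 < S.card := Finset.card_pos.2 hSne
  have hS0' : (0 : ℝ) < S.card := by exact_mod_cast hS0
  have hM0' : (0 : ℝ) < M := by exact_mod_cast hM0
  set c1 : ℝ := 1 / (M * S.card) with hc1
  have hc10 : 0 < c1 := by positivity
  set r : ℕ := finrank ℝ (rs p.2) with hr
  have hreg2 : ∀ p' : Mx d, ∃ C : ℝ, 0 < C ∧ ∀ K K' : ℝ, 1 ≤ K' → K' ≤ K →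
      ∀ F : Finset (Sp d),
      (∀ y ∈ F, ∀ y' ∈ F, ‖y - y'‖ ≤ K ∧ ∃ u ∈ rs p'.2, ‖y - y' - u‖ ≤ K') →
      (∑ y ∈ F, (N y : ℝ)) * K' ^ finrank ℝ (rs p'.2) ≤
        C * K ^ finrank ℝ (rs p'.2) * K' ^ d := fun p' => region2 hN (rs p'.2)
  choose R2 hR20 hR2 using hreg2
  have hreg3 : ∀ w : Sp d, ∃ C : ℝ, 0 < C ∧ (w ∉ rs p.2 → ∀ K Q K' : ℝ, 1 ≤ K' → K' ≤ Q →
      Q ≤ K → ∀ F : Finset (Sp d),
      (∀ y ∈ F, ∀ y' ∈ F, ‖y - y'‖ ≤ K ∧
        ∃ u ∈ rs p.2, ∃ t : ℝ, |t| ≤ Q ∧ ‖y - y' - u - t • w‖ ≤ K') →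
      (∑ y ∈ F, (N y : ℝ)) * K' ^ (r + 1) ≤ C * K ^ r * Q * K' ^ d) := by
    intro w
    by_cases hw : w ∈ rs p.2
    · exact ⟨1, one_pos, fun h => absurd hw h⟩
    · obtain ⟨C, hC, h⟩ := region3 hN (rs p.2) w hw
      exact ⟨C, hC, fun _ => h⟩
  choose R3 hR30 hR3 using hreg3
  set ε2 : ℝ := (ε / 2) / 4 ^ d / S.card with hε2
  set CO : ℝ := ∑ p' ∈ hfin.toFinset, R2 p' * 2 ^ d / b with hCO
  set CW : ℝ := ∑ w ∈ hD.toFinset, R3 w * 4 ^ r * 2 ^ d / (c1 * b' * 2 ^ (r + 1)) with hCW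
  have hCO0 : 0 ≤ CO := Finset.sum_nonneg fun p' _ => by have := hR20 p'; positivity
  have hCW0 : 0 ≤ CW := Finset.sum_nonneg fun w _ => by have := hR30 w; positivity
  set κ : ℝ := R2 p * 4 ^ r * 2 ^ d / (c1 * b') with hκ
  have hκ0 : 0 < κ := by have := hR20 p; positivity
  refine ⟨ε2, by positivity, CO + CW, 1 + κ, ?_⟩
  intro K' hK'
  have hK'1 : 1 ≤ K' := by linarith
  have hK'0 : 0 < K' := by linarith
  set Q0 : ℕ := ⌈2 * K' ^ (d + 1)⌉₊ with hQ0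
  have hQ0' : 2 * K' ^ (d + 1) ≤ Q0 := Nat.le_ceil _
  have hK'd : K' ≤ K' ^ (d + 1) := le_self_pow₀ hK'1 (Nat.succ_ne_zero d)
  obtain ⟨K, hK, z, A0, hW⟩ := hwin (max (max K' Q0) (Q0 / c))
  have hKK' : K' ≤ K := (le_max_left _ _).trans ((le_max_left _ _).trans hK)
  have hKQ : (Q0 : ℝ) ≤ K := (le_max_right _ _).trans ((le_max_left _ _).trans hK)
  have hKc : (Q0 : ℝ) ≤ c * K := by
    have := (le_max_right _ _).trans hK
    rw [div_le_iff₀ hc] at this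
    linarith
  have hK1 : 1 ≤ K := hK'1.trans hKK'
  have hK0 : 0 < K := by linarith
  obtain ⟨A1, hA1A, hA1c, hA1r⟩ := hrich K hK1 z A0 hW
  obtain ⟨z', hz'⟩ := avg_ball (half_pos hε) hK'1 hKK' z A1 (fun x hx => hW.ball x (hA1A hx)) hA1c
  set A1' : Finset (Sp d) := A1.filter (fun x => ‖x - z'‖ ≤ K') with hA1'
  set Q : Finset ℕ := (Finset.Icc 1 Q0).filter (fun q => Nat.Coprime q M) with hQ
  set G := grp (dif S) p with hG
  obtain ⟨v, hvS, A2, hA2, hA2c, hA2q⟩ := popular A1' Q S hSne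
    (fun x q v => v0 - v ∉ p.2 ∧ b' * K ^ rk p ≤ fsum N G (x + (q : ℝ) • (v0 - v)) z (2 * K)) (by
      intro x hx q hq
      rw [hA1', Finset.mem_filter] at hx
      rw [hQ, Finset.mem_filter, Finset.mem_Icc] at hq
      have h1 := hA1r x hx.1 p hp
      have h2 := card_le_fsum hN hK1 (G := G) (x := x) (z := z) (cls G A0 x) (by
        intro l hl
        rw [mem_cls] at hl
        exact ⟨hW.supp l hl.1, hW.ball l hl.1, hl.2⟩)
      have h3 : b / 2 * K ^ rk p ≤ fsum N G x z (2 * K) := by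
        refine le_trans ?_ h2
        rw [← hG] at h1
        linarith
      obtain ⟨v, hv, hv1, hv2⟩ := hP5a K hK1 z x h3 q hq.1.1 hq.2
        ((Nat.cast_le.2 hq.1.2).trans hKc)
      exact ⟨v, hv, hv1, hv2⟩)
  have hA2A1 : A2 ⊆ A1 := hA2.trans (Finset.filter_subset _ _)
  have hA2A : A2 ⊆ A0 := hA2A1.trans hA1A
  have hA2z : ∀ x ∈ A2, ‖x - z'‖ ≤ K' := fun x hx => (Finset.mem_filter.1 (hA2 hx)).2
  have hA2card : ε2 * K' ^ d ≤ A2.card := by
    have h1 : (A1'.card : ℝ) ≤ S.card * A2.card := by exact_mod_cast hA2c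
    have h2 : ε / 2 / 4 ^ d * K' ^ d ≤ S.card * A2.card := hz'.trans h1
    rw [hε2, div_mul_eq_mul_div, div_le_iff₀ hS0']
    linarith
  have hQcard : (Q0 : ℝ) ≤ M * Q.card := by exact_mod_cast coprime_count M hM0 Q0
  have hQ0pos : (0 : ℝ) < Q0 := lt_of_lt_of_le (by positivity) hQ0'
  set gd : Sp d → Finset ℕ := fun x => Q.filter (fun q : ℕ => v0 - v ∉ p.2 ∧
      b' * K ^ rk p ≤ fsum N G (x + (q : ℝ) • (v0 - v)) z (2 * K)) with hgd
  have hQx : ∀ x ∈ A2, c1 * Q0 ≤ ((gd x).card : ℝ) := by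
    intro x hx
    have h1 : (Q.card : ℝ) ≤ S.card * ((gd x).card : ℝ) := by
      have h1' : Q.card ≤ S.card * (gd x).card := by
        have := hA2q x hx
        convert this
      exact_mod_cast h1'
    rw [hc1, div_mul_eq_mul_div, one_mul, div_le_iff₀ (by positivity)]
    calc (Q0 : ℝ) ≤ M * Q.card := hQcard
      _ ≤ M * (S.card * _) := mul_le_mul_of_nonneg_left h1 hM0'.le
      _ = _ := by ring
  have hA2ne : A2.Nonempty := by
    rw [← Finset.card_pos]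
    have : (0 : ℝ) < A2.card := lt_of_lt_of_le (by positivity) hA2card
    exact_mod_cast this
  obtain ⟨x0, hx0⟩ := hA2ne
  have hwY : v0 - v ∉ p.2 := by
    have h1 := hQx x0 hx0
    have h2 : (0 : ℝ) < ((gd x0).card : ℝ) := lt_of_lt_of_le (by positivity) h1
    have h3 : 0 < (gd x0).card := by exact_mod_cast h2
    obtain ⟨q, hq⟩ := Finset.card_pos.1 h3
    exact (Finset.mem_filter.1 hq).2.1
  set w := v0 - v with hw
  have hwD : w ∈ dif S := ⟨v0, hv0.1, v, hvS, rfl⟩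
  refine ⟨w, hwD, hwY, z', A2, ?_⟩
  have hGp : ∀ g ∈ G, g ∈ p.2 := fun g hg => grp_le hple hg
  have hGU : ∀ g ∈ G, g ∈ rs p.2 := fun g hg => subset_span (hGp g hg)
  -- the group of the new space
  set p' : Mx d := (p.1, p.2 ⊔ span ℚ {w}) with hp'
  have hpp' : p ≤ p' := ⟨le_rfl, le_sup_left⟩
  have hGG : G ≤ grp (dif S) p' := grp_mono hpp'
  have hwG1 : w ∈ grp (dif S) p' := by
    refine AddSubgroup.mem_sup_right (AddSubgroup.subset_closure ⟨hwD, ?_⟩)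
    exact mem_sup_right (mem_span_singleton_self w)
  have hwG : ∀ q q' : ℕ, q ≠ q' → ((q : ℝ) - q') • w ∉ G := by
    intro q q' hqq hmem
    have h1 := hGp _ hmem
    apply hwY
    have h2 : ((q : ℚ) - q') ≠ 0 := by
      rw [sub_ne_zero]; exact_mod_cast hqq
    have h3 : ((q : ℝ) - q') • w = ((q : ℚ) - q') • w := by
      have : ((q : ℝ) - q') = (((q : ℚ) - q' : ℚ) : ℝ) := by push_cast; rfl
      rw [this, Rat.cast_smul_eq_qsmul]
    rw [h3] at h1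
    have h4 := p.2.smul_mem ((q : ℚ) - q')⁻¹ h1
    rwa [smul_smul, inv_mul_cancel₀ h2, one_smul] at h4
  obtain ⟨F, hF1, hF2⟩ := P5_step4 hN hGG hwG1 hwG hK1 hA2z (Q0 := Q0) (β := b' * K ^ r)
    (γ := c1 * Q0) (by positivity) (by
      intro x hx
      refine ⟨gd x, ?_, hQx x hx, ?_⟩
      · exact (Finset.filter_subset _ _).trans (Finset.filter_subset _ _)
      · intro q hq
        have := (Finset.mem_filter.1 hq).2.2
        rwa [hrk] at this)
  have hn1 : (1 : ℝ) ≤ nco (grp (dif S) p') A2 := by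
    have : 0 < nco (grp (dif S) p') A2 := by
      unfold nco
      exact Finset.card_pos.2 (Finset.Nonempty.image ⟨x0, hx0⟩ _)
    exact_mod_cast this
  set n : ℝ := (nco (grp (dif S) p') A2 : ℝ) with hn
  have hmain : n * K' ^ (r + 1) ≤ (R3 w * 4 ^ r * 2 ^ d / (c1 * b' * 2 ^ (r + 1))) * K' ^ d := by
    by_cases hwU : w ∈ rs p.2
    · exfalso
      have h1 := hR2 p (4 * K) (2 * K') (by linarith) (by linarith) F (by
        intro y hy y' hy'
        obtain ⟨h1, g, hg, t, -, h2⟩ := hF2 y hy y' hy'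
        refine ⟨h1, g + t • w, add_mem (hGU g hg) (smul_mem _ _ hwU), ?_⟩
        rwa [← sub_sub])
      rw [← hr] at h1
      have h2 : n * (c1 * Q0) * (b' * K ^ r) * (2 * K') ^ r ≤
          R2 p * (4 * K) ^ r * (2 * K') ^ d :=
        (mul_le_mul_of_nonneg_right hF1 (by positivity)).trans h1
      have h3 : K ^ r * (Q0 * (c1 * b')) ≤ K ^ r * (R2 p * 4 ^ r * 2 ^ d * K' ^ d) := by
        calc K ^ r * (Q0 * (c1 * b')) = 1 * (c1 * Q0) * (b' * K ^ r) * 1 := by ring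
          _ ≤ n * (c1 * Q0) * (b' * K ^ r) * (2 * K') ^ r := by
              have a1 : (1 : ℝ) ≤ (2 * K') ^ r := one_le_pow₀ (by linarith)
              have a2 : 0 ≤ (c1 * Q0) * (b' * K ^ r) := by positivity
              have a3 : 1 * (c1 * Q0) * (b' * K ^ r) ≤ n * (c1 * Q0) * (b' * K ^ r) := by
                have a4 := mul_le_mul_of_nonneg_right hn1 a2
                linarith
              exact mul_le_mul a3 a1 zero_le_one (by positivity)
          _ ≤ _ := h2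
          _ = _ := by rw [mul_pow, mul_pow]; ring
      have h4 := le_of_mul_le_mul_left h3 (by positivity)
      have h5 : (Q0 : ℝ) ≤ κ * K' ^ d := by
        rw [hκ, div_mul_eq_mul_div, le_div_iff₀ (by positivity)]
        exact h4
      have h6 : 2 * K' * K' ^ d ≤ κ * K' ^ d := by
        calc 2 * K' * K' ^ d = 2 * K' ^ (d + 1) := by ring
          _ ≤ Q0 := hQ0'
          _ ≤ _ := h5
      have h7 := le_of_mul_le_mul_right h6 (by positivity)
      linarith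
    · have h1 := hR3 w hwU (4 * K) Q0 (2 * K') (by linarith) (by linarith) (by linarith) F (by
        intro y hy y' hy'
        obtain ⟨h1, g, hg, t, ht, h2⟩ := hF2 y hy y' hy'
        exact ⟨h1, g, hGU g hg, t, ht, h2⟩)
      have h2 : n * (c1 * Q0) * (b' * K ^ r) * (2 * K') ^ (r + 1) ≤
          R3 w * (4 * K) ^ r * Q0 * (2 * K') ^ d :=
        (mul_le_mul_of_nonneg_right hF1 (by positivity)).trans h1
      have h3 : (K ^ r * Q0) * (n * K' ^ (r + 1) * (c1 * b' * 2 ^ (r + 1))) ≤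
          (K ^ r * Q0) * (R3 w * 4 ^ r * 2 ^ d * K' ^ d) := by
        calc (K ^ r * Q0) * (n * K' ^ (r + 1) * (c1 * b' * 2 ^ (r + 1)))
            = n * (c1 * Q0) * (b' * K ^ r) * (2 * K') ^ (r + 1) := by rw [mul_pow]; ring
          _ ≤ _ := h2
          _ = _ := by rw [mul_pow, mul_pow]; ring
      have h4 := le_of_mul_le_mul_left h3 (by positivity)
      rw [div_mul_eq_mul_div, le_div_iff₀ (by positivity)]
      exact h4
  refine ⟨fun x hx => hW.supp x (hA2A hx), hA2z, hA2card, ?_⟩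
  intro pi hpi
  rcases hpi with rfl | hpi
  · have h1 : rk p' ≤ r + 1 := by
      have := rk_adjoin_le p hpf w
      rw [hrk] at this
      exact this
    have h2 : K' ^ rk p' ≤ K' ^ (r + 1) := pow_le_pow_right₀ hK'1 h1
    have h3 : R3 w * 4 ^ r * 2 ^ d / (c1 * b' * 2 ^ (r + 1)) ≤ CW := by
      refine Finset.single_le_sum (f := fun w => R3 w * 4 ^ r * 2 ^ d / (c1 * b' * 2 ^ (r + 1)))
        (fun w _ => ?_) (hD.mem_toFinset.2 hwD)
      have := hR30 w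
      positivity
    calc n * K' ^ rk p' ≤ n * K' ^ (r + 1) := mul_le_mul_of_nonneg_left h2 (by linarith)
      _ ≤ _ := hmain
      _ ≤ (CO + CW) * K' ^ d := mul_le_mul_of_nonneg_right (by linarith) (by positivity)
  · have h1 := P5_step5 (rs pi.2) (hR2 pi) (G := grp (dif S) pi)
      (fun g hg => subset_span (grp_le (FF_le (hOF hpi)) hg)) hK'1 hKK' (fun x hx => hW.supp x hx)
      (fun x hx => hW.ball x hx) hA2z hb (by
        intro x hx
        have := hA1r x (hA2A1 hx) pi hpi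
        rwa [hrks pi hpi] at this)
    rw [← hrks pi hpi] at h1
    have h3 : R2 pi * 2 ^ d / b ≤ CO := by
      refine Finset.single_le_sum (f := fun p' => R2 p' * 2 ^ d / b)
        (fun w _ => ?_) (hfin.mem_toFinset.2 hpi)
      have := hR20 w
      positivity
    exact h1.trans (mul_le_mul_of_nonneg_right (by linarith) (by positivity))

theorem P5 {N : Sp d → ℕ} {C0 : ℕ} (hN : LocB N C0) {S : Finset (Sp d)} {O : Set (Mx d)}
    (hOF : O ⊆ FF (dif S)) (hfin : O.Finite) (hO : Rlz N (dif S) O) {p : Mx d} (hp : p ∈ O)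
    {A : Sp d → ℝ} (hA : H3 S N p.1 A) {y : Sp d}
    (hy : open Classical in ∑ v ∈ S with v - y ∈ p.2, A v ≠ 0) :
    ∃ v ∈ dif S, v ∉ p.2 ∧ Rlz N (dif S) (insert (p.1, p.2 ⊔ span ℚ {v}) O) := by
  classical
  obtain ⟨ε2, hε2, C2, K1, hsc⟩ := P5_scale hN hOF hfin hO hp hA hy
  by_contra hcon
  push Not at hcon
  have h1 : ∀ w : Sp d, ∃ K0 : ℝ, w ∈ dif S → w ∉ p.2 → ∀ K ≥ K0, ∀ z' A2,
      ¬ Win N (dif S) (insert (p.1, p.2 ⊔ span ℚ {w}) O) ε2 C2 K z' A2 := by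
    intro w
    by_cases hw : w ∈ dif S ∧ w ∉ p.2
    · have h2 := hcon w hw.1 hw.2
      unfold Rlz at h2
      push Not at h2
      obtain ⟨K0, hK0⟩ := h2 ε2 hε2 C2
      exact ⟨K0, fun _ _ K hK z' A2 => hK0 K hK z' A2⟩
    · exact ⟨0, fun a b => absurd ⟨a, b⟩ hw⟩
  choose K0 hK0 using h1
  have hD : (dif S).Finite := P5_dif_finite S
  obtain ⟨B, hB⟩ := (hD.image K0).bddAbove
  obtain ⟨w, hwD, hwY, z', A2, hW⟩ := hsc (max K1 B) (le_max_left _ _)
  exact hK0 w hwD hwY (max K1 B) ((hB ⟨w, hwD, rfl⟩).trans (le_max_right _ _)) z' A2 hW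

end Pool.Agent.MT
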