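import Pool.Agent.H75.MT.H3G

/-!
# STR module P5a: preparations for P5

* `P5a`.  `G = grp D p`, `F y = fsum N G y z (2 K)`, `a = ∑ {A v : v ∈ S, v - v0 ∈ Y} ≠ 0`.  Apply `H3G`
  (`R = 2 K`) at the point `x + q v0`: `2 K |∑_{v ∈ S} A v * F (x + q (v0 - v))| ≤ C q (2 K)^r`.  For
  `v - v0 ∈ Y`: `v0 - v ∈ D ∩ Y ⊆ G`, so `F (x + q (v0 - v)) = F x` (`fsum_congr`).  So
  `|a| F x ≤ ∑_{v ∈ S, v - v0 ∉ Y} |A v| F (x + q (v0 - v)) + C q (2 K)^r / (2 K)`; the last term is
  `≤ C c (2 K)^r ≤ (|a| b / 2) K^r` if `c` is small; `F x ≥ b K^r`.  So one of the terms of the sum is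
  `≥ |a| b K^r / (2 |S| + 2)`; put `b' = |a| b / ((2 |S| + 2) (1 + max |A v|))`.
* `avg_ball`: the cubes `{x : ⌊(x i - z i) / K'⌋ = n i}` have diameter `≤ K'` (sup norm), at most
  `(2 K / K' + 2)^d ≤ (4 K / K')^d` of them meet the ball; take the most popular one and `z'` one of
  its points of `A` (if `A = ∅` then `ε K^d ≤ 0`, impossible unless ... `ε > 0`, `K ≥ 1`).
* `popular`: for every `x ∈ X` choose by pigeonhole `v x ∈ S` with
  `|Q| ≤ |S| * |{q ∈ Q : r x q (v x)}|`, then the most popular value of `v`.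
* `coprime_count`: the numbers `1 + j M`, `j ≤ (Q - 1) / M`, are coprime to `M`.
-/

namespace Pool.Agent.MT

open Module Submodule

variable {d : ℕ}

theorem P5a {N : Sp d → ℕ} {C0 : ℕ} (hN : LocB N C0) {S : Finset (Sp d)} {p : Mx d}
    (hp : p ∈ FF (dif S)) (hrk : rk p = finrank ℝ (rs p.2)) {A : Sp d → ℝ}
    (hA : H3 S N p.1 A) {v0 : Sp d} (hv0 : v0 ∈ S)
    (h0 : open Classical in ∑ v ∈ S with v - v0 ∈ p.2, A v ≠ 0) {b : ℝ} (hb : 0 < b) :
    ∃ b' : ℝ, 0 < b' ∧ ∃ c : ℝ, 0 < c ∧ ∀ K : ℝ, 1 ≤ K → ∀ z x : Sp d,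
      b * K ^ rk p ≤ fsum N (grp (dif S) p) x z (2 * K) →
      ∀ q : ℕ, 1 ≤ q → Nat.Coprime q (Nat.factorial (2 ^ d)) → (q : ℝ) ≤ c * K →
      ∃ v ∈ S, v0 - v ∉ p.2 ∧
        b' * K ^ rk p ≤ fsum N (grp (dif S) p) (x + (q : ℝ) • (v0 - v)) z (2 * K) := by
  classical
  obtain ⟨C, hC⟩ := H3G hN hp hrk hA
  set r : ℕ := rk p with hr
  set G := grp (dif S) p with hG
  set a : ℝ := ∑ v ∈ S with v - v0 ∈ p.2, A v with ha
  have ha0 : a ≠ 0 := by
    intro h; apply h0; rw [ha] at h; convert h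
  have ha1 : 0 < |a| := abs_pos.2 ha0
  set C' : ℝ := max C 0 with hC'
  have hC'0 : 0 ≤ C' := le_max_right _ _
  set As : ℝ := ∑ v ∈ S, |A v| with hAs
  have hAs0 : 0 ≤ As := Finset.sum_nonneg fun _ _ => abs_nonneg _
  refine ⟨|a| * b / (4 * (1 + As)), by positivity, min 1 (|a| * b / (C' * 2 ^ r + 1)),
    lt_min one_pos (by positivity), ?_⟩
  intro K hK z x hx q hq hcop hqK
  set c : ℝ := min 1 (|a| * b / (C' * 2 ^ r + 1)) with hc
  have hK0 : 0 < K := by linarith
  have hc1 : c ≤ 1 := min_le_left _ _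
  have hc2 : c * (C' * 2 ^ r + 1) ≤ |a| * b := by
    have : c ≤ |a| * b / (C' * 2 ^ r + 1) := min_le_right _ _
    rwa [le_div_iff₀ (by positivity)] at this
  have hc0 : 0 < c := lt_min one_pos (by positivity)
  have hq2 : (q : ℝ) ≤ 2 * K := by nlinarith
  set F : Sp d → ℝ := fun v => fsum N G (x + (q : ℝ) • (v0 - v)) z (2 * K) with hF
  have hF0 : ∀ v, 0 ≤ F v := fun v => fsum_nonneg _ _ _
  set Fx : ℝ := fsum N G x z (2 * K) with hFx
  -- the main inequality
  have h1 := hC q hq hcop (x + (q : ℝ) • v0) z (2 * K) hq2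
  have h2 : ∀ v, x + (q : ℝ) • v0 - (q : ℝ) • v = x + (q : ℝ) • (v0 - v) := by
    intro v; rw [smul_sub]; abel
  simp only [h2] at h1
  have hgood : ∀ v ∈ S, v - v0 ∈ p.2 → F v = Fx := by
    intro v hv hvp
    have hw : v0 - v ∈ p.2 := by
      have := neg_mem hvp; rwa [neg_sub] at this
    have hw2 : v0 - v ∈ G := by
      rw [hG]
      refine (le_sup_right : _ ≤ p.1.toAddSubgroup ⊔ AddSubgroup.closure _) ?_
      exact AddSubgroup.subset_closure ⟨⟨v0, hv0, v, hv, rfl⟩, hw⟩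
    have hw3 : (q : ℝ) • (v0 - v) ∈ G := by
      rw [Nat.cast_smul_eq_nsmul]; exact nsmul_mem hw2 q
    rw [hF, hFx]
    simp only
    exact (fsum_congr (by rwa [add_sub_cancel_left]) z (2 * K)).symm
  set B : ℝ := ∑ v ∈ S with ¬ (v - v0 ∈ p.2), A v * F v with hB
  have h3 : ∑ v ∈ S, A v * F v = a * Fx + B := by
    rw [← Finset.sum_filter_add_sum_filter_not S (fun v => v - v0 ∈ p.2), ha, Finset.sum_mul, hB]
    congr 1
    refine Finset.sum_congr rfl fun v hv => ?_
    rw [Finset.mem_filter] at hv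
    rw [hgood v hv.1 hv.2]
  rw [show (∑ v ∈ S, A v * fsum N G (x + (q : ℝ) • (v0 - v)) z (2 * K)) = a * Fx + B from h3] at h1
  have h4 : |a * Fx + B| ≤ |a| * b / 2 * K ^ r := by
    have h5 : 2 * K * |a * Fx + B| ≤ C' * (c * K) * (2 * K) ^ r := by
      refine h1.trans ?_
      have h6 : C * q ≤ C' * (c * K) := by
        have h7 : C * q ≤ C' * q := mul_le_mul_of_nonneg_right (le_max_left _ _) (by positivity)
        exact h7.trans (mul_le_mul_of_nonneg_left hqK hC'0)
      exact mul_le_mul_of_nonneg_right h6 (by positivity)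
    rw [mul_pow] at h5
    have h8 : C' * (c * K) * (2 ^ r * K ^ r) = K * (c * (C' * 2 ^ r) * K ^ r) := by ring
    rw [h8] at h5
    have h9 : 2 * |a * Fx + B| ≤ c * (C' * 2 ^ r) * K ^ r := by
      have : K * (2 * |a * Fx + B|) ≤ K * (c * (C' * 2 ^ r) * K ^ r) := by linarith
      exact le_of_mul_le_mul_left this hK0
    have h10 : c * (C' * 2 ^ r) ≤ |a| * b := by nlinarith
    have h11 : c * (C' * 2 ^ r) * K ^ r ≤ |a| * b * K ^ r :=
      mul_le_mul_of_nonneg_right h10 (by positivity)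
    linarith
  by_contra hcon
  push Not at hcon
  have h12 : |B| ≤ |a| * b / 4 * K ^ r := by
    have h13 : |B| ≤ ∑ v ∈ S, |A v| * (|a| * b / (4 * (1 + As)) * K ^ r) := by
      rw [hB]
      refine (Finset.abs_sum_le_sum_abs _ _).trans ?_
      refine le_trans (Finset.sum_le_sum (g := fun v => |A v| * (|a| * b / (4 * (1 + As)) * K ^ r))
        ?_) (Finset.sum_le_sum_of_subset_of_nonneg (Finset.filter_subset _ _)
        (fun v _ _ => by positivity))
      intro v hv
      rw [Finset.mem_filter] at hv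
      rw [abs_mul, abs_of_nonneg (hF0 v)]
      refine mul_le_mul_of_nonneg_left ?_ (abs_nonneg _)
      refine (hcon v hv.1 ?_).le
      intro h14; apply hv.2
      have := neg_mem h14; rwa [neg_sub] at this
    rw [← Finset.sum_mul, ← hAs] at h13
    refine h13.trans ?_
    have h15 : As * (|a| * b / (4 * (1 + As)) * K ^ r) =
        (As / (1 + As)) * (|a| * b / 4 * K ^ r) := by
      field_simp
    rw [h15]
    have h16 : As / (1 + As) ≤ 1 := by
      rw [div_le_one (by positivity)]; linarith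
    have h17 : 0 ≤ |a| * b / 4 * K ^ r := by positivity
    nlinarith
  have h18 : |a| * Fx ≤ |a * Fx + B| + |B| := by
    have h19 : |a * Fx| ≤ |a * Fx + B| + |B| := by
      have := abs_sub (a * Fx + B) B
      rwa [add_sub_cancel_right] at this
    rwa [abs_mul, abs_of_nonneg (fsum_nonneg (N := N) (G := G) x z (2 * K))] at h19
  have h20 : |a| * (b * K ^ r) ≤ |a| * Fx := mul_le_mul_of_nonneg_left hx ha1.le
  have h21 : 0 < |a| * b * K ^ r := by positivity
  nlinarith

theorem avg_ball {ε : ℝ} (hε : 0 < ε) {K K' : ℝ} (hK' : 1 ≤ K') (hK : K' ≤ K) (z : Sp d)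
    (A : Finset (Sp d)) (hA : ∀ x ∈ A, ‖x - z‖ ≤ K) (hc : ε * K ^ d ≤ A.card) :
    ∃ z' : Sp d, (ε / 4 ^ d) * K' ^ d ≤ ((A.filter (fun x => ‖x - z'‖ ≤ K')).card : ℝ) := by
  classical
  have hK'0 : 0 < K' := by linarith
  have hK0 : 0 < K := by linarith
  set T : ℝ := K / K' with hT
  have hT1 : 1 ≤ T := by rw [hT, le_div_iff₀ hK'0]; linarith
  set f : Sp d → (Fin d → ℤ) := fun x i => ⌊(x i - z i) / K'⌋ with hf
  set t : Finset (Fin d → ℤ) := Fintype.piFinset fun _ => Finset.Icc ⌊-T⌋ ⌊T⌋ with ht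
  have hmap : ∀ x ∈ A, f x ∈ t := by
    intro x hx
    rw [ht, Fintype.mem_piFinset]
    intro i
    rw [Finset.mem_Icc]
    have h1 : |x i - z i| ≤ K := by
      have := norm_le_pi_norm (x - z) i
      rw [Real.norm_eq_abs, Pi.sub_apply] at this
      exact this.trans (hA x hx)
    rw [abs_le] at h1
    refine ⟨Int.floor_le_floor ?_, Int.floor_le_floor ?_⟩
    · rw [hT, ← neg_div]
      exact div_le_div_of_nonneg_right h1.1 hK'0.le
    · rw [hT]
      exact div_le_div_of_nonneg_right h1.2 hK'0.le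
  have htne : t.Nonempty := by
    rw [ht, Fintype.piFinset_nonempty]
    intro i
    rw [Finset.nonempty_Icc]
    exact Int.floor_le_floor (by linarith)
  have hcard : (t.card : ℝ) ≤ (4 * T) ^ d := by
    rw [ht, Fintype.card_piFinset, Finset.prod_const, Finset.card_univ, Fintype.card_fin,
      Int.card_Icc]
    push_cast
    refine pow_le_pow_left₀ (by positivity) ?_ d
    have h1 : ((⌊T⌋ + 1 - ⌊-T⌋).toNat : ℝ) = ((⌊T⌋ + 1 - ⌊-T⌋ : ℤ) : ℝ) := by
      have : (0 : ℤ) ≤ ⌊T⌋ + 1 - ⌊-T⌋ := by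
        have := Int.floor_le_floor (show -T ≤ T by linarith)
        omega
      rw [← Int.cast_natCast, Int.toNat_of_nonneg this]
    rw [h1]
    push_cast
    have h2 := Int.floor_le T
    have h3 := Int.lt_floor_add_one (-T)
    linarith
  have hb : t.card • ((ε / 4 ^ d) * K' ^ d) ≤ (A.card : ℝ) := by
    rw [nsmul_eq_mul]
    refine le_trans (mul_le_mul_of_nonneg_right hcard (by positivity)) (le_trans (le_of_eq ?_) hc)
    rw [mul_pow, hT, div_pow]
    field_simp
  obtain ⟨y, hy, hyc⟩ := Finset.exists_le_card_fiber_of_nsmul_le_card_of_maps_to hmap htne hb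
  have hpos : 0 < (ε / 4 ^ d) * K' ^ d := by positivity
  have hne : (A.filter (fun x => f x = y)).Nonempty := by
    rw [← Finset.card_pos]
    have : (0 : ℝ) < ((A.filter (fun x => f x = y)).card : ℝ) := lt_of_lt_of_le hpos hyc
    exact_mod_cast this
  obtain ⟨x0, hx0⟩ := hne
  rw [Finset.mem_filter] at hx0
  refine ⟨x0, hyc.trans ?_⟩
  refine Nat.cast_le.2 (Finset.card_le_card ?_)
  intro x hx
  rw [Finset.mem_filter] at hx ⊢
  refine ⟨hx.1, ?_⟩
  rw [pi_norm_le_iff_of_nonneg hK'0.le]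
  intro i
  rw [Real.norm_eq_abs, Pi.sub_apply]
  have h1 : f x i = f x0 i := by rw [hx.2, hx0.2]
  have h2 : |(x i - z i) / K' - (x0 i - z i) / K'| < 1 := Int.abs_sub_lt_one_of_floor_eq_floor h1
  rw [← sub_div, sub_sub_sub_cancel_right, abs_div, abs_of_pos hK'0, div_lt_one hK'0] at h2
  exact h2.le

theorem popular {α β γ : Type*} (X : Finset α) (Q : Finset β) (S : Finset γ) (hS : S.Nonempty)
    (r : α → β → γ → Prop) (h : ∀ x ∈ X, ∀ q ∈ Q, ∃ v ∈ S, r x q v) :
    open Classical in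
    ∃ v ∈ S, ∃ X' ⊆ X, X.card ≤ S.card * X'.card ∧
      ∀ x ∈ X', Q.card ≤ S.card * (Q.filter (fun q => r x q v)).card := by
  classical
  have hS0 : 0 < S.card := hS.card_pos
  have h1 : ∀ x : α, ∃ v ∈ S, x ∈ X → Q.card ≤ S.card * (Q.filter (fun q => r x q v)).card := by
    intro x
    by_cases hx : x ∈ X
    · by_contra hcon
      push Not at hcon
      have h2 : Q.card ≤ ∑ v ∈ S, (Q.filter (fun q => r x q v)).card := by
        refine le_trans (Finset.card_le_card ?_) Finset.card_biUnion_le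
        intro q hq
        obtain ⟨v, hv, hr⟩ := h x hx q hq
        rw [Finset.mem_biUnion]
        exact ⟨v, hv, Finset.mem_filter.2 ⟨hq, hr⟩⟩
      have h3 : ∑ v ∈ S, S.card * (Q.filter (fun q => r x q v)).card < ∑ v ∈ S, Q.card :=
        Finset.sum_lt_sum_of_nonempty hS fun v hv => (hcon v hv).2
      rw [← Finset.mul_sum, Finset.sum_const, smul_eq_mul] at h3
      have h4 := Nat.mul_le_mul_left S.card h2
      omega
    · obtain ⟨v, hv⟩ := hS
      exact ⟨v, hv, fun h => absurd h hx⟩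
  choose g hg1 hg2 using h1
  have h5 : ∃ v ∈ S, X.card ≤ S.card * (X.filter (fun x => g x = v)).card := by
    by_contra hcon
    push Not at hcon
    have h6 : X.card = ∑ v ∈ S, (X.filter (fun x => g x = v)).card :=
      Finset.card_eq_sum_card_fiberwise fun x _ => hg1 x
    have h7 : ∑ v ∈ S, S.card * (X.filter (fun x => g x = v)).card < ∑ v ∈ S, X.card :=
      Finset.sum_lt_sum_of_nonempty hS hcon
    rw [← Finset.mul_sum, ← h6, Finset.sum_const, smul_eq_mul] at h7
    exact lt_irrefl _ h7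
  obtain ⟨v, hv, hX⟩ := h5
  refine ⟨v, hv, X.filter (fun x => g x = v), Finset.filter_subset _ _, hX, ?_⟩
  intro x hx
  rw [Finset.mem_filter] at hx
  have := hg2 x hx.1
  rwa [hx.2] at this

theorem coprime_count (M : ℕ) (hM : 0 < M) (Q : ℕ) :
    Q ≤ M * ((Finset.Icc 1 Q).filter (fun q => Nat.Coprime q M)).card := by
  classical
  rcases Nat.eq_zero_or_pos Q with hQ | hQ
  · subst hQ; exact Nat.zero_le _
  have h1 : (Q - 1) / M + 1 ≤ ((Finset.Icc 1 Q).filter (fun q => Nat.Coprime q M)).card := by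
    have h2 : ((Finset.range ((Q - 1) / M + 1)).image (fun j => 1 + j * M)).card =
        (Q - 1) / M + 1 := by
      rw [Finset.card_image_of_injective, Finset.card_range]
      intro i j hij
      simp only [add_right_inj] at hij
      exact Nat.eq_of_mul_eq_mul_right hM hij
    rw [← h2]
    refine Finset.card_le_card ?_
    intro q hq
    rw [Finset.mem_image] at hq
    obtain ⟨j, hj, rfl⟩ := hq
    rw [Finset.mem_range] at hj
    rw [Finset.mem_filter, Finset.mem_Icc]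
    refine ⟨⟨by omega, ?_⟩, ?_⟩
    · have h3 : j * M ≤ Q - 1 := by
        have h4 : j ≤ (Q - 1) / M := by omega
        exact (Nat.le_div_iff_mul_le hM).1 h4
      omega
    · simp
  have h5 : Q ≤ M * ((Q - 1) / M + 1) := by
    have h6 := Nat.div_add_mod (Q - 1) M
    have h7 := Nat.mod_lt (Q - 1) hM
    have h8 : M * ((Q - 1) / M + 1) = M * ((Q - 1) / M) + M := by ring
    omega
  exact h5.trans (Nat.mul_le_mul_left M h1)

end Pool.Agent.MT
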