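import Pool.Agent.H75.MT.Defs

/-!
# STR module Rank: ranks of mixed spaces (pure linear algebra)

`p = (X, Y)`, `rq X ≤ Y`, `dq p = dim_ℚ (Y / X)` is the `ℚ`-dimension of the image of `Y` in `E / X`,
`rk p = dim_ℝ X + dq p`, `rs Y = span_ℝ Y`.

* `rs_le_rk`: choose `y_1 .. y_m ∈ Y` whose images form a `ℚ`-basis of `Y / X`, `m = dq p`.  Then
  `Y = X + ∑ ℚ y_i`, so `rs Y = X + ∑ ℝ y_i`, `dim ≤ dim X + m`.
* `rk_sup_le`: the map `(Y / X) × (Y' / X') → (Y + Y') / (X + X')` (sum) is onto; its kernel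
  contains the image of the injective map `(Y ∩ Y') / (X ∩ X') → (Y / X) × (Y' / X')`,
  `g ↦ (g, -g)` (injective since `g ∈ X` and `g ∈ X'` imply `g ∈ X ∩ X'`).  So
  `dq (p ⊔ p') + dim_ℚ ((Y ∩ Y') / (X ∩ X')) ≤ dq p + dq p'`.  With
  `dim (X + X') + dim (X ∩ X') = dim X + dim X'` and `rs_le_rk` for the pair
  `(X ∩ X', Y ∩ Y')` (its quotient embeds in `Y / X × Y' / X'`, so it is finite dimensional) the
  claim follows.
* `rk_adjoin_le`: `(Y + ℚ v) / X` is spanned by `Y / X` and one more element.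
* `FF_fdq`: `Y / X` is spanned by the images of the finite set `D2`.
-/

namespace Pool.Agent.MT

open Module Submodule

variable {d : ℕ}

/-- `Y / X` is finite dimensional over `ℚ`. -/
def FDq (p : Mx d) : Prop := Module.Finite ℚ (p.2.map (p.1.mkQ.restrictScalars ℚ))

theorem FF_le {D : Set (Sp d)} {p : Mx d} (hp : p ∈ FF D) : rq p.1 ≤ p.2 := by
  obtain ⟨_, D2, _, h⟩ := hp
  rw [h]; exact le_sup_left

/-- generators give finiteness and a bound -/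
private theorem Rank_map_rq (X : Submodule ℝ (Sp d)) :
    (rq X).map (X.mkQ.restrictScalars ℚ) = ⊥ := by
  rw [eq_bot_iff]
  rintro _ ⟨x, hx, rfl⟩
  have hx' : x ∈ X := hx
  rw [Submodule.mem_bot]
  change X.mkQ x = 0
  rw [Submodule.mkQ_apply, Submodule.Quotient.mk_eq_zero]
  exact hx'

theorem FF_fdq {D : Set (Sp d)} (hD : D.Finite) {p : Mx d} (hp : p ∈ FF D) : FDq p := by
  obtain ⟨_, D2, h2, h⟩ := hp
  unfold FDq
  rw [h, Submodule.map_sup, Rank_map_rq, bot_sup_eq, Submodule.map_span]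
  exact Module.Finite.iff_fg.2 (Submodule.fg_span ((hD.subset h2).image _))

/-- choice of generators -/
private theorem Rank_gens (p : Mx d) (hf : FDq p) :
    ∃ y : Fin (dq p) → Sp d, (∀ i, y i ∈ p.2) ∧ p.2 ≤ rq p.1 ⊔ span ℚ (Set.range y) := by
  have hf' : Module.Finite ℚ (p.2.map (p.1.mkQ.restrictScalars ℚ)) := hf
  let b : Basis (Fin (dq p)) ℚ (p.2.map (p.1.mkQ.restrictScalars ℚ)) :=
    Module.finBasis ℚ (p.2.map (p.1.mkQ.restrictScalars ℚ))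
  have hy : ∀ i : Fin (dq p), ∃ y ∈ p.2, p.1.mkQ.restrictScalars ℚ y = (b i : Sp d ⧸ p.1) := by
    intro i
    exact (b i).2
  choose y hy1 hy2 using hy
  refine ⟨y, hy1, ?_⟩
  intro v hv
  have hex : ∃ c : Fin (dq p) → ℚ, p.1.mkQ.restrictScalars ℚ v = ∑ i, c i • (b i : Sp d ⧸ p.1) := by
    have hmem : p.1.mkQ.restrictScalars ℚ v ∈ p.2.map (p.1.mkQ.restrictScalars ℚ) := ⟨v, hv, rfl⟩
    have hrep := b.sum_repr ⟨_, hmem⟩
    refine ⟨fun i => b.repr ⟨_, hmem⟩ i, ?_⟩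
    have h1 := congrArg (Submodule.subtype (p.2.map (p.1.mkQ.restrictScalars ℚ))) hrep
    rw [map_sum] at h1
    exact h1.symm
  obtain ⟨c, hc⟩ := hex
  set w : Sp d := ∑ i, c i • y i with hw
  have hmap : p.1.mkQ.restrictScalars ℚ w = p.1.mkQ.restrictScalars ℚ v := by
    rw [hw, map_sum, hc]
    refine Finset.sum_congr rfl fun i _ => ?_
    rw [map_smul, hy2]
  have hker : v - w ∈ p.1 := by
    have h0 : p.1.mkQ (v - w) = 0 := by
      rw [map_sub, sub_eq_zero]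
      exact hmap.symm
    rwa [Submodule.mkQ_apply, Submodule.Quotient.mk_eq_zero] at h0
  have hwspan : w ∈ span ℚ (Set.range y) := by
    rw [hw]
    exact Submodule.sum_mem _ fun i _ => Submodule.smul_mem _ _ (subset_span ⟨i, rfl⟩)
  have : v = (v - w) + w := by abel
  rw [this]
  exact Submodule.add_mem_sup hker hwspan

theorem rs_le_rk (p : Mx d) (h : rq p.1 ≤ p.2) (hf : FDq p) :
    finrank ℝ (rs p.2) ≤ rk p := by
  obtain ⟨y, _, hy2⟩ := Rank_gens p hf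
  have hle : rs p.2 ≤ p.1 ⊔ span ℝ (Set.range y) := by
    rw [Submodule.span_le]
    intro v hv
    obtain ⟨a, ha, b, hb, rfl⟩ := Submodule.mem_sup.1 (hy2 hv)
    have hb' : b ∈ span ℝ (Set.range y) := by
      have h1 : span ℚ (Set.range y) ≤ (span ℝ (Set.range y)).restrictScalars ℚ := by
        rw [Submodule.span_le]
        exact fun z hz => subset_span hz
      exact h1 hb
    exact Submodule.add_mem_sup ha hb'
  have h1 : finrank ℝ (rs p.2) ≤ finrank ℝ (p.1 ⊔ span ℝ (Set.range y) : Submodule ℝ (Sp d)) :=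
    Submodule.finrank_mono hle
  have h2 := Submodule.finrank_add_le_finrank_add_finrank p.1 (span ℝ (Set.range y))
  have h3 : finrank ℝ (span ℝ (Set.range y)) ≤ dq p := by
    have := finrank_range_le_card (R := ℝ) y
    rw [Fintype.card_fin] at this
    exact this
  unfold rk
  omega

/-- the submodularity of `dq` -/
private theorem Rank_dq_submod (p p' : Mx d) (hf : FDq p) (hf' : FDq p') :
    FDq (p ⊓ p') ∧ dq (p ⊔ p') + dq (p ⊓ p') ≤ dq p + dq p' := by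
  have i1 : Module.Finite ℚ (p.2.map (p.1.mkQ.restrictScalars ℚ)) := hf
  have i2 : Module.Finite ℚ (p'.2.map (p'.1.mkQ.restrictScalars ℚ)) := hf'
  -- the maps
  let q1 : (Sp d ⧸ p.1) →ₗ[ℝ] (Sp d ⧸ (p.1 ⊔ p'.1)) :=
    Submodule.factor (le_sup_left : p.1 ≤ p.1 ⊔ p'.1)
  let q2 : (Sp d ⧸ p'.1) →ₗ[ℝ] (Sp d ⧸ (p.1 ⊔ p'.1)) :=
    Submodule.factor (le_sup_right : p'.1 ≤ p.1 ⊔ p'.1)
  let r1 : (Sp d ⧸ (p.1 ⊓ p'.1)) →ₗ[ℝ] (Sp d ⧸ p.1) :=
    Submodule.factor (inf_le_left : p.1 ⊓ p'.1 ≤ p.1)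
  let r2 : (Sp d ⧸ (p.1 ⊓ p'.1)) →ₗ[ℝ] (Sp d ⧸ p'.1) :=
    Submodule.factor (inf_le_right : p.1 ⊓ p'.1 ≤ p'.1)
  set U1 : Submodule ℚ (Sp d ⧸ p.1) := p.2.map (p.1.mkQ.restrictScalars ℚ) with hU1
  set U2 : Submodule ℚ (Sp d ⧸ p'.1) := p'.2.map (p'.1.mkQ.restrictScalars ℚ) with hU2
  set U0 : Submodule ℚ (Sp d ⧸ (p.1 ⊓ p'.1)) :=
    (p.2 ⊓ p'.2).map ((p.1 ⊓ p'.1).mkQ.restrictScalars ℚ) with hU0
  let s : (U1 × U2) →ₗ[ℚ] (Sp d ⧸ (p.1 ⊔ p'.1)) :=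
    LinearMap.coprod ((q1.restrictScalars ℚ).domRestrict U1) ((q2.restrictScalars ℚ).domRestrict U2)
  have hr1 : ∀ x ∈ U0, r1.restrictScalars ℚ x ∈ U1 := by
    rintro _ ⟨a, ha, rfl⟩
    exact ⟨a, ha.1, rfl⟩
  have hr2 : ∀ x ∈ U0, r2.restrictScalars ℚ x ∈ U2 := by
    rintro _ ⟨a, ha, rfl⟩
    exact ⟨a, ha.2, rfl⟩
  let j : U0 →ₗ[ℚ] (U1 × U2) :=
    LinearMap.prod ((r1.restrictScalars ℚ).restrict hr1) (-((r2.restrictScalars ℚ).restrict hr2))
  have hjinj : Function.Injective j := by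
    rw [injective_iff_map_eq_zero]
    rintro ⟨z, hz0⟩ hz
    obtain ⟨a, ha, rfl⟩ := hz0
    have h1 : r1 ((p.1 ⊓ p'.1).mkQ a) = 0 := by
      have := congrArg (fun w : U1 × U2 => (w.1 : Sp d ⧸ p.1)) hz
      exact this
    have h2 : r2 ((p.1 ⊓ p'.1).mkQ a) = 0 := by
      have := congrArg (fun w : U1 × U2 => (w.2 : Sp d ⧸ p'.1)) hz
      have h3 : - (r2 ((p.1 ⊓ p'.1).mkQ a)) = 0 := this
      exact neg_eq_zero.1 h3
    change p.1.mkQ a = 0 at h1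
    change p'.1.mkQ a = 0 at h2
    rw [Submodule.mkQ_apply, Submodule.Quotient.mk_eq_zero] at h1 h2
    apply Subtype.ext
    change (p.1 ⊓ p'.1).mkQ a = 0
    rw [Submodule.mkQ_apply, Submodule.Quotient.mk_eq_zero]
    exact ⟨h1, h2⟩
  have hjker : ∀ z, j z ∈ LinearMap.ker s := by
    rintro ⟨z, hz0⟩
    obtain ⟨a, ha, rfl⟩ := hz0
    change q1 (r1 ((p.1 ⊓ p'.1).mkQ a)) + q2 (-(r2 ((p.1 ⊓ p'.1).mkQ a))) = 0
    rw [map_neg]
    exact add_neg_cancel _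
  have hrange : LinearMap.range s = (p.2 ⊔ p'.2).map ((p.1 ⊔ p'.1).mkQ.restrictScalars ℚ) := by
    ext z
    constructor
    · rintro ⟨⟨⟨u1, hu1⟩, ⟨u2, hu2⟩⟩, rfl⟩
      obtain ⟨a, ha, rfl⟩ := hu1
      obtain ⟨b, hb, rfl⟩ := hu2
      exact ⟨a + b, Submodule.add_mem_sup ha hb, rfl⟩
    · rintro ⟨v, hv, rfl⟩
      obtain ⟨a, ha, b, hb, rfl⟩ := Submodule.mem_sup.1 hv
      exact ⟨(⟨_, ⟨a, ha, rfl⟩⟩, ⟨_, ⟨b, hb, rfl⟩⟩), rfl⟩
  have hrn := LinearMap.finrank_range_add_finrank_ker s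
  rw [hrange, Module.finrank_prod] at hrn
  let j' : U0 →ₗ[ℚ] LinearMap.ker s := j.codRestrict (LinearMap.ker s) hjker
  have hj' : Function.Injective j' := by
    intro z w hzw
    apply hjinj
    exact congrArg Subtype.val hzw
  have hle := LinearMap.finrank_le_finrank_of_injective hj'
  constructor
  · change Module.Finite ℚ U0
    exact Module.Finite.of_injective j' hj'
  · unfold dq
    change finrank ℚ ((p.2 ⊔ p'.2).map ((p.1 ⊔ p'.1).mkQ.restrictScalars ℚ)) + finrank ℚ U0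
      ≤ finrank ℚ U1 + finrank ℚ U2
    omega

theorem rk_sup_le (p p' : Mx d) (h : rq p.1 ≤ p.2) (h' : rq p'.1 ≤ p'.2) (hf : FDq p)
    (hf' : FDq p') :
    rk (p ⊔ p') + finrank ℝ (rs (p.2 ⊓ p'.2)) ≤ rk p + rk p' := by
  obtain ⟨g1, g2⟩ := Rank_dq_submod p p' hf hf'
  have g3 : finrank ℝ (rs (p.2 ⊓ p'.2)) ≤ rk (p ⊓ p') :=
    rs_le_rk (p ⊓ p') (by
      intro x hx
      exact ⟨h hx.1, h' hx.2⟩) g1
  have g4 := Submodule.finrank_sup_add_finrank_inf_eq p.1 p'.1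
  unfold rk at g3 ⊢
  change finrank ℝ (p.1 ⊔ p'.1 : Submodule ℝ (Sp d)) + dq (p ⊔ p') + _ ≤ _
  change _ ≤ finrank ℝ (p.1 ⊓ p'.1 : Submodule ℝ (Sp d)) + dq (p ⊓ p') at g3
  omega

theorem rk_adjoin_le (p : Mx d) (hf : FDq p) (v : Sp d) :
    rk (p.1, p.2 ⊔ span ℚ {v}) ≤ rk p + 1 := by
  have i1 : Module.Finite ℚ (p.2.map (p.1.mkQ.restrictScalars ℚ)) := hf
  unfold rk dq
  change finrank ℝ p.1 + finrank ℚ ((p.2 ⊔ span ℚ {v}).map (p.1.mkQ.restrictScalars ℚ)) ≤ _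
  rw [Submodule.map_sup, Submodule.map_span, Set.image_singleton]
  have h1 := Submodule.finrank_add_le_finrank_add_finrank
    (p.2.map (p.1.mkQ.restrictScalars ℚ)) (span ℚ {p.1.mkQ.restrictScalars ℚ v})
  have h2 : finrank ℚ (span ℚ {p.1.mkQ.restrictScalars ℚ v}) ≤ 1 :=
    (finrank_span_le_card _).trans (by simp)
  omega

/-- rank-nullity for `Y / X → Y / X'` -/
private theorem Rank_dq_split (p : Mx d) (hf : FDq p) (X' : Submodule ℝ (Sp d)) (h1 : p.1 ≤ X') :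
    FDq (X', p.2 ⊔ rq X') ∧ dq p = dq (X', p.2 ⊔ rq X') + dq (p.1, rq X' ⊓ p.2) := by
  have i1 : Module.Finite ℚ (p.2.map (p.1.mkQ.restrictScalars ℚ)) := hf
  let f : (Sp d ⧸ p.1) →ₗ[ℝ] (Sp d ⧸ X') := Submodule.factor h1
  let fq : (Sp d ⧸ p.1) →ₗ[ℚ] (Sp d ⧸ X') := f.restrictScalars ℚ
  have hfq : ∀ a : Sp d, fq (p.1.mkQ.restrictScalars ℚ a) = X'.mkQ.restrictScalars ℚ a := fun a => rfl
  set U : Submodule ℚ (Sp d ⧸ p.1) := p.2.map (p.1.mkQ.restrictScalars ℚ) with hU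
  have hmap : U.map fq = (p.2 ⊔ rq X').map (X'.mkQ.restrictScalars ℚ) := by
    rw [Submodule.map_sup, Rank_map_rq, sup_bot_eq, hU, ← Submodule.map_comp]
    rfl
  have hrange : LinearMap.range (fq.domRestrict U) = U.map fq := by
    ext z
    constructor
    · rintro ⟨u, rfl⟩
      exact ⟨u, u.2, rfl⟩
    · rintro ⟨u, hu, rfl⟩
      exact ⟨⟨u, hu⟩, rfl⟩
  have hker : (LinearMap.ker (fq.domRestrict U)).map U.subtype
      = (rq X' ⊓ p.2).map (p.1.mkQ.restrictScalars ℚ) := by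
    ext z
    constructor
    · rintro ⟨u, hu, rfl⟩
      obtain ⟨a, ha, hau⟩ := u.2
      refine ⟨a, ⟨?_, ha⟩, hau⟩
      have h0 : fq (u : Sp d ⧸ p.1) = 0 := hu
      rw [← hau, hfq] at h0
      change X'.mkQ a = 0 at h0
      rw [Submodule.mkQ_apply, Submodule.Quotient.mk_eq_zero] at h0
      exact h0
    · rintro ⟨a, ⟨ha1, ha2⟩, rfl⟩
      refine ⟨⟨_, ⟨a, ha2, rfl⟩⟩, ?_, rfl⟩
      change fq (p.1.mkQ.restrictScalars ℚ a) = 0
      rw [hfq]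
      change X'.mkQ a = 0
      rw [Submodule.mkQ_apply, Submodule.Quotient.mk_eq_zero]
      exact ha1
  have hrn := LinearMap.finrank_range_add_finrank_ker (fq.domRestrict U)
  rw [hrange, hmap] at hrn
  have hk : finrank ℚ (LinearMap.ker (fq.domRestrict U))
      = finrank ℚ ((rq X' ⊓ p.2).map (p.1.mkQ.restrictScalars ℚ)) := by
    rw [← hker, Submodule.finrank_map_subtype_eq]
  constructor
  · change Module.Finite ℚ ((p.2 ⊔ rq X').map (X'.mkQ.restrictScalars ℚ))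
    rw [← hmap]
    infer_instance
  · unfold dq
    change finrank ℚ U = finrank ℚ ((p.2 ⊔ rq X').map (X'.mkQ.restrictScalars ℚ)) +
      finrank ℚ ((rq X' ⊓ p.2).map (p.1.mkQ.restrictScalars ℚ))
    omega

/-- If `X'` is a `Y`-rational real space between `X` and `rs Y` then `(X', Y + X')` has the same
rank as `(X, Y)` (assuming that `Y / X` is a rational form of `rs Y / X`).
Proof.  Let `p' = (X', Y + X')`.  `(Y + X') / X' = Y / (Y ∩ X')` has `ℚ`-dimension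
`dq p - dim_ℚ ((Y ∩ X') / X)`.  Now `X'` is spanned over `ℝ` by `X` and `Y ∩ X'`, so
`dim X' ≤ dim X + dim_ℚ ((Y ∩ X') / X)` (`rs_le_rk` for `(X, Y ∩ X')`), and
`rk p' = dim X' + dq p' `, `rs (Y + X') = rs Y`.  `rk p' ≥ dim rs Y = rk p` by `rs_le_rk`; and
conversely `rk p' = dim X' + dq p - dim_ℚ ((Y ∩ X') / X) ≤ dim X + dq p`. -/
theorem rk_rational (p : Mx d) (h : rq p.1 ≤ p.2) (hf : FDq p)
    (hrk : rk p = finrank ℝ (rs p.2)) (X' : Submodule ℝ (Sp d)) (h1 : p.1 ≤ X')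
    (h2 : X' ≤ rs p.2) (h3 : X' ≤ p.1 ⊔ rs (rq X' ⊓ p.2)) :
    rk (X', p.2 ⊔ rq X') = rk p ∧ rs (p.2 ⊔ rq X') = rs p.2 := by
  have hrs : rs (p.2 ⊔ rq X') = rs p.2 := by
    apply le_antisymm
    · rw [Submodule.span_le]
      intro v hv
      obtain ⟨a, ha, b, hb, rfl⟩ := Submodule.mem_sup.1 hv
      exact Submodule.add_mem _ (subset_span ha) (h2 hb)
    · exact Submodule.span_mono (fun v hv => Submodule.mem_sup_left hv)
  obtain ⟨g1, g2⟩ := Rank_dq_split p hf X' h1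
  refine ⟨?_, hrs⟩
  have hge : rk p ≤ rk (X', p.2 ⊔ rq X') := by
    have := rs_le_rk (X', p.2 ⊔ rq X') le_sup_right g1
    rw [hrk, ← hrs]
    exact this
  have hfd : FDq (p.1, rq X' ⊓ p.2) := by
    have i1 : Module.Finite ℚ (p.2.map (p.1.mkQ.restrictScalars ℚ)) := hf
    change Module.Finite ℚ ((rq X' ⊓ p.2).map (p.1.mkQ.restrictScalars ℚ))
    exact Module.Finite.of_injective
      (Submodule.inclusion (Submodule.map_mono inf_le_right :
        (rq X' ⊓ p.2).map (p.1.mkQ.restrictScalars ℚ) ≤ p.2.map (p.1.mkQ.restrictScalars ℚ)))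
      (Submodule.inclusion_injective _)
  have hle1 : finrank ℝ (rs (rq X' ⊓ p.2)) ≤ rk (p.1, rq X' ⊓ p.2) :=
    rs_le_rk (p.1, rq X' ⊓ p.2) (le_inf (fun x hx => h1 hx) h) hfd
  have hle2 : X' ≤ rs (rq X' ⊓ p.2) := by
    refine h3.trans (sup_le ?_ le_rfl)
    intro x hx
    exact subset_span (⟨h1 hx, h hx⟩ : x ∈ rq X' ⊓ p.2)
  have hle3 : finrank ℝ X' ≤ finrank ℝ (rs (rq X' ⊓ p.2)) := Submodule.finrank_mono hle2
  have hle : rk (X', p.2 ⊔ rq X') ≤ rk p := by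
    unfold rk at hle1 ⊢
    change finrank ℝ X' + dq (X', p.2 ⊔ rq X') ≤ finrank ℝ p.1 + dq p
    change _ ≤ finrank ℝ p.1 + dq (p.1, rq X' ⊓ p.2) at hle1
    omega
  exact le_antisymm hle hge

/-- rank of a real space -/
theorem rk_real (X : Submodule ℝ (Sp d)) : rk (X, rq X) = finrank ℝ X := by
  unfold rk dq
  change finrank ℝ X + finrank ℚ ((rq X).map (X.mkQ.restrictScalars ℚ)) = _
  rw [Rank_map_rq, finrank_bot, add_zero]

end Pool.Agent.MT
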