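import Pool.Agent.H75.MT.Label

/-!
# STR module WinF: the windows of `Struc` (4.7, 4.8)

`D` finite, `O ⊆ FF D` realizable, `VV` finite, `(V, Y V) ∈ O` for `V ∈ VV`, `(EE, rq EE) ∈ O`,
`rs (Y V) ∈ VV`, `V ≤ EE`, and `V ≠ rs (Y V)` for `V ≠ EE` in `VV`.
* `rk (V, Y V) = dim rs (Y V)` by `rlz_rk`; `coord` gives `φ_V`, so with
  `g0 = min_V 1 / (1 + ‖φ_V‖)` (operator norm) every `g ∈ grp D (V, Y V)`, `g ∉ V`, satisfies
  `‖g - u‖ ≥ g0` for all `u ∈ V` (`φ_V g = φ_V (g - u)` is a nonzero integer vector, as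
  `g ∈ Y V ⊆ rs (Y V)`, so it has sup norm `≥ 1`).
* Take a window `(K, z, A)` of `O`, `A'` from `label_all` with `T = {(V, Y V) : V ∈ VV}`.
  `nco EE A' * K^{dim EE} ≤ C K^d` (`rk_real`; `grp D (EE, rq EE) ≤ EE`) and `|A'| ≥ ε' K^d`, so
  by pigeonhole (`card_le_nco_mul`) some `EE`-coset contains `≥ (ε' / C') K^{dim EE}` points of `A'`:
  `B`.
* Let `V ∈ VV`, `x, x' ∈ B`, `‖x' - x - u‖ < g0`.  Claim: `u ∈ V → x' - x ∈ V`.  By induction on
  `dim EE - dim V` (strong induction): if `V = EE` clear.  Otherwise `V < rs (Y V) ∈ VV` (bigger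
  dimension), `u ∈ rs (Y V)`, so by induction `x' - x ∈ rs (Y V)`, by the labels
  `x' - x ∈ grp D (V, Y V)`; as `‖(x' - x) - u‖ < g0`, `u ∈ V`: `x' - x ∈ V`.  And if `u ∈ rs (Y V) ∈ VV`
  then `x' - x ∈ rs (Y V)` by the claim, so `x' - x ∈ grp D (V, Y V) ⊆ Y V` (`grp_le`).
-/

namespace Pool.Agent.MT

open Module Submodule

variable {d : ℕ}

/-- A uniform positive constant for a finite family. -/
private theorem WinF_unif {α : Type*} {s : Set α} (hs : s.Finite) (P : α → ℝ → Prop)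
    (hP : ∀ a ∈ s, ∃ g > 0, P a g) (hmono : ∀ a ∈ s, ∀ g g' : ℝ, g' ≤ g → P a g → P a g') :
    ∃ g > 0, ∀ a ∈ s, P a g := by
  classical
  choose! f hf0 hf using hP
  by_cases hne : hs.toFinset.Nonempty
  · refine ⟨hs.toFinset.inf' hne f, ?_, ?_⟩
    · rw [gt_iff_lt, Finset.lt_inf'_iff]
      intro a ha
      exact hf0 a (hs.mem_toFinset.1 ha)
    · intro a ha
      exact hmono a ha _ _ (Finset.inf'_le f (hs.mem_toFinset.2 ha)) (hf a ha)
  · refine ⟨1, one_pos, ?_⟩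
    intro a ha
    exact absurd ⟨a, hs.mem_toFinset.2 ha⟩ hne

/-- The gap of a group `grp D p` near the real part. -/
private theorem WinF_gap {D : Set (Sp d)} (hD : D.Finite) {p : Mx d} (hp : p ∈ FF D)
    (h : rk p = finrank ℝ (rs p.2)) :
    ∃ g0 > 0, ∀ g ∈ grp D p, ∀ u ∈ p.1, ‖g - u‖ < g0 → g ∈ p.1 := by
  obtain ⟨φ, hφ1, hφ2, hφ3⟩ := coord hD hp h
  set Φ : Sp d →L[ℝ] (Fin (dq p) → ℝ) := LinearMap.toContinuousLinearMap φ with hΦ
  have hΦφ : ∀ x, Φ x = φ x := fun x => rfl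
  have hn0 : 0 ≤ ‖Φ‖ := norm_nonneg _
  refine ⟨1 / (1 + ‖Φ‖), by positivity, ?_⟩
  intro g hg u hu hgu
  have h1 : φ g = φ (g - u) := by rw [map_sub, hφ2 u hu, sub_zero]
  have h2 : ‖φ g‖ < 1 := by
    rw [h1, ← hΦφ]
    have h3 : ‖Φ (g - u)‖ ≤ ‖Φ‖ * ‖g - u‖ := Φ.le_opNorm _
    have h4 : ‖Φ‖ * ‖g - u‖ ≤ ‖Φ‖ * (1 / (1 + ‖Φ‖)) := mul_le_mul_of_nonneg_left hgu.le hn0
    have h5 : ‖Φ‖ * (1 / (1 + ‖Φ‖)) < 1 := by
      rw [mul_one_div, div_lt_one (by positivity)]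
      linarith
    linarith
  have h6 : φ g = 0 := by
    funext i
    obtain ⟨n, hn⟩ := hφ1 g hg i
    have h7 : |φ g i| < 1 := lt_of_le_of_lt (norm_le_pi_norm (φ g) i) h2
    rw [hn] at h7
    have h8 : |n| < 1 := by exact_mod_cast h7
    have h9 : n = 0 := Int.abs_lt_one_iff.1 h8
    rw [hn, h9]
    simp
  exact hφ3 g (subset_span (grp_le (FF_le hp) hg)) h6

theorem winF {N : Sp d → ℕ} {C0 : ℕ} (hN : LocB N C0) {D : Set (Sp d)} (hD : D.Finite)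
    {O : Set (Mx d)} (hOF : O ⊆ FF D) (hO : Rlz N D O) {VV : Set (Submodule ℝ (Sp d))}
    (hfin : VV.Finite) {EE : Submodule ℝ (Sp d)} {Y : Submodule ℝ (Sp d) → Submodule ℚ (Sp d)}
    (hEE : (EE, rq EE) ∈ O) (hY : ∀ V ∈ VV, (V, Y V) ∈ O) (hpl : ∀ V ∈ VV, rs (Y V) ∈ VV)
    (hle : ∀ V ∈ VV, V ≤ EE) (hlt : ∀ V ∈ VV, V ≠ EE → V ≠ rs (Y V)) :
    ∃ ε > 0, ∃ g0 > 0, ∀ K0 : ℝ, ∃ K ≥ K0, ∃ (z : Sp d) (B : Finset (Sp d)),
      (∀ x ∈ B, ‖x - z‖ ≤ K) ∧ (∀ x ∈ B, ∀ x' ∈ B, x' - x ∈ EE) ∧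
      ε * K ^ finrank ℝ EE ≤ B.card ∧
      ∀ V ∈ VV, ∀ x ∈ B, ∀ x' ∈ B, ∀ u : Sp d, ‖x' - x - u‖ < g0 →
        (u ∈ V → x' - x ∈ V) ∧ (u ∈ rs (Y V) → x' - x ∈ Y V) := by
  classical
  have hle' : ∀ V ∈ VV, rq V ≤ Y V := fun V hV => FF_le (hOF (hY V hV))
  have hrk : ∀ V ∈ VV, rk (V, Y V) = finrank ℝ (rs (Y V)) := fun V hV =>
    rlz_rk hN hO (hY V hV) (FF_le (hOF (hY V hV))) (FF_fdq hD (hOF (hY V hV)))
  obtain ⟨g0, hg0, hgap⟩ := WinF_unif hfin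
    (fun V g0 => ∀ g ∈ grp D (V, Y V), ∀ u ∈ V, ‖g - u‖ < g0 → g ∈ V)
    (fun V hV => WinF_gap hD (hOF (hY V hV)) (hrk V hV))
    (fun V _ g g' hgg h a ha u hu hau => h a ha u hu (lt_of_lt_of_le hau hgg))
  obtain ⟨ε1, hε1, C, hW⟩ := hO
  obtain ⟨ε', hε', hL⟩ := label_all (N := N) (D := D) (O := O) hN
    (T := (fun V => ((V, Y V) : Mx d)) '' VV) (hfin.image _)
    (by rintro _ ⟨V, hV, rfl⟩; exact hY V hV)
    (by rintro _ ⟨V, hV, rfl⟩; exact hle' V hV)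
    (by rintro _ ⟨V, hV, rfl⟩; exact hrk V hV) (ε := ε1) (C := C) hε1
  set C' : ℝ := max C 1 with hC'
  have hC'0 : 0 < C' := lt_of_lt_of_le one_pos (le_max_right _ _)
  refine ⟨ε' / C', by positivity, g0, hg0, ?_⟩
  intro K0
  obtain ⟨K, hK, z, A, hA⟩ := hW (max K0 1)
  have hK1 : 1 ≤ K := (le_max_right _ _).trans hK
  have hKpos : 0 < K := by linarith
  obtain ⟨A', hA'A, hA', hlab⟩ := hL K hK1 z A hA
  have hne : A'.Nonempty := by
    rw [← Finset.card_pos]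
    have h1 : 0 < ε' * K ^ d := by positivity
    have h2 := hA'.card
    have h3 : (0 : ℝ) < A'.card := by linarith
    exact_mod_cast h3
  obtain ⟨x0, hx0, hmax⟩ := Finset.exists_max_image A'
    (fun x => (cls EE.toAddSubgroup A' x).card) hne
  have hgrpEE : grp D (EE, rq EE) ≤ EE.toAddSubgroup := by
    intro g hg
    exact grp_le (p := (EE, rq EE)) le_rfl hg
  refine ⟨K, (le_max_left _ _).trans hK, z, cls EE.toAddSubgroup A' x0, ?_, ?_, ?_, ?_⟩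
  · intro x hx
    exact hA'.ball x (mem_cls.1 hx).1
  · intro x hx x' hx'
    have h1 : x - x0 ∈ EE := (mem_cls.1 hx).2
    have h2 : x' - x0 ∈ EE := (mem_cls.1 hx').2
    have h3 := EE.sub_mem h2 h1
    have h4 : x' - x0 - (x - x0) = x' - x := by abel
    rwa [h4] at h3
  · have h1 : (A'.card : ℝ) ≤ nco EE.toAddSubgroup A' * (cls EE.toAddSubgroup A' x0).card :=
      card_le_nco_mul _ (fun x hx => Nat.cast_le.2 (hmax x hx))
    have h2 := hA'.cos _ hEE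
    rw [rk_real] at h2
    have h3 : (nco EE.toAddSubgroup A' : ℝ) ≤ nco (grp D (EE, rq EE)) A' :=
      Nat.cast_le.2 (nco_anti hgrpEE A')
    have h4 := hA'.card
    set c : ℝ := ((cls EE.toAddSubgroup A' x0).card : ℝ) with hc
    have hc0 : 0 ≤ c := Nat.cast_nonneg _
    have hKn : 0 < K ^ finrank ℝ EE := by positivity
    have hKd : 0 < K ^ d := by positivity
    have h5 : ε' * K ^ d * K ^ finrank ℝ EE ≤ C' * K ^ d * c := by
      calc ε' * K ^ d * K ^ finrank ℝ EE ≤ A'.card * K ^ finrank ℝ EE :=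
            mul_le_mul_of_nonneg_right h4 hKn.le
        _ ≤ (nco EE.toAddSubgroup A' * c) * K ^ finrank ℝ EE :=
            mul_le_mul_of_nonneg_right h1 hKn.le
        _ ≤ (nco (grp D (EE, rq EE)) A' * c) * K ^ finrank ℝ EE :=
            mul_le_mul_of_nonneg_right (mul_le_mul_of_nonneg_right h3 hc0) hKn.le
        _ = (nco (grp D (EE, rq EE)) A' * K ^ finrank ℝ EE) * c := by ring
        _ ≤ (C * K ^ d) * c := mul_le_mul_of_nonneg_right h2 hc0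
        _ ≤ C' * K ^ d * c := mul_le_mul_of_nonneg_right
            (mul_le_mul_of_nonneg_right (le_max_left _ _) hKd.le) hc0
    have h6 : ε' * K ^ finrank ℝ EE ≤ C' * c := by
      have h7 : K ^ d * (ε' * K ^ finrank ℝ EE) ≤ K ^ d * (C' * c) := by nlinarith
      exact le_of_mul_le_mul_left h7 hKd
    rw [div_mul_eq_mul_div, div_le_iff₀ hC'0]
    linarith
  · have claim : ∀ n : ℕ, ∀ V ∈ VV, finrank ℝ EE - finrank ℝ V = n →
        ∀ x ∈ cls EE.toAddSubgroup A' x0, ∀ x' ∈ cls EE.toAddSubgroup A' x0, ∀ u : Sp d,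
        ‖x' - x - u‖ < g0 → u ∈ V → x' - x ∈ V := by
      intro n
      induction n using Nat.strong_induction_on with
      | _ n ih =>
        intro V hV hn x hx x' hx' u hu huV
        by_cases hVE : V = EE
        · rw [hVE]
          have h1 : x - x0 ∈ EE := (mem_cls.1 hx).2
          have h2 : x' - x0 ∈ EE := (mem_cls.1 hx').2
          have h3 := EE.sub_mem h2 h1
          have h4 : x' - x0 - (x - x0) = x' - x := by abel
          rwa [h4] at h3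
        · have h1 : V ≤ rs (Y V) := fun v hv => subset_span (hle' V hV hv)
          have h2 : V < rs (Y V) := lt_of_le_of_ne h1 (hlt V hV hVE)
          have h3 : finrank ℝ V < finrank ℝ (rs (Y V)) := Submodule.finrank_lt_finrank_of_lt h2
          have h4 : finrank ℝ (rs (Y V)) ≤ finrank ℝ EE :=
            Submodule.finrank_mono (hle _ (hpl V hV))
          have h5 : x' - x ∈ rs (Y V) := ih _ (by omega) (rs (Y V)) (hpl V hV) rfl x hx x' hx' u hu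
            (h1 huV)
          have h6 : x' - x ∈ grp D (V, Y V) := hlab (V, Y V) ⟨V, hV, rfl⟩ x (mem_cls.1 hx).1 x'
            (mem_cls.1 hx').1 h5
          exact hgap V hV _ h6 u huV hu
    intro V hV x hx x' hx' u hu
    refine ⟨fun huV => claim _ V hV rfl x hx x' hx' u hu huV, fun huV => ?_⟩
    have h5 : x' - x ∈ rs (Y V) := claim _ (rs (Y V)) (hpl V hV) rfl x hx x' hx' u hu huV
    have h6 : x' - x ∈ grp D (V, Y V) := hlab (V, Y V) ⟨V, hV, rfl⟩ x (mem_cls.1 hx).1 x'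
      (mem_cls.1 hx').1 h5
    exact grp_le (p := (V, Y V)) (hle' V hV) h6

end Pool.Agent.MT
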