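import Pool.Agent.H75.MT.FFin
import Pool.Agent.H75.MT.P2
import Pool.Agent.H75.MT.P5
import Pool.Agent.H75.MT.WinF

/-!
# STR: the maximal family and the tower; the theorem `str4`
-/

namespace Pool.Agent.MT

open Module Submodule

variable {d : ℕ}

theorem rs_mono {Y Y' : Submodule ℚ (Sp d)} (h : Y ≤ Y') : rs Y ≤ rs Y' :=
  span_mono h

theorem rs_sup (Y Y' : Submodule ℚ (Sp d)) : rs (Y ⊔ Y') = rs Y ⊔ rs Y' := by
  apply le_antisymm
  · refine span_le.2 ?_
    intro x hx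
    obtain ⟨y, hy, y', hy', rfl⟩ := Submodule.mem_sup.1 hx
    exact Submodule.add_mem_sup (subset_span hy) (subset_span hy')
  · exact sup_le (rs_mono le_sup_left) (rs_mono le_sup_right)

theorem rs_rq (X : Submodule ℝ (Sp d)) : rs (rq X) = X := by
  apply le_antisymm
  · exact span_le.2 (fun x hx => hx)
  · exact fun x hx => subset_span hx

theorem rs_span (D2 : Set (Sp d)) : rs (span ℚ D2) = span ℝ D2 := by
  apply le_antisymm
  · refine span_le.2 ?_
    intro x hx
    have h1 : span ℚ D2 ≤ rq (span ℝ D2) := span_le.2 (fun y hy => subset_span hy)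
    exact h1 hx
  · exact span_mono subset_span

theorem le_rq_rs (Y : Submodule ℚ (Sp d)) : Y ≤ rq (rs Y) := fun _ hx => subset_span hx

theorem FF_rs {D : Set (Sp d)} {p : Mx d} (hp : p ∈ FF D) :
    ∃ D2 ⊆ D, rs p.2 = p.1 ⊔ span ℝ D2 := by
  obtain ⟨_, D2, h2, h⟩ := hp
  exact ⟨D2, h2, by rw [h, rs_sup, rs_rq, rs_span]⟩

theorem FF_sup {D : Set (Sp d)} {p p' : Mx d} (hp : p ∈ FF D) (hp' : p' ∈ FF D)
    (h : p.1 ≤ p'.1) : p ⊔ p' ∈ FF D := by
  obtain ⟨hX, D2, h2, hY⟩ := hp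
  obtain ⟨hX', D2', h2', hY'⟩ := hp'
  have h1 : (p ⊔ p').1 = p'.1 := by
    rw [Prod.fst_sup]; exact sup_eq_right.2 h
  refine ⟨by rw [h1]; exact hX', D2 ∪ D2', Set.union_subset h2 h2', ?_⟩
  rw [h1, Prod.snd_sup, hY, hY', span_union]
  have h3 : rq p.1 ≤ rq p'.1 := h
  apply le_antisymm
  · exact sup_le (sup_le (h3.trans le_sup_left) (le_sup_left.trans le_sup_right))
      (sup_le le_sup_left (le_sup_right.trans le_sup_right))
  · exact sup_le (le_sup_left.trans le_sup_right)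
      (sup_le (le_sup_right.trans le_sup_left) (le_sup_right.trans le_sup_right))

theorem FF_adjoin {D : Set (Sp d)} {p : Mx d} (hp : p ∈ FF D) {v : Sp d} (hv : v ∈ D) :
    (p.1, p.2 ⊔ span ℚ {v}) ∈ FF D := by
  obtain ⟨hX, D2, h2, hY⟩ := hp
  refine ⟨hX, D2 ∪ {v}, Set.union_subset h2 (Set.singleton_subset_iff.2 hv), ?_⟩
  simp only
  rw [hY, span_union, sup_assoc]

theorem str4 (S : Finset (Sp d)) (N : Sp d → ℕ) (C0 : ℕ) (hN : LocB N C0) (hDens : Dens N)
    (FD : Set (Submodule ℝ (Sp d) × (Sp d → ℝ))) (hFD : ∀ p ∈ FD, H3 S N p.1 p.2) :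
    ∃ (VV : Set (Submodule ℝ (Sp d))) (EE : Submodule ℝ (Sp d))
      (Y : Submodule ℝ (Sp d) → Submodule ℚ (Sp d)), Struc S FD VV EE Y := by
  classical
  set D : Set (Sp d) := dif S with hDdef
  have hD : D.Finite := dif_finite S
  obtain ⟨O, hOF, hO, hmax⟩ := exists_max hD (rlz_empty hN hDens D)
  have hOfin : O.Finite := (FF_finite hD).subset hOF
  -- sums
  have hsup : ∀ p ∈ O, ∀ p' ∈ O, p.1 ≤ p'.1 → p ⊔ p' ∈ O := by
    intro p hp p' hp' h
    refine hmax _ (FF_sup (hOF hp) (hOF hp') h) ?_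
    exact P1 hN hO hp hp' (FF_le (hOF hp)) (FF_le (hOF hp')) (FF_fdq hD (hOF hp))
      (FF_fdq hD (hOF hp'))
  have hP2 : ∀ p ∈ O, ∀ X' : Submodule ℝ (Sp d), p.1 ≤ X' → X' ≤ rs p.2 →
      X' ≤ p.1 ⊔ rs (rq X' ⊓ p.2) → XX D X' → (X', rq X') ∈ O := by
    intro p hp X' h1 h2 h3 hX'
    exact hmax _ (FF_real hX') (P2 hN hD hO hp (hOF hp) X' h1 h2 h3 hX')
  have hbot : ((⊥ : Submodule ℝ (Sp d)), rq (⊥ : Submodule ℝ (Sp d))) ∈ O :=
    hmax _ (FF_real XX.bot) (P0 hN hO)
  -- the maximal rational space over a real member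
  have hY0 : ∀ V : Submodule ℝ (Sp d), (V, rq V) ∈ O →
      ∃ Y : Submodule ℚ (Sp d), (V, Y) ∈ O ∧ ∀ Y', (V, Y') ∈ O → Y' ≤ Y := by
    intro V hV
    have hfin : {Y : Submodule ℚ (Sp d) | (V, Y) ∈ O}.Finite := by
      refine (hOfin.image Prod.snd).subset ?_
      intro Y hY
      exact ⟨(V, Y), hY, rfl⟩
    obtain ⟨M, hM⟩ := hfin.exists_maximal ⟨rq V, hV⟩
    refine ⟨M, hM.prop, ?_⟩
    intro Y' hY'
    have h1 := hsup _ hM.prop _ hY' le_rfl
    have h2 : M ⊔ Y' ∈ {Y : Submodule ℚ (Sp d) | (V, Y) ∈ O} := by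
      have : ((V, M) : Mx d) ⊔ (V, Y') = (V, M ⊔ Y') := by
        ext1
        · simp
        · simp
      rw [this] at h1
      exact h1
    exact le_sup_right.trans (hM.le_of_ge h2 le_sup_left)
  choose! Y hYO hYmax using hY0
  -- the plus operation
  have hpl : ∀ V : Submodule ℝ (Sp d), (V, rq V) ∈ O → (rs (Y V), rq (rs (Y V))) ∈ O := by
    intro V hV
    have h1 := hYO V hV
    have h2 : rq V ≤ Y V := FF_le (hOF h1)
    refine hP2 _ h1 (rs (Y V)) ?_ le_rfl ?_ ?_
    · intro x hx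
      exact subset_span (h2 hx)
    · refine le_trans (rs_mono ?_) le_sup_right
      exact le_inf (le_rq_rs _) le_rfl
    · obtain ⟨D2, hD2, h3⟩ := FF_rs (hOF h1)
      simp only at h3
      rw [h3]
      exact XX.add V D2 hD2 (hOF h1).1
  have hmono : ∀ V V' : Submodule ℝ (Sp d), (V, rq V) ∈ O → (V', rq V') ∈ O → V ≤ V' →
      Y V ≤ Y V' := by
    intro V V' hV hV' hle
    have h1 := hsup _ (hYO V hV) _ hV' hle
    have h2 : ((V, Y V) : Mx d) ⊔ (V', rq V') = (V', Y V ⊔ rq V') := by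
      ext1
      · simpa using hle
      · simp
    rw [h2] at h1
    exact le_sup_left.trans (hYmax V' hV' _ h1)
  have hVle : ∀ V : Submodule ℝ (Sp d), (V, rq V) ∈ O → V ≤ rs (Y V) := by
    intro V hV x hx
    exact subset_span (FF_le (hOF (hYO V hV)) hx)
  -- the tower
  set W : ℕ → Submodule ℝ (Sp d) := fun n => (fun V => rs (Y V))^[n] ⊥ with hW
  have hWs : ∀ n, W (n + 1) = rs (Y (W n)) := by
    intro n
    simp only [hW, Function.iterate_succ', Function.comp]
  have hWO : ∀ n, (W n, rq (W n)) ∈ O := by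
    intro n
    induction n with
    | zero => exact hbot
    | succ n ih => rw [hWs]; exact hpl _ ih
  have hstab : ∃ n, W (n + 1) = W n := by
    by_contra hcon
    push Not at hcon
    have h1 : ∀ n, n ≤ finrank ℝ (W n) := by
      intro n
      induction n with
      | zero => exact Nat.zero_le _
      | succ n ih =>
        have h2 : W n < W (n + 1) := by
          refine lt_of_le_of_ne ?_ (hcon n).symm
          rw [hWs]; exact hVle _ (hWO n)
        have h3 := Submodule.finrank_lt_finrank_of_lt h2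
        omega
    have h4 := h1 (d + 1)
    have h5 := Submodule.finrank_le (W (d + 1))
    simp only [finrank_fin_fun] at h5
    omega
  obtain ⟨n, hn⟩ := hstab
  set EE : Submodule ℝ (Sp d) := W n with hEE
  have hEEO : (EE, rq EE) ∈ O := hWO n
  have hEEs : rs (Y EE) = EE := (hWs n).symm.trans hn
  have hWV : ∀ V : Submodule ℝ (Sp d), (V, rq V) ∈ O → V = rs (Y V) → ∀ m, W m ≤ V := by
    intro V hV hVe m
    induction m with
    | zero => exact bot_le
    | succ m ih =>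
      rw [hWs]
      calc rs (Y (W m)) ≤ rs (Y V) := rs_mono (hmono _ _ (hWO m) hV ih)
        _ = V := hVe.symm
  refine ⟨{V | (V, rq V) ∈ O ∧ V ≤ EE}, EE, Y, ?_⟩
  have hple : ∀ V : Submodule ℝ (Sp d), (V, rq V) ∈ O → V ≤ EE → rs (Y V) ≤ EE := by
    intro V hV hVE
    calc rs (Y V) ≤ rs (Y EE) := rs_mono (hmono _ _ hV hEEO hVE)
      _ = EE := hEEs
  refine
    { fin := ?_
      bot_mem := ⟨hbot, bot_le⟩
      top_mem := ⟨hEEO, le_rfl⟩
      le_top := fun V hV => hV.2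
      le_Y := fun V hV => FF_le (hOF (hYO V hV.1))
      pl_mem := fun V hV => ⟨hpl V hV.1, hple V hV.1 hV.2⟩
      mono := fun V hV V' hV' h => hmono V V' hV.1 hV'.1 h
      lt := ?_
      fd := fun V hV => FF_fdq hD (hOF (hYO V hV.1))
      form := fun V hV => rlz_rk hN hO (hYO V hV.1) (FF_le (hOF (hYO V hV.1)))
        (FF_fdq hD (hOF (hYO V hV.1)))
      good := ?_
      cap := ?_
      win := ?_ }
  · refine (XX_finite hD).subset ?_
    intro V hV
    exact (hOF hV.1).1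
  · intro V hV hne he
    exact hne (le_antisymm hV.2 (hWV V hV.1 he n))
  · intro V hV A hA y
    by_contra hcon
    obtain ⟨v, hv, hvY, hR⟩ := P5 hN hOF hOfin hO (hYO V hV.1) (hFD _ hA) hcon
    have h1 := hmax _ (FF_adjoin (hOF (hYO V hV.1)) hv) hR
    have h2 := hYmax V hV.1 _ h1
    exact hvY (h2 (Submodule.mem_sup_right (mem_span_singleton_self v)))
  · intro U hU D3 hD3 hUD hcond
    have h1 := hYO U hU.1
    obtain ⟨D2, hD2, h3⟩ := FF_rs (hOF h1)
    simp only at h3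
    have hUX : U ≤ span ℝ D3 ⊓ rs (Y U) := le_inf hUD (hVle U hU.1)
    refine ⟨hP2 _ h1 _ hUX inf_le_right ?_ ?_, inf_le_right.trans (hple U hU.1 hU.2)⟩
    · refine hcond.trans (sup_le_sup le_rfl (rs_mono ?_))
      refine le_inf ?_ inf_le_right
      intro x hx
      exact ⟨hx.1, subset_span hx.2⟩
    · have h4 := XX.cap U D2 D3 hD2 hD3 (hOF h1).1
      rw [← h3, sup_eq_right.2 hUX] at h4
      exact h4
  · refine winF hN hD hOF hO (VV := {V | (V, rq V) ∈ O ∧ V ≤ EE}) ?_ hEEO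
      (fun V hV => hYO V hV.1) (fun V hV => ⟨hpl V hV.1, hple V hV.1 hV.2⟩)
      (fun V hV => hV.2) ?_
    · refine (XX_finite hD).subset ?_
      intro V hV
      exact (hOF hV.1).1
    · intro V hV hne he
      exact hne (le_antisymm hV.2 (hWV V hV.1 he n))

end Pool.Agent.MT
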